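import Pool.Agent.H71.PX.ClosM
import Pool.Agent.H48.PW.TailDef

/-!
# Blocks X and T of P-WIDE: the final statement (`tail_T` of H48/PW/Blk.lean)
-/

set_option autoImplicit false

open MeasureTheory Set Filter Topology Pool.Agent.H25.Kin Pool.Agent.H82.BK Pool.Agent.H82.CM
open Pool.Agent.H48.PL Pool.Agent.H48.PI Pool.Agent.H48.PW

namespace Pool.Agent.H71.PX

variable {d : ℕ} {s a β C Ca cb : ℝ} {b : ℝ → ℝ}

theorem tail_all (HL : HypL d (1 + a) s b C Ca cb) {m : ℝ} (ha : 0 < a) (h1 : 2 * s < m)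
    (hQ : m / (2 * s) * (1 + m) + a < 2) (hβ : β < 1) : TailT d a β m b := by
  intro e M
  have hs := HL.H.hs
  have E : EX a m (kpa s m) := by
    refine ⟨ha, by linarith, ?_, hQ⟩
    unfold kpa
    rw [one_le_div (by positivity)]
    exact h1.le
  obtain ⟨K, hK, h⟩ := tail_b HL h1 E e M
  refine ⟨1, K, hβ, hK, fun T f hf hpl h0 V hV t₀ t ht₀ htt htT => ?_⟩
  simp only [XT_eq]
  exact h T f hf hpl h0 V hV t₀ t ht₀ htt htT

theorem tail_T (HL : HypL d (1 + a) s b C Ca cb) (W : WP s a β β)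
    (hQ : β / (2 * s) * (1 + β) + a < 2) : TailT d a β β b :=
  tail_all HL W.ha W.hβ hQ W.hm

end Pool.Agent.H71.PX
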