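import Pool.Agent.H71.PX.Defs
import Pool.Agent.H48.PL.JB

/-!
# Module Th0A: the angular weight `Th0`, elementary bounds

`L = len V`, `J = jb V ≥ 1`, `λ = ε J^(-κ) > 0`, `D = V_e² + (λL)²`, `Th0 V = L^(1+a) J^m (V_e/D)`; `len V = 0 ↔ V = 0`, and then `Th0 = 0`
(`0^(1+a) = 0`).
* `Th0_abs`: `V ≠ 0`: `2 |V_e| (λL) ≤ D`, so `|V_e/D| ≤ 1/(2λL)`, and `L^(1+a) J^m/(2 ε J^(-κ) L) = L^a J^(m+κ)/(2ε)`.
* `VTh0_nonneg`, `VTh0_le`: `V_e · V_e/D = V_e²/D ∈ [0,1]` (also for `D = 0`: `x/0 = 0`). `VTh0_low`: `λL ≤ |V_e|` gives `D ≤ 2 V_e²`, and if `D = 0` then `V = 0`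
  (both sides `0`).
* `Th0_cont`: at `V ≠ 0` the denominator is `> 0` (`λL > 0`) and everything is continuous (`ContinuousAt`); at `V = 0`: `|Th0 V| ≤ (1/(2ε)) L^a J^(m+κ) → 0`
  (`squeeze_zero_norm'` or `Metric`/`tendsto_of_tendsto_of_dist`; `len` continuous: `continuous_len`, `jb_cont`; `0 < a`).
* `rpow_diff`: mean value theorem for `x ↦ x^p` on `[x/2, 2x]`: derivative `p ξ^(p-1)`, and `ξ^(p-1) ≤ 2^|p-1| x^(p-1)` for `x/2 ≤ ξ ≤ 2x`.
-/

set_option autoImplicit false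

open MeasureTheory Set Filter Topology Pool.Agent.H25.Kin Pool.Agent.H48.PL Pool.Agent.H48.PI

namespace Pool.Agent.H71.PX

variable {d : ℕ} {a m κ ε : ℝ}

private lemma jb_neg' (V : Vec d) : jb (-V) = jb V := by
  unfold jb
  rw [show nsq (-V) = nsq V by unfold nsq; simp]

private lemma len_eq_zero' {V : Vec d} (h : len V = 0) : V = 0 := by
  by_contra hV
  exact (len_pos hV).ne' h

lemma Th0_zero (ha : 0 < a) (e : Fin d) : Th0 e a m κ ε 0 = 0 := by
  unfold Th0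
  rw [len_zero, Real.zero_rpow (by linarith), zero_mul, zero_mul]

lemma Th0_neg (e : Fin d) (V : Vec d) : Th0 e a m κ ε (-V) = -Th0 e a m κ ε V := by
  unfold Th0
  rw [len_neg, jb_neg', Pi.neg_apply, neg_sq, neg_div, mul_neg]

private lemma quot_abs {x y : ℝ} (hy : 0 < y) : |x / (x ^ 2 + y ^ 2)| ≤ 1 / (2 * y) := by
  have hD : 0 < x ^ 2 + y ^ 2 := by positivity
  rw [abs_div, abs_of_pos hD, div_le_div_iff₀ hD (by positivity)]
  have h := sq_nonneg (|x| - y)
  have h2 := sq_abs x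
  nlinarith

lemma Th0_abs (ha : 0 < a) (hε : 0 < ε) (e : Fin d) (V : Vec d) :
    |Th0 e a m κ ε V| ≤ 1 / (2 * ε) * (len V ^ a * jb V ^ (m + κ)) := by
  by_cases hV : V = 0
  · subst hV
    rw [Th0_zero ha, abs_zero]
    have h1 := Real.rpow_nonneg (len_nonneg (0 : Vec d)) a
    have h2 := Real.rpow_nonneg (jb_pos (0 : Vec d)).le (m + κ)
    positivity
  · have hL := len_pos hV
    have hJ := jb_pos V
    have hy : 0 < ε * jb V ^ (-κ) * len V := by
      have := Real.rpow_pos_of_pos hJ (-κ)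
      positivity
    have h1 := quot_abs (x := V e) hy
    have hA : 0 ≤ len V ^ (1 + a) * jb V ^ m :=
      mul_nonneg (Real.rpow_nonneg hL.le _) (Real.rpow_nonneg hJ.le _)
    unfold Th0
    rw [abs_mul, abs_of_nonneg hA]
    refine (mul_le_mul_of_nonneg_left h1 hA).trans (le_of_eq ?_)
    have e1 : len V ^ (1 + a) = len V * len V ^ a := by
      rw [Real.rpow_add hL, Real.rpow_one]
    have e2 : jb V ^ (m + κ) = jb V ^ m * jb V ^ κ := Real.rpow_add hJ m κ
    have e3 : jb V ^ (-κ) = (jb V ^ κ)⁻¹ := Real.rpow_neg hJ.le κ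
    have hJκ : 0 < jb V ^ κ := Real.rpow_pos_of_pos hJ κ
    rw [e1, e2, e3]
    field_simp

private lemma VTh0_eq (e : Fin d) (V : Vec d) : V e * Th0 e a m κ ε V =
    len V ^ (1 + a) * jb V ^ m *
      (V e ^ 2 / (V e ^ 2 + (ε * jb V ^ (-κ) * len V) ^ 2)) := by
  unfold Th0
  ring

private lemma amp_nonneg (V : Vec d) : 0 ≤ len V ^ (1 + a) * jb V ^ m :=
  mul_nonneg (Real.rpow_nonneg (len_nonneg V) _) (Real.rpow_nonneg (jb_pos V).le _)

lemma VTh0_nonneg (e : Fin d) (V : Vec d) : 0 ≤ V e * Th0 e a m κ ε V := by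
  rw [VTh0_eq]
  exact mul_nonneg (amp_nonneg V) (by positivity)

lemma VTh0_le (e : Fin d) (V : Vec d) : V e * Th0 e a m κ ε V ≤ len V ^ (1 + a) * jb V ^ m := by
  rw [VTh0_eq]
  refine mul_le_of_le_one_right (amp_nonneg V) ?_
  refine div_le_one_of_le₀ ?_ (by positivity)
  have := sq_nonneg (ε * jb V ^ (-κ) * len V)
  linarith

lemma VTh0_low (ha : 0 < a) (hε : 0 < ε) (e : Fin d) {V : Vec d}
    (h : ε * jb V ^ (-κ) * len V ≤ |V e|) :
    1 / 2 * (len V ^ (1 + a) * jb V ^ m) ≤ V e * Th0 e a m κ ε V := by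
  by_cases hV : V = 0
  · subst hV
    rw [len_zero, Real.zero_rpow (by linarith), zero_mul, mul_zero]
    exact VTh0_nonneg e 0
  · have hL := len_pos hV
    have hJ := jb_pos V
    have hy : 0 < ε * jb V ^ (-κ) * len V := by
      have := Real.rpow_pos_of_pos hJ (-κ)
      positivity
    rw [VTh0_eq, mul_comm]
    refine mul_le_mul_of_nonneg_left ?_ (amp_nonneg V)
    rw [div_le_div_iff₀ (by norm_num) (by positivity)]
    have h2 : (ε * jb V ^ (-κ) * len V) ^ 2 ≤ V e ^ 2 := by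
      rw [← sq_abs (V e)]
      exact pow_le_pow_left₀ hy.le h 2
    linarith

theorem Th0_cont (ha : 0 < a) (hε : 0 < ε) (e : Fin d) : Continuous (Th0 e a m κ ε) := by
  rw [continuous_iff_continuousAt]
  intro V
  have cL : ContinuousAt (fun V : Vec d => len V) V := continuous_len.continuousAt
  have cJ : ContinuousAt (fun V : Vec d => jb V) V := jb_cont.continuousAt
  have cE : ContinuousAt (fun V : Vec d => V e) V := (continuous_apply e).continuousAt
  by_cases hV : V = 0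
  · subst hV
    unfold ContinuousAt
    rw [Th0_zero ha]
    have hb : Tendsto (fun V : Vec d => 1 / (2 * ε) * (len V ^ a * jb V ^ (m + κ))) (𝓝 0) (𝓝 0) := by
      have c : ContinuousAt (fun V : Vec d => 1 / (2 * ε) * (len V ^ a * jb V ^ (m + κ))) 0 :=
        continuousAt_const.mul ((cL.rpow_const (Or.inr ha.le)).mul
          (cJ.rpow_const (Or.inl (jb_pos _).ne')))
      unfold ContinuousAt at c
      have e0 : (1 / (2 * ε) * (len (0 : Vec d) ^ a * jb (0 : Vec d) ^ (m + κ))) = 0 := by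
        rw [len_zero, Real.zero_rpow ha.ne', zero_mul, mul_zero]
      exact e0 ▸ c
    refine squeeze_zero_norm (fun V => ?_) hb
    rw [Real.norm_eq_abs]
    exact Th0_abs ha hε e V
  · have hL := len_pos hV
    have hJ := jb_pos V
    have hy : 0 < ε * jb V ^ (-κ) * len V := by
      have := Real.rpow_pos_of_pos hJ (-κ)
      positivity
    have c1 : ContinuousAt (fun V : Vec d => len V ^ (1 + a)) V := cL.rpow_const (Or.inl hL.ne')
    have c2 : ContinuousAt (fun V : Vec d => jb V ^ m) V := cJ.rpow_const (Or.inl hJ.ne')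
    have c3 : ContinuousAt (fun V : Vec d => jb V ^ (-κ)) V := cJ.rpow_const (Or.inl hJ.ne')
    have c4 : ContinuousAt (fun V : Vec d => V e ^ 2 + (ε * jb V ^ (-κ) * len V) ^ 2) V :=
      (cE.pow 2).add (((continuousAt_const.mul c3).mul cL).pow 2)
    exact (c1.mul c2).mul (cE.div c4 (by positivity))

private lemma rpow_two_bd {t r : ℝ} (h1 : 1 / 2 ≤ t) (h2 : t ≤ 2) : t ^ r ≤ 2 ^ |r| := by
  rcases le_or_gt 0 r with hr | hr
  · rw [abs_of_nonneg hr]
    exact Real.rpow_le_rpow (by linarith) h2 hr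
  · rw [abs_of_neg hr]
    have h3 : t ^ r ≤ (1 / 2 : ℝ) ^ r := Real.rpow_le_rpow_of_nonpos (by norm_num) h1 hr.le
    have h4 : (1 / 2 : ℝ) ^ r = 2 ^ (-r) := by
      rw [one_div, Real.inv_rpow (by norm_num), Real.rpow_neg (by norm_num)]
    rwa [h4] at h3

lemma rpow_diff {p x y : ℝ} (hx : 0 < x) (h1 : x / 2 ≤ y) (h2 : y ≤ 2 * x) :
    |y ^ p - x ^ p| ≤ |p| * 2 ^ |p - 1| * (|y - x| * x ^ (p - 1)) := by
  have hd : ∀ z ∈ Icc (x / 2) (2 * x), HasDerivWithinAt (fun z : ℝ => z ^ p) (p * z ^ (p - 1))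
      (Icc (x / 2) (2 * x)) z := by
    intro z hz
    have hz0 : 0 < z := lt_of_lt_of_le (by positivity) hz.1
    exact (Real.hasDerivAt_rpow_const (Or.inl hz0.ne')).hasDerivWithinAt
  have hb : ∀ z ∈ Icc (x / 2) (2 * x), ‖p * z ^ (p - 1)‖ ≤ |p| * 2 ^ |p - 1| * x ^ (p - 1) := by
    intro z hz
    have hz0 : 0 < z := lt_of_lt_of_le (by positivity) hz.1
    rw [norm_mul, Real.norm_eq_abs, Real.norm_of_nonneg (Real.rpow_nonneg hz0.le _), mul_assoc]
    refine mul_le_mul_of_nonneg_left ?_ (abs_nonneg p)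
    have e1 : z ^ (p - 1) = (z / x) ^ (p - 1) * x ^ (p - 1) := by
      rw [← Real.mul_rpow (by positivity) hx.le, div_mul_cancel₀ _ hx.ne']
    rw [e1]
    refine mul_le_mul_of_nonneg_right (rpow_two_bd ?_ ?_) (Real.rpow_nonneg hx.le _)
    · rw [le_div_iff₀ hx]
      linarith [hz.1]
    · rw [div_le_iff₀ hx]
      exact hz.2
  have h := Convex.norm_image_sub_le_of_norm_hasDerivWithin_le hd hb (convex_Icc _ _)
    (show x ∈ Icc (x / 2) (2 * x) from ⟨by linarith, by linarith⟩)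
    (show y ∈ Icc (x / 2) (2 * x) from ⟨h1, h2⟩)
  rw [Real.norm_eq_abs, Real.norm_eq_abs] at h
  refine h.trans (le_of_eq ?_)
  ring

end Pool.Agent.H71.PX
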