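import Pool.Agent.H25.PT.Defs
import Pool.Agent.H48.PW.Defs

/-!
# P-WIDE (MP_c15324_an), blocks X and T: the pair functionals, definitions

`γ = 1 + a`, `2s < m`, `κ = m/(2s)`, `q = κ(1+m) + a < 2` (`EX a m κ`; then `m < 1`, `a + m < 1`, `a + m + κ ≤ q < 2`).
The density `dn` is the one of `XT` (H48/PW/Defs): `g(v) g(w) |V|^(1+a) ⟨V⟩^m`, `V = v - w`; `YS` is its integral over a set of pairs,
`YW` the integral with the conserved weight `om m V (RR v w) = min(1,R/V)^(4-m)`: `XT a m V g = YW a m V g univ`.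
-/

set_option autoImplicit false

open MeasureTheory Set Filter Topology Pool.Agent.H25.Kin Pool.Agent.H48.PL Pool.Agent.H48.PI
open Pool.Agent.H25.PT Pool.Agent.H48.PW

namespace Pool.Agent.H71.PX

variable {d : ℕ}

/-- the conditions on the exponents -/
structure EX (a m κ : ℝ) : Prop where
  ha : 0 < a
  hm : 0 < m
  hκ : 1 ≤ κ
  hq : κ * (1 + m) + a < 2

/-- `q = κ(1+m) + a` -/
noncomputable def qx (a m κ : ℝ) : ℝ := κ * (1 + m) + a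

/-- the density `g(v) g(w) |v-w|^(1+a) ⟨v-w⟩^m` -/
noncomputable def dn (a m : ℝ) (g : Vec d → ℝ) (p : Vec d × Vec d) : ℝ :=
  g p.1 * g p.2 * (len (p.1 - p.2) ^ (1 + a) * jb (p.1 - p.2) ^ m)

/-- `∫∫_A g(v) g(w) |v-w|^(1+a) ⟨v-w⟩^m` -/
noncomputable def YS (a m : ℝ) (g : Vec d → ℝ) (A : Set (Vec d × Vec d)) : ℝ := ∫ p in A, dn a m g p

/-- the same with the weight `min(1,R/V)^(4-m)` -/
noncomputable def YW (a m V : ℝ) (g : Vec d → ℝ) (A : Set (Vec d × Vec d)) : ℝ :=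
  ∫ p in A, dn a m g p * om m V (RR p.1 p.2)

/-- the same with a general weight -/
noncomputable def YG (a m : ℝ) (ω : Vec d × Vec d → ℝ) (g : Vec d → ℝ) : ℝ := ∫ p, dn a m g p * ω p

/-- transversal pairs: `|V_e| ≥ ε ⟨V⟩^(-κ) |V|` -/
def NtM (e : Fin d) (ε κ : ℝ) : Set (Vec d × Vec d) :=
  {p | ε * jb (p.1 - p.2) ^ (-κ) * len (p.1 - p.2) ≤ |p.1 e - p.2 e|}

/-- `|V|^(1+a) ⟨V⟩^m V_e / (V_e² + ε² ⟨V⟩^(-2κ) |V|²)` -/
noncomputable def Th0 (e : Fin d) (a m κ ε : ℝ) (V : Vec d) : ℝ :=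
  len V ^ (1 + a) * jb V ^ m * (V e / (V e ^ 2 + (ε * jb V ^ (-κ) * len V) ^ 2))

/-- the cut-off function `1` on `[0,1]`, `0` on `[2,∞)` -/
noncomputable def cu (x : ℝ) : ℝ := max 0 (min 1 (2 - x))

/-- the part of `Th0` with `|V| ≥ 1` -/
noncomputable def N1 (e : Fin d) (a m κ ε : ℝ) (V : Vec d) : ℝ := (1 - cu (len V)) * Th0 e a m κ ε V

/-- the part of `Th0` with `|V| ≤ 2` -/
noncomputable def N2 (e : Fin d) (a m κ ε : ℝ) (V : Vec d) : ℝ := cu (len V) * Th0 e a m κ ε V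

/-- `(min(j,k)/max(j,k))² om(min(j,k))` -/
noncomputable def Sm (m V j k : ℝ) : ℝ := (min j k / max j k) ^ 2 * om m V (min j k)

/-- the antisymmetric weight `(min(⟨v⟩,⟨w⟩)/max(⟨v⟩,⟨w⟩))² om(min(⟨v⟩,⟨w⟩)) Th0(v-w)` -/
noncomputable def TV (e : Fin d) (a m κ ε V : ℝ) (v w : Vec d) : ℝ :=
  Sm m V (jb v) (jb w) * Th0 e a m κ ε (v - w)

/-- its part with `|v-w| ≥ 1` -/
noncomputable def T1 (e : Fin d) (a m κ ε V : ℝ) (v w : Vec d) : ℝ :=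
  Sm m V (jb v) (jb w) * N1 e a m κ ε (v - w)

/-- its part with `|v-w| ≤ 2` -/
noncomputable def T2 (e : Fin d) (a m κ ε V : ℝ) (v w : Vec d) : ℝ :=
  Sm m V (jb v) (jb w) * N2 e a m κ ε (v - w)

lemma TV_split (e : Fin d) (a m κ ε V : ℝ) (v w : Vec d) :
    TV e a m κ ε V v w = T1 e a m κ ε V v w + T2 e a m κ ε V v w := by
  unfold TV T1 T2 N1 N2
  ring

lemma XT_eq (a m V : ℝ) (g : Vec d → ℝ) : XT a m V g = YW a m V g univ := by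
  unfold XT YW dn
  rw [setIntegral_univ]

lemma EX.facts {a m κ : ℝ} (E : EX a m κ) : 0 < m ∧ m < 1 ∧ a < 1 ∧ a + m < 1 ∧ a + m + κ < 2 ∧
    a + m + κ ≤ qx a m κ ∧ a + κ ≤ qx a m κ ∧ 0 ≤ qx a m κ ∧ qx a m κ < 2 ∧ κ < 2 := by
  have h1 := E.ha
  have h5 := E.hm
  have h3 := E.hκ
  have h4 := E.hq
  have h6 : 1 * m ≤ κ * m := mul_le_mul_of_nonneg_right h3 h5.le
  have h7 : κ * (1 + m) = κ + κ * m := by ring
  unfold qx
  refine ⟨h5, ?_, ?_, ?_, ?_, ?_, ?_, ?_, ?_, ?_⟩ <;> nlinarith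

end Pool.Agent.H71.PX
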