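import Pool.Agent.H71.PX.EntM
import Pool.Agent.H48.PL.EntB

/-!
# Module EntMF: the entropy inequality on a fiber, restricted to `R > ρ₁` (copy of PT/EntFZ), and with the weight `om` (copy of PT/EntW)
-/

set_option autoImplicit false

open MeasureTheory Set Filter Topology Pool.Agent.H25.Kin Pool.Agent.H82.BK Pool.Agent.H82.CM
open Pool.Agent.H48.PL Pool.Agent.H48.PI Pool.Agent.H25.PT Pool.Agent.H48.PW
open Pool.Agent.H15.AV (UNice gau nice_gau)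

namespace Pool.Agent.H71.PX


variable {d : ℕ} {s a m C Ca cb : ℝ} {b : ℝ → ℝ}

private lemma gau_pos_ (v : Vec d) : 0 < gau v := Real.exp_pos _

/-- the regularized density -/
theorem YS_reg (ha : 0 ≤ a) (ha1 : a ≤ 1) (hm1 : m ≤ 1) (Cl : ℕ → ℝ) {η : ℝ} (hη : 0 < η) :
    ∃ δ₀ > 0, ∀ δ ∈ Ioc (0 : ℝ) δ₀, ∀ g : Vec d → ℝ, UNice Cl g → ∀ A : Set (Vec d × Vec d),
      MeasurableSet A → YS a m (fun v => g v + δ * gau v) A ≤ YS a m g A + η := by
  obtain ⟨cg, hcg⟩ : ∃ c, ∀ v : Vec d, (1 + ‖v‖) ^ (d + 4) * ‖gau v‖ ≤ c := (nice_gau (d := d)).rd (d + 4)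
  set M : ℝ := max (max (Cl (d + 4)) cg) 0 with hM
  have hM0 : 0 ≤ M := le_max_right _ _
  have hMC : Cl (d + 4) ≤ M := (le_max_left _ _).trans (le_max_left _ _)
  have hMg : cg ≤ M := (le_max_right _ _).trans (le_max_left _ _)
  set W : ℝ := 8 * (2 * ((d : ℝ) + 1) ^ 2) ^ 3 with hW
  have hd0 : (0 : ℝ) ≤ d := Nat.cast_nonneg d
  have hW0 : 0 ≤ W := by positivity
  set I : ℝ := (∫ z, wt d z) * ∫ z, wt d z with hI
  have hI1 : 0 ≤ ∫ z, wt d z := integral_nonneg fun z => wt_nonneg z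
  have hI0 : 0 ≤ I := mul_nonneg hI1 hI1
  set K : ℝ := 3 * (M * M) * W with hK
  have hK0 : 0 ≤ K := by positivity
  have hKI : 0 ≤ K * I := mul_nonneg hK0 hI0
  refine ⟨min 1 (η / (K * I + 1)), lt_min one_pos (div_pos hη (by linarith)), fun δ hδ g hg A hA => ?_⟩
  have hδ0 : 0 < δ := hδ.1
  have hδ1 : δ ≤ 1 := hδ.2.trans (min_le_left _ _)
  have hδ2 : δ * (K * I) ≤ η := by
    have h1 : δ ≤ η / (K * I + 1) := hδ.2.trans (min_le_right _ _)
    rw [le_div_iff₀ (by linarith)] at h1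
    have h2 : δ * (K * I) ≤ δ * (K * I + 1) := mul_le_mul_of_nonneg_left (by linarith) hδ0.le
    linarith
  obtain ⟨hGrd, hGc, hGpos, -⟩ := reg_props hg hδ0 hδ1
  have iG := dn_integrable (m := m) ha ha1 hm1 hGrd hGc
  have ig := dn_integrable (m := m) ha ha1 hm1 hg.nice.rd hg.nice.cont
  have iw : Integrable fun p : Vec d × Vec d => wt d p.1 * wt d p.2 :=
    (integrable_wt (d := d)).mul_prod integrable_wt
  have bw : ∀ (h : Vec d → ℝ), (∀ v, 0 ≤ h v) → (∀ v, (1 + ‖v‖) ^ (d + 4) * h v ≤ M) →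
      ∀ v, h v * (1 + ‖v‖) ^ 3 ≤ M * wt d v := by
    intro h _ hb v
    have hw := w_pos v
    unfold wt
    rw [← div_eq_mul_inv, le_div_iff₀ (pow_pos hw _)]
    have := hb v
    calc h v * (1 + ‖v‖) ^ 3 * (1 + ‖v‖) ^ (d + 1) = (1 + ‖v‖) ^ (d + 4) * h v := by ring
      _ ≤ M := this
  have bg := bw g hg.nonneg fun v => by
    have h1 := hg.le (d + 4) v
    have h2 : 0 ≤ (1 + ‖v‖) ^ (d + 4) := pow_nonneg (w_pos v).le _
    have h3 : (1 + ‖v‖) ^ (d + 4) * g v ≤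
        (1 + ‖v‖) ^ (d + 4) * (g v + ‖fderiv ℝ g v‖ + ‖fderiv ℝ (fderiv ℝ g) v‖) :=
      mul_le_mul_of_nonneg_left (by
        have := norm_nonneg (fderiv ℝ g v)
        have := norm_nonneg (fderiv ℝ (fderiv ℝ g) v)
        linarith) h2
    linarith
  have bm := bw gau (fun v => (gau_pos_ v).le) fun v => by
    have h1 := hcg v
    rw [Real.norm_eq_abs, abs_of_pos (gau_pos_ v)] at h1
    linarith
  have key : ∀ p : Vec d × Vec d, dn a m (fun v => g v + δ * gau v) p ≤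
      dn a m g p + δ * K * (wt d p.1 * wt d p.2) := by
    rintro ⟨v, w⟩
    have hR1 := one_le_RR v w
    have hwv := w_pos v
    have hww := w_pos w
    have gv := hg.nonneg v
    have gw := hg.nonneg w
    have mv := (gau_pos_ v).le
    have mw := (gau_pos_ w).le
    have hl0 : 0 ≤ len (v - w) := Real.sqrt_nonneg _
    -- the weight
    have hwt0 : 0 ≤ len (v - w) ^ (1 + a) * jb (v - w) ^ m :=
      mul_nonneg (Real.rpow_nonneg hl0 _) (Real.rpow_nonneg (jb_pos _).le _)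
    have hwt : len (v - w) ^ (1 + a) * jb (v - w) ^ m ≤ W * ((1 + ‖v‖) ^ 3 * (1 + ‖w‖) ^ 3) := by
      have h4 : RR v w ≤ 2 * ((d : ℝ) + 1) ^ 2 * ((1 + ‖v‖) * (1 + ‖w‖)) := by
        have q1 := RR_le v w
        have q2 := jb_le_w v
        have q3 := jb_le_w w
        have q4 := one_le_w v
        have q5 := one_le_w w
        have q6 : 1 + ‖v‖ ≤ (1 + ‖v‖) * (1 + ‖w‖) := le_mul_of_one_le_right hwv.le q5
        have q7 : 1 + ‖w‖ ≤ (1 + ‖v‖) * (1 + ‖w‖) := le_mul_of_one_le_left hww.le q4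
        have q8 : (d : ℝ) + 1 ≤ ((d : ℝ) + 1) ^ 2 := by nlinarith
        have q9 : 0 ≤ (1 + ‖v‖) * (1 + ‖w‖) := by positivity
        have q10 : ((d : ℝ) + 1) * (1 + ‖v‖) ≤ ((d : ℝ) + 1) ^ 2 * ((1 + ‖v‖) * (1 + ‖w‖)) :=
          mul_le_mul q8 q6 hwv.le (by positivity)
        have q11 : ((d : ℝ) + 1) * (1 + ‖w‖) ≤ ((d : ℝ) + 1) ^ 2 * ((1 + ‖v‖) * (1 + ‖w‖)) :=
          mul_le_mul q8 q7 hww.le (by positivity)
        linarith
      have h5 : RR v w ^ 3 ≤ (2 * ((d : ℝ) + 1) ^ 2 * ((1 + ‖v‖) * (1 + ‖w‖))) ^ 3 :=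
        pow_le_pow_left₀ (by linarith) h4 3
      calc len (v - w) ^ (1 + a) * jb (v - w) ^ m ≤ 8 * RR v w ^ 3 := wn_le ha ha1 hm1 v w
        _ ≤ 8 * (2 * ((d : ℝ) + 1) ^ 2 * ((1 + ‖v‖) * (1 + ‖w‖))) ^ 3 := by linarith
        _ = W * ((1 + ‖v‖) ^ 3 * (1 + ‖w‖) ^ 3) := by rw [hW]; ring
    have hS0 : 0 ≤ g v * gau w + gau v * g w + gau v * gau w := by positivity
    have hprod : (g v + δ * gau v) * (g w + δ * gau w) ≤
        g v * g w + δ * (g v * gau w + gau v * g w + gau v * gau w) := by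
      have h1 : δ * δ * (gau v * gau w) ≤ δ * (gau v * gau w) := by
        refine mul_le_mul_of_nonneg_right ?_ (mul_nonneg mv mw)
        nlinarith
      nlinarith
    have hterm : ∀ x y : ℝ, 0 ≤ x → 0 ≤ y → x * (1 + ‖v‖) ^ 3 ≤ M * wt d v →
        y * (1 + ‖w‖) ^ 3 ≤ M * wt d w →
        x * y * ((1 + ‖v‖) ^ 3 * (1 + ‖w‖) ^ 3) ≤ M * M * (wt d v * wt d w) := by
      intro x y hx hy h1 h2
      have h3 : 0 ≤ M * wt d v := mul_nonneg hM0 (wt_nonneg v)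
      have := mul_le_mul h1 h2 (mul_nonneg hy (pow_nonneg hww.le _)) h3
      calc x * y * ((1 + ‖v‖) ^ 3 * (1 + ‖w‖) ^ 3)
          = x * (1 + ‖v‖) ^ 3 * (y * (1 + ‖w‖) ^ 3) := by ring
        _ ≤ M * wt d v * (M * wt d w) := this
        _ = M * M * (wt d v * wt d w) := by ring
    have t1 := hterm (g v) (gau w) gv mw (bg v) (bm w)
    have t2 := hterm (gau v) (g w) mv gw (bm v) (bg w)
    have t3 := hterm (gau v) (gau w) mv mw (bm v) (bm w)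
    have hsum : (g v * gau w + gau v * g w + gau v * gau w) *
        (len (v - w) ^ (1 + a) * jb (v - w) ^ m) ≤ K * (wt d v * wt d w) := by
      have h1 := mul_le_mul_of_nonneg_left hwt hS0
      have h2 : (g v * gau w + gau v * g w + gau v * gau w) *
          ((1 + ‖v‖) ^ 3 * (1 + ‖w‖) ^ 3) ≤ 3 * (M * M * (wt d v * wt d w)) := by linarith
      have h3 := mul_le_mul_of_nonneg_left h2 hW0
      calc (g v * gau w + gau v * g w + gau v * gau w) *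
            (len (v - w) ^ (1 + a) * jb (v - w) ^ m)
          ≤ (g v * gau w + gau v * g w + gau v * gau w) *
            (W * ((1 + ‖v‖) ^ 3 * (1 + ‖w‖) ^ 3)) := h1
        _ = W * ((g v * gau w + gau v * g w + gau v * gau w) *
            ((1 + ‖v‖) ^ 3 * (1 + ‖w‖) ^ 3)) := by ring
        _ ≤ W * (3 * (M * M * (wt d v * wt d w))) := h3
        _ = K * (wt d v * wt d w) := by rw [hK]; ring
    have h1 := mul_le_mul_of_nonneg_right hprod hwt0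
    have h2 := mul_le_mul_of_nonneg_left hsum hδ0.le
    simp only [dn]
    calc (g v + δ * gau v) * (g w + δ * gau w) * (len (v - w) ^ (1 + a) * jb (v - w) ^ m)
        ≤ (g v * g w + δ * (g v * gau w + gau v * g w + gau v * gau w)) *
          (len (v - w) ^ (1 + a) * jb (v - w) ^ m) := h1
      _ = g v * g w * (len (v - w) ^ (1 + a) * jb (v - w) ^ m) +
          δ * ((g v * gau w + gau v * g w + gau v * gau w) *
            (len (v - w) ^ (1 + a) * jb (v - w) ^ m)) := by ring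
      _ ≤ g v * g w * (len (v - w) ^ (1 + a) * jb (v - w) ^ m) + δ * K * (wt d v * wt d w) := by
          linarith
  have hmono : YS a m (fun v => g v + δ * gau v) A ≤
      ∫ p in A, (dn a m g p + δ * K * (wt d p.1 * wt d p.2)) := by
    unfold YS
    exact setIntegral_mono iG.integrableOn (ig.add (iw.const_mul _)).integrableOn key
  have hsplit : ∫ p in A, (dn a m g p + δ * K * (wt d p.1 * wt d p.2)) =
      YS a m g A + δ * K * ∫ p in A, wt d p.1 * wt d p.2 := by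
    unfold YS
    rw [integral_add ig.integrableOn (iw.const_mul _).integrableOn, integral_const_mul]
  have hwI : ∫ p in A, wt d p.1 * wt d p.2 ≤ I := by
    have h1 : ∫ p in A, wt d p.1 * wt d p.2 ≤ ∫ p : Vec d × Vec d, wt d p.1 * wt d p.2 :=
      setIntegral_le_integral iw (Eventually.of_forall fun p => mul_nonneg (wt_nonneg _) (wt_nonneg _))
    refine h1.trans (le_of_eq ?_)
    rw [hI]
    exact integral_prod_mul (wt d) (wt d)
  have h3 : δ * K * ∫ p in A, wt d p.1 * wt d p.2 ≤ δ * K * I :=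
    mul_le_mul_of_nonneg_left hwI (mul_nonneg hδ0.le hK0)
  have h4 : δ * K * I = δ * (K * I) := by ring
  linarith


private lemma entFZ_dens_le {g G : Vec d → ℝ} (hg : ∀ v, 0 ≤ g v) (hgG : ∀ v, g v ≤ G v)
    (p : Vec d × Vec d) : dn a m g p ≤ dn a m G p := by
  unfold dn
  have h1 : 0 ≤ len (p.1 - p.2) ^ (1 + a) * jb (p.1 - p.2) ^ m :=
    mul_nonneg (Real.rpow_nonneg (Real.sqrt_nonneg _) _) (Real.rpow_nonneg (Real.sqrt_nonneg _) _)
  refine mul_le_mul_of_nonneg_right ?_ h1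
  exact mul_le_mul (hgG _) (hgG _) (hg _) ((hg _).trans (hgG _))

private lemma entFZ_XS_le (ha : 0 ≤ a) (ha1 : a ≤ 1) (hm1 : m ≤ 1) {g G : Vec d → ℝ} (hg : ∀ v, 0 ≤ g v)
    (hgr : RD g) (hgc : Continuous g) (hGr : RD G) (hGc : Continuous G)
    (hgG : ∀ v, g v ≤ G v) (A : Set (Vec d × Vec d)) : YS a m g A ≤ YS a m G A :=
  integral_mono (dn_integrable ha ha1 hm1 hgr hgc).integrableOn
    (dn_integrable ha ha1 hm1 hGr hGc).integrableOn fun p => entFZ_dens_le hg hgG p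

private lemma entFZ_meas (ρ : ℝ) : MeasurableSet {p : Vec d × Vec d | RR p.1 p.2 ≤ ρ} := by
  have h : Measurable fun p : Vec d × Vec d => RR p.1 p.2 := by
    unfold RR nsq
    fun_prop
  exact measurableSet_le h measurable_const

theorem ent_fiberM (HL : HypL d (1 + a) s b C Ca cb) (ha : 0 < a) (ha1 : a ≤ 1) (hm0 : 0 < m) (hm1 : m ≤ 1) (e : Fin d) {δ : ℝ}
    (hδ : 0 < δ) (hδ1 : δ < 1) : ∃ ε₁ C₂ : ℝ, 0 < ε₁ ∧ 0 ≤ C₂ ∧
    ∀ Cl : ℕ → ℝ, ∀ η > 0, ∃ δ₀ > 0, ∀ δ' ∈ Ioc (0 : ℝ) δ₀, ∀ g : Vec d → ℝ, UNice Cl g → ∀ ρ₁ : ℝ,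
      YS a m g ((CmpS δ ∩ (NtM e ε₁ (kpa s m))ᶜ) ∩ Gt ρ₁) ≤
        C₂ * YS a m g ((CmpS (δ / 2) ∩ NtM e ε₁ (kpa s m)) ∩ Gt ρ₁) -
          C₂ * (∫ v, boltzQ (1 + a) b g v * Real.log (g v + δ' * gau v)) + η := by

  obtain ⟨ε₁, C₂, hε₁, hC₂, hcut⟩ := ent_cutM HL ha ha1 hm0 hm1 e hδ hδ1
  refine ⟨ε₁, C₂, hε₁, hC₂, fun Cl η hη => ?_⟩
  set η' : ℝ := η / (3 * C₂ + 3) with hη'def
  have hden : 0 < 3 * C₂ + 3 := by linarith
  have hη' : 0 < η' := div_pos hη hden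
  have hη3 : 3 * (C₂ * η') ≤ η := by
    have h1 : η' * (3 * C₂ + 3) = η := div_mul_cancel₀ _ hden.ne'
    linarith
  obtain ⟨δa, hδa, hδah, hdec⟩ := cut_decomp HL.H Cl hη'
  obtain ⟨δb, hδb, hreg⟩ := YS_reg (d := d) ha.le ha1 hm1 Cl hη'
  obtain ⟨δc, hδc, hH⟩ := Pool.Agent.H15.AV.hth_boltz HL.H Cl η' hη'
  refine ⟨min (min δa δb) δc, lt_min (lt_min hδa hδb) hδc, fun δ' hδ' g hg ρ₁ => ?_⟩
  have hd0 : 0 < δ' := hδ'.1
  have hda : δ' ≤ δa := hδ'.2.trans ((min_le_left _ _).trans (min_le_left _ _))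
  have hdb : δ' ≤ δb := hδ'.2.trans ((min_le_left _ _).trans (min_le_right _ _))
  have hdc : δ' ≤ δc := hδ'.2.trans (min_le_right _ _)
  have hd1 : δ' ≤ 1 := by linarith
  obtain ⟨hGr, hGc, hGpos, hGl⟩ := reg_props hg hd0 hd1
  have hgr : RD g := hg.nice.rd
  have hgc : Continuous g := hg.nice.cont
  have hgG : ∀ v, g v ≤ g v + δ' * gau v := fun v => by
    have : 0 ≤ δ' * gau v := mul_nonneg hd0.le (Real.exp_pos _).le
    linarith
  set A : Set (Vec d × Vec d) := (CmpS δ ∩ (NtM e ε₁ (kpa s m))ᶜ) ∩ Gt ρ₁ with hA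
  set B : Set (Vec d × Vec d) := (CmpS (δ / 2) ∩ NtM e ε₁ (kpa s m)) ∩ Gt ρ₁ with hB
  have hGm : MeasurableSet (Gt (d := d) ρ₁) := measurableSet_lt measurable_const RR_cont.measurable
  have hAm : MeasurableSet A := ((measurableSet_CmpS δ).inter (measurableSet_NtM e ε₁ _).compl).inter hGm
  have hBm : MeasurableSet B := ((measurableSet_CmpS (δ / 2)).inter (measurableSet_NtM e ε₁ _)).inter hGm
  set J : ℝ := ∫ v, boltzQ (1 + a) b g v * Real.log (g v + δ' * gau v) with hJ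
  have hJη : J ≤ η' := hH δ' ⟨hd0, hdc⟩ g hg
  have hδJ : δ' * J ≤ η' := by
    rcases le_total J 0 with h | h
    · exact (mul_nonpos_of_nonneg_of_nonpos hd0.le h).trans hη'.le
    · exact (mul_le_of_le_one_left h hd1).trans hJη
  have hBreg := hreg δ' ⟨hd0, hdb⟩ g hg B hBm
  have hρ : ∀ ρ : ℝ, YS a m g (A ∩ {p | RR p.1 p.2 ≤ ρ}) ≤ C₂ * YS a m g B - C₂ * J + η := by
    intro ρ
    obtain ⟨ε₀, hε₀, hε⟩ := hcut _ hGr hGc hGpos hGl ρ
    have hlim := boltz_weak_tendsto HL.H hg.nice hGl hGc.measurable.log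
    have hlim2 : Tendsto (fun ε => C₂ * (YS a m g B + η') +
        C₂ * (-((1 - δ') * ∫ v, boltzCut (1 + a) b ε g v * Real.log (g v + δ' * gau v)) + η'))
        (𝓝[>] 0) (𝓝 (C₂ * (YS a m g B + η') + C₂ * (-((1 - δ') * J) + η'))) :=
      (((hlim.const_mul (1 - δ')).neg.add_const η').const_mul C₂).const_add _
    have hev : ∀ᶠ ε in 𝓝[>] (0 : ℝ), YS a m g (A ∩ {p | RR p.1 p.2 ≤ ρ}) ≤ C₂ * (YS a m g B + η') +
        C₂ * (-((1 - δ') * ∫ v, boltzCut (1 + a) b ε g v * Real.log (g v + δ' * gau v)) + η') := by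
      filter_upwards [Ioc_mem_nhdsGT hε₀] with ε hεm
      have h1 := hε ε hεm.1 hεm.2 ρ₁
      have h2 := hdec δ' ⟨hd0, hda⟩ g hg ε hεm.1
      have h3 := entFZ_XS_le ha.le ha1 hm1 hg.nonneg hgr hgc hGr hGc hgG (A ∩ {p | RR p.1 p.2 ≤ ρ})
      have h4 := mul_le_mul_of_nonneg_left h2 hC₂
      have h5 := mul_le_mul_of_nonneg_left hBreg hC₂
      linarith
    have h6 := ge_of_tendsto hlim2 hev
    have h7 := mul_le_mul_of_nonneg_left hδJ hC₂
    have h8 : C₂ * (YS a m g B + η') + C₂ * (-((1 - δ') * J) + η') =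
        C₂ * YS a m g B - C₂ * J + C₂ * (δ' * J) + 2 * (C₂ * η') := by ring
    rw [h8] at h6
    linarith
  have hmono : Monotone fun n : ℕ => A ∩ {p : Vec d × Vec d | RR p.1 p.2 ≤ (n : ℝ)} := by
    intro k n hmn
    refine inter_subset_inter_right _ fun p hp => ?_
    have : (k : ℝ) ≤ n := Nat.cast_le.2 hmn
    exact le_trans hp this
  have hU : (⋃ n : ℕ, A ∩ {p : Vec d × Vec d | RR p.1 p.2 ≤ (n : ℝ)}) = A := by
    rw [← inter_iUnion]
    refine inter_eq_left.2 fun p _ => ?_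
    obtain ⟨n, hn⟩ := exists_nat_ge (RR p.1 p.2)
    exact mem_iUnion.2 ⟨n, hn⟩
  have hlim := tendsto_setIntegral_of_monotone (μ := volume) (f := dn a m g)
    (s := fun n : ℕ => A ∩ {p : Vec d × Vec d | RR p.1 p.2 ≤ (n : ℝ)})
    (fun n => hAm.inter (entFZ_meas _)) hmono
    (dn_integrable ha.le ha1 hm1 hgr hgc).integrableOn
  rw [hU] at hlim
  exact le_of_tendsto' hlim fun n => hρ n



theorem ent_fiberMW (HL : HypL d (1 + a) s b C Ca cb) (ha : 0 < a) (ha1 : a ≤ 1) (hm0 : 0 < m) (hm1 : m ≤ 1) (e : Fin d) {δ : ℝ}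
    (hδ : 0 < δ) (hδ1 : δ < 1) : ∃ ε₁ C₂ : ℝ, 0 < ε₁ ∧ 0 ≤ C₂ ∧
    ∀ Cl : ℕ → ℝ, ∀ η > 0, ∃ δ₀ > 0, ∀ δ' ∈ Ioc (0 : ℝ) δ₀, ∀ g : Vec d → ℝ, UNice Cl g →
      ∀ V : ℝ, 1 ≤ V → YW a m V g (CmpS δ ∩ (NtM e ε₁ (kpa s m))ᶜ) ≤
        C₂ * YW a m V g (CmpS (δ / 2) ∩ NtM e ε₁ (kpa s m)) -
          C₂ * (∫ v, boltzQ (1 + a) b g v * Real.log (g v + δ' * gau v)) + η := by
  obtain ⟨ε₁, C₂, hε₁, hC₂, h⟩ := ent_fiberM HL ha ha1 hm0 hm1 e hδ hδ1
  refine ⟨ε₁, C₂, hε₁, hC₂, fun Cl η hη => ?_⟩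
  obtain ⟨δ₀, hδ₀, h3⟩ := h Cl η hη
  refine ⟨δ₀, hδ₀, fun δ' hδ' g hg V hV => ?_⟩
  have h4 := h3 δ' hδ' g hg
  have h5 := YW_of_Gt (A := CmpS δ ∩ (NtM e ε₁ (kpa s m))ᶜ)
    (B := CmpS (δ / 2) ∩ NtM e ε₁ (kpa s m)) (C₂ := C₂)
    (κ := -(C₂ * (∫ v, boltzQ (1 + a) b g v * Real.log (g v + δ' * gau v))) + η)
    ha.le ha1 hm1 hV hg.nice.rd hg.nice.cont hg.nonneg
    ((measurableSet_CmpS δ).inter (measurableSet_NtM e ε₁ _).compl)
    ((measurableSet_CmpS (δ / 2)).inter (measurableSet_NtM e ε₁ _))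
    (fun ρ => by
      have := h4 ρ
      linarith)
  linarith



end Pool.Agent.H71.PX
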