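import Pool.Agent.H71.PX.YC
import Pool.Agent.H48.PL.WkI
import Pool.Agent.H48.PL.Ang

/-!
# Module HwM: the collision operator tested with a function which is Hölder of order `m > 2s`, with the weight `om`

Copy of `hwV_bound` (H25/PT/HwV.lean, 247 lines; the weights `max(..)^(a-α)` disappear, `α := m`, `ω := om m V`). For a collision `|ψ(post) - ψ(v)| ≤ A om(max(jb post, jb v)) len(post - v)^m ≤ A om(RR) |U|^m ((1-cosTh)/2)^(m/2)`
(`om_mono`, `jb_post_le`, `jb_le_RR_left`, `nsq_post_sub`), the same for `w`; both increments, two times: `|ainc (1+a) b ε ψ v w| ≤ K A len(v-w)^(1+a) len(v-w)^m om(RR)` (`ker_small`, `τ = m/2 > s`, `u = 2`), `len^m ≤ jb^m`.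
Then `weak_le_of`, `weak_ge_of` (PL/WkI) with `L = ± K A len^(1+a) jb^m om(RR)`, `∫ g g L = ± K A YW a m V g univ` (`YW_integrable`, `setIntegral_univ`). `ψ` is continuous and `PG` because `om ≤ 1` (as `psi_cont`, `psi_PG` in PT/HwV).
-/

set_option autoImplicit false

open MeasureTheory Set Filter Topology Pool.Agent.H25.Kin Pool.Agent.H82.BK Pool.Agent.H82.CM
open Pool.Agent.H48.PL Pool.Agent.H48.PI Pool.Agent.H25.PT

namespace Pool.Agent.H71.PX

variable {d : ℕ} {s a m C Ca cb : ℝ} {b : ℝ → ℝ}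

private lemma hwm_len0 : len (0 : Vec d) = 0 := by
  have h : nsq (0 : Vec d) = 0 := by unfold nsq; simp
  unfold len
  rw [h, Real.sqrt_zero]

private lemma hwm_cont {ψ : Vec d → ℝ} {A : ℝ} (hm : 0 < m)
    (h : ∀ w w' : Vec d, |ψ w - ψ w'| ≤ A * len (w - w') ^ m) : Continuous ψ := by
  rw [continuous_iff_continuousAt]
  intro w
  rw [ContinuousAt, tendsto_iff_dist_tendsto_zero]
  have hc : Continuous fun w' : Vec d => A * len (w' - w) ^ m := by
    refine continuous_const.mul ?_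
    exact (continuous_len.comp (continuous_id.sub continuous_const)).rpow_const
      fun w' => Or.inr hm.le
  have h0 : Tendsto (fun w' : Vec d => A * len (w' - w) ^ m) (𝓝 w) (𝓝 0) := by
    have h1 := hc.tendsto w
    rwa [sub_self, hwm_len0, Real.zero_rpow hm.ne', mul_zero] at h1
  refine squeeze_zero (fun _ => dist_nonneg) (fun w' => ?_) h0
  rw [Real.dist_eq]
  exact h w' w

private lemma hwm_PG {ψ : Vec d → ℝ} {A : ℝ} (hA : 0 ≤ A) (hm : 0 < m) (hm1 : m ≤ 1)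
    (h : ∀ w w' : Vec d, |ψ w - ψ w'| ≤ A * len (w - w') ^ m) : PG ψ := by
  refine ⟨1, (|ψ 0| + A) * ((d : ℝ) + 1), fun v => ?_⟩
  have h4 := h v 0
  rw [sub_zero] at h4
  have h5 : len v ^ m ≤ jb v := by
    calc len v ^ m ≤ jb v ^ m := Real.rpow_le_rpow (len_nonneg v) (len_le_jb v) hm.le
      _ ≤ jb v ^ (1 : ℝ) := Real.rpow_le_rpow_of_exponent_le (one_le_jb v) hm1
      _ = jb v := Real.rpow_one _
  have h6 : |ψ v| ≤ |ψ 0| + A * jb v := by
    have h7 : |ψ v| ≤ |ψ v - ψ 0| + |ψ 0| := by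
      have := abs_add_le (ψ v - ψ 0) (ψ 0)
      rwa [sub_add_cancel] at this
    have h8 := mul_le_mul_of_nonneg_left h5 hA
    linarith
  have h9 := one_le_jb v
  have h10 := jb_le_w v
  rw [Real.norm_eq_abs, pow_one]
  calc |ψ v| ≤ |ψ 0| + A * jb v := h6
    _ ≤ (|ψ 0| + A) * jb v := by nlinarith [abs_nonneg (ψ 0)]
    _ ≤ (|ψ 0| + A) * (((d : ℝ) + 1) * (1 + ‖v‖)) :=
      mul_le_mul_of_nonneg_left h10 (add_nonneg (abs_nonneg _) hA)
    _ = _ := by ring

private lemma hwm_nsq {x y : Vec d} {t : ℝ} (ht : 0 ≤ t) (h : nsq x = nsq y * (t / 2)) :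
    len x ^ m = len y ^ m * (t / 2) ^ (m / 2) := by
  have h1 : len x = len y * (t / 2) ^ (1 / 2 : ℝ) := by
    unfold len
    rw [h, Real.sqrt_mul (sq_nonneg' y), Real.sqrt_eq_rpow (t / 2)]
  rw [h1, Real.mul_rpow (len_nonneg y) (Real.rpow_nonneg (by linarith) _),
    ← Real.rpow_mul (by linarith)]
  congr 2
  ring

private lemma hwm_inc {V : ℝ} (hV : 1 ≤ V) (hm1 : m ≤ 1)
    {ψ : Vec d → ℝ} {A : ℝ} (hA : 0 ≤ A) (hm : 0 < m)
    (h : ∀ w w' : Vec d, |ψ w - ψ w'| ≤ A * (om m V (max (jb w) (jb w')) * len (w - w') ^ m))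
    {v w x y : Vec d} {t : ℝ} (ht : 0 ≤ t) (hx : jb x ≤ RR v w) (hy : jb y ≤ RR v w)
    (hn : nsq (x - y) = nsq (v - w) * (t / 2)) :
    |ψ x - ψ y| ≤ A * (om m V (RR v w) * (len (v - w) ^ m * t ^ (m / 2))) := by
  refine (h x y).trans (mul_le_mul_of_nonneg_left ?_ hA)
  have hmx : 0 ≤ max (jb x) (jb y) := le_max_of_le_left (jb_pos x).le
  have h6 : om m V (max (jb x) (jb y)) ≤ om m V (RR v w) :=
    om_mono hm1 (by linarith) hmx (max_le hx hy)
  refine mul_le_mul h6 ?_ (Real.rpow_nonneg (len_nonneg _) _)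
    (om_nonneg (by linarith) (RR_pos v w).le)
  rw [hwm_nsq ht hn]
  refine mul_le_mul_of_nonneg_left ?_ (Real.rpow_nonneg (len_nonneg _) _)
  exact Real.rpow_le_rpow (by linarith) (by linarith) (by linarith)

private lemma hwm_ainc (H : Hyp d (1 + a) s b C Ca) (h1 : 2 * s < m) (hm1 : m ≤ 1) :
    ∃ K : ℝ, 0 ≤ K ∧ ∀ V : ℝ, 1 ≤ V → ∀ (ψ : Vec d → ℝ) (A : ℝ), 0 ≤ A →
      (∀ w w' : Vec d, |ψ w - ψ w'| ≤ A * (om m V (max (jb w) (jb w')) * len (w - w') ^ m)) →
      ∀ ε : ℝ, 0 < ε → ∀ v w : Vec d, v ≠ w →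
        |ainc (1 + a) b ε ψ v w| ≤
          K * A * (len (v - w) ^ (1 + a) * jb (v - w) ^ m) * om m V (RR v w) := by
  have hs := H.hs
  have hm : 0 < m := by linarith
  obtain ⟨A1, hA1, hk⟩ := ker_small H (τ := m / 2) (by linarith) (by linarith)
  refine ⟨2 * (A1 * 2 ^ (m / 2 - s)), by positivity, fun V hV ψ A hA h ε hε v w hvw => ?_⟩
  obtain ⟨hi, hb⟩ := hk ε hε v w hvw 2 two_pos
  have hS : (surf d).restrict {σ : Vec d | 1 - cosTh v w σ ≤ 2} = surf d := by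
    refine Measure.restrict_eq_self_of_ae_mem ?_
    filter_upwards [surf_ae] with σ hσ
    have h4 := (abs_le.1 (abs_cosTh_le (v := v) (w := w) hσ)).1
    show 1 - cosTh v w σ ≤ 2
    linarith
  unfold IntegrableOn at hi
  rw [hS] at hi hb
  set M : ℝ := 2 * A * (om m V (RR v w) * len (v - w) ^ m) with hM
  have hR0 := RR_pos v w
  have hw0 : 0 ≤ om m V (RR v w) := om_nonneg (by linarith) hR0.le
  have hl0 := len_nonneg (v - w)
  have hla : 0 ≤ len (v - w) ^ m := Real.rpow_nonneg hl0 _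
  have hlg : 0 ≤ len (v - w) ^ (1 + a) := Real.rpow_nonneg hl0 _
  have hM0 : 0 ≤ M := by positivity
  have hle : ‖ainc (1 + a) b ε ψ v w‖ ≤
      ∫ σ, M * (kerB (1 + a) b ε v w σ * (1 - cosTh v w σ) ^ (m / 2)) ∂(surf d) := by
    unfold ainc
    refine norm_integral_le_of_norm_le (hi.const_mul M) ?_
    filter_upwards [surf_ae] with σ hσ
    have hk0 := kerB_nonneg (γ := 1 + a) H.bd hε (v := v) (w := w) hσ
    have hy := one_sub_cosTh_nonneg (v := v) (w := w) hσ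
    have e1 := hwm_inc hV hm1 hA hm h hy (jb_post_le (v := v) (w := w) hσ) (jb_le_RR_left v w)
      (nsq_post_sub hvw hσ)
    have e2 := hwm_inc hV hm1 hA hm h hy (jb_post'_le (v := v) (w := w) hσ) (jb_le_RR_right v w)
      (nsq_post'_sub hvw hσ)
    rw [norm_mul, Real.norm_eq_abs, Real.norm_eq_abs, abs_of_nonneg hk0]
    have e3 : |ψ (post v w σ) + ψ (post' v w σ) - ψ v - ψ w| ≤
        M * (1 - cosTh v w σ) ^ (m / 2) := by
      calc |ψ (post v w σ) + ψ (post' v w σ) - ψ v - ψ w|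
          = |(ψ (post v w σ) - ψ v) + (ψ (post' v w σ) - ψ w)| := by congr 1; ring
        _ ≤ |ψ (post v w σ) - ψ v| + |ψ (post' v w σ) - ψ w| := abs_add_le _ _
        _ ≤ A * (om m V (RR v w) * (len (v - w) ^ m * (1 - cosTh v w σ) ^ (m / 2))) +
            A * (om m V (RR v w) * (len (v - w) ^ m * (1 - cosTh v w σ) ^ (m / 2))) :=
            add_le_add e1 e2
        _ = _ := by rw [hM]; ring
    calc kerB (1 + a) b ε v w σ * |ψ (post v w σ) + ψ (post' v w σ) - ψ v - ψ w|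
        ≤ kerB (1 + a) b ε v w σ * (M * (1 - cosTh v w σ) ^ (m / 2)) :=
          mul_le_mul_of_nonneg_left e3 hk0
      _ = _ := by ring
  rw [integral_const_mul, Real.norm_eq_abs] at hle
  have hlR : len (v - w) ^ m ≤ jb (v - w) ^ m := Real.rpow_le_rpow hl0 (len_le_jb _) hm.le
  have hM1 : M ≤ 2 * A * jb (v - w) ^ m * om m V (RR v w) := by
    calc M = 2 * A * (om m V (RR v w) * len (v - w) ^ m) := hM
      _ ≤ 2 * A * (om m V (RR v w) * jb (v - w) ^ m) := by gcongr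
      _ = _ := by ring
  have h2p : (0 : ℝ) ≤ 2 ^ (m / 2 - s) := by positivity
  calc |ainc (1 + a) b ε ψ v w|
      ≤ M * ∫ σ, kerB (1 + a) b ε v w σ * (1 - cosTh v w σ) ^ (m / 2) ∂(surf d) := hle
    _ ≤ M * (A1 * len (v - w) ^ (1 + a) * 2 ^ (m / 2 - s)) := mul_le_mul_of_nonneg_left hb hM0
    _ ≤ (2 * A * jb (v - w) ^ m * om m V (RR v w)) *
        (A1 * len (v - w) ^ (1 + a) * 2 ^ (m / 2 - s)) :=
      mul_le_mul_of_nonneg_right hM1 (by positivity)
    _ = _ := by ring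

theorem hwM (HL : HypL d (1 + a) s b C Ca cb) (ha : 0 ≤ a) (ha1 : a ≤ 1) (h1 : 2 * s < m) (hm1 : m ≤ 1) :
    ∃ K : ℝ, 0 ≤ K ∧ ∀ V : ℝ, 1 ≤ V → ∀ (ψ : Vec d → ℝ) (A : ℝ), 0 ≤ A →
      (∀ w w' : Vec d, |ψ w - ψ w'| ≤ A * (om m V (max (jb w) (jb w')) * len (w - w') ^ m)) →
      ∀ g : Vec d → ℝ, Nice g → (∀ v, 0 ≤ g v) →
        |∫ w, boltzQ (1 + a) b g w * ψ w| ≤ K * (A * YW a m V g univ) := by
  have hs := HL.H.hs
  have hm : 0 < m := by linarith
  obtain ⟨K, hK, hk⟩ := hwm_ainc HL.H h1 hm1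
  refine ⟨K / 2, by positivity, fun V hV ψ A hA h g hg hg0 => ?_⟩
  have h' : ∀ w w' : Vec d, |ψ w - ψ w'| ≤ A * len (w - w') ^ m := by
    intro w w'
    refine (h w w').trans (mul_le_mul_of_nonneg_left ?_ hA)
    refine mul_le_of_le_one_left (Real.rpow_nonneg (len_nonneg _) _) ?_
    exact om_le_one hm1 (by linarith) (le_max_of_le_left (jb_pos w).le)
  have hc := hwm_cont hm h'
  have hPG := hwm_PG hA hm hm1 h'
  have hd := YW_integrable (V := V) ha ha1 hm1 hV hg.rd hg.smooth.continuous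
  have e0 : ∀ c : ℝ, (fun p : Vec d × Vec d => g p.1 * g p.2 *
      (c * (len (p.1 - p.2) ^ (1 + a) * jb (p.1 - p.2) ^ m) * om m V (RR p.1 p.2))) =
      fun p => c * (dn a m g p * om m V (RR p.1 p.2)) := by
    intro c
    funext p
    unfold dn
    ring
  have hLi : ∀ c : ℝ, Integrable (fun p : Vec d × Vec d => g p.1 * g p.2 *
      (c * (len (p.1 - p.2) ^ (1 + a) * jb (p.1 - p.2) ^ m) * om m V (RR p.1 p.2))) := by
    intro c
    rw [e0]
    exact hd.const_mul c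
  have hLe : ∀ c : ℝ, ∫ p : Vec d × Vec d, g p.1 * g p.2 *
      (c * (len (p.1 - p.2) ^ (1 + a) * jb (p.1 - p.2) ^ m) * om m V (RR p.1 p.2)) =
      c * YW a m V g univ := by
    intro c
    rw [e0, integral_const_mul]
    unfold YW
    rw [Measure.restrict_univ]
  have u1 := weak_le_of HL.H hg hg0 hPG hc.measurable
    (L := fun p => K * A * (len (p.1 - p.2) ^ (1 + a) * jb (p.1 - p.2) ^ m) * om m V (RR p.1 p.2))
    (hLi (K * A)) one_pos
    (fun ε hε _ v w hvw => (abs_le.1 (hk V hV ψ A hA h ε hε v w hvw)).2)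
  have u2 := weak_ge_of HL.H hg hg0 hPG hc.measurable
    (L := fun p => (-(K * A)) * (len (p.1 - p.2) ^ (1 + a) * jb (p.1 - p.2) ^ m) *
      om m V (RR p.1 p.2))
    (hLi (-(K * A)))
    one_pos (fun ε hε _ v w hvw => by
      have := (abs_le.1 (hk V hV ψ A hA h ε hε v w hvw)).1
      show (-(K * A)) * (len (v - w) ^ (1 + a) * jb (v - w) ^ m) * om m V (RR v w) ≤ _
      linarith)
  rw [hLe (K * A)] at u1
  rw [hLe (-(K * A))] at u2
  rw [abs_le]
  constructor <;> linarith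

end Pool.Agent.H71.PX
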