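import Pool.Agent.H71.PX.Defs
import Pool.Agent.H25.PT.OmB

/-!
# Module SmA: the scalar factor `Sm m V j k = (min(j,k)/max(j,k))² om(min(j,k))`

`om = om m V` (`om_nonneg`, `om_le_one`, `om_mono`, `om_lip`, `om_scale` of H25/PT/OmB with `a := m`), `0 ≤ m ≤ 1`, `V ≥ 1`, `j, k ≥ 1`.
* `Sm_le`: `min/max ≤ 1`. `Sm_pow`: `k ≤ j`: `(k/j)² j^p ≤ j^p`; `k ≥ j`: `(j/k)² k^p = j^p (j/k)^(2-p) ≤ j^p` (`0 ≤ p ≤ 2`).
* `Sm_lip`: by symmetry (the right side and the left side are symmetric in `k, k'`) let `y = k' ≤ x = k`.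
  `x ≤ j`: `Sm = x² om(x)/j²`, and `x² om(x) - y² om(y) = x² (om(x)-om(y)) + (x²-y²) om(y) ≤ 4 x om(x) (x-y) + 2x (x-y) om(x)` (`om_lip`), so `0 ≤ ΔSm ≤ 6 om(x) x (x-y)/j² ≤ 6 om(x) (x-y)/j`.
  `y ≥ j`: `|ΔSm| = om(j) j² (1/y² - 1/x²) = om(j) j² (x-y)(x+y)/(x² y²) ≤ 2 om(j) j² (x-y)/(x y²) ≤ 2 om(j) (x-y)/j`.
  `y < j < x`: through `Sm j j`: `≤ 6 om(j) (j-y)/j + 2 om(j) (x-j)/j`.
* `Sm_lip2`: `j ≤ k' ≤ k ≤ 2k'`: `om(j) j² (k-k')(k+k')/(k² k'²) ≤ 2 om(j) j² (k-k')/(k k'²) ≤ 8 om(j) j² (k-k')/k³`.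
* `Sm_low`: `min ≥ c R`, `max ≤ R`, `0 < c ≤ 1`: `(min/max)² ≥ c²`, `om(min) ≥ om(cR) ≥ c⁴ om(R)` (`om_mono`, `om_scale`).
-/

set_option autoImplicit false

open MeasureTheory Set Filter Topology Pool.Agent.H25.Kin Pool.Agent.H48.PL Pool.Agent.H48.PI
open Pool.Agent.H25.PT

namespace Pool.Agent.H71.PX

variable {m V j k k' : ℝ}

private lemma sma_lo (hj : 0 < j) (h : k ≤ j) : Sm m V j k = (k / j) ^ 2 * om m V k := by
  unfold Sm
  rw [min_eq_right h, max_eq_left h]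

private lemma sma_hi (h : j ≤ k) : Sm m V j k = (j / k) ^ 2 * om m V j := by
  unfold Sm
  rw [min_eq_left h, max_eq_right h]

/-- both arguments below `j` -/
private lemma sma_c1 (hm : 0 ≤ m) (hm1 : m ≤ 1) (hV : 1 ≤ V) (hj : 1 ≤ j) {x y : ℝ} (hy : 1 ≤ y) (hyx : y ≤ x)
    (hx : x ≤ j) : |Sm m V j x - Sm m V j y| ≤ 6 * (om m V x * ((x - y) / j)) := by
  have hV0 : 0 < V := by linarith
  have hj0 : 0 < j := by linarith
  have hy0 : 0 < y := by linarith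
  have hx0 : 0 < x := by linarith
  have o1 := Pool.Agent.H25.PT.om_lip hm hm1 hV0 hy0 hyx
  have o2 : 0 ≤ om m V x := Pool.Agent.H25.PT.om_nonneg hV0 hx0.le
  have o3 : 0 ≤ om m V y := Pool.Agent.H25.PT.om_nonneg hV0 hy0.le
  have o4 : om m V y ≤ om m V x := Pool.Agent.H25.PT.om_mono hm1 hV0 hy0.le hyx
  rw [sma_lo hj0 hx, sma_lo hj0 (hyx.trans hx)]
  have e1 : (x / j) ^ 2 * om m V x - (y / j) ^ 2 * om m V y = (x ^ 2 * om m V x - y ^ 2 * om m V y) / j ^ 2 := by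
    rw [div_pow, div_pow]
    ring
  have e2 : 0 ≤ x ^ 2 * om m V x - y ^ 2 * om m V y := by
    have h1 : y ^ 2 * om m V y ≤ x ^ 2 * om m V x :=
      mul_le_mul (pow_le_pow_left₀ hy0.le hyx 2) o4 o3 (sq_nonneg x)
    linarith
  have e3 : x ^ 2 * om m V x - y ^ 2 * om m V y ≤ 6 * (om m V x * (x * (x - y))) := by
    have h1 : x ^ 2 * (om m V x - om m V y) ≤ x ^ 2 * (4 * (om m V x * ((x - y) / x))) :=
      mul_le_mul_of_nonneg_left o1 (sq_nonneg x)
    have h2 : x ^ 2 * (4 * (om m V x * ((x - y) / x))) = 4 * (om m V x * (x * (x - y))) := by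
      field_simp
    have h3 : (x ^ 2 - y ^ 2) * om m V y ≤ (2 * x * (x - y)) * om m V x := by
      refine mul_le_mul ?_ o4 o3 ?_
      · nlinarith
      · have : 0 ≤ x - y := by linarith
        positivity
    nlinarith
  rw [e1, abs_of_nonneg (div_nonneg e2 (sq_nonneg j)), div_le_iff₀ (by positivity)]
  have e4 : 6 * (om m V x * ((x - y) / j)) * j ^ 2 = 6 * (om m V x * (j * (x - y))) := by
    field_simp
  rw [e4]
  have e5 : x * (x - y) ≤ j * (x - y) := mul_le_mul_of_nonneg_right hx (by linarith)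
  have e6 := mul_le_mul_of_nonneg_left e5 o2
  linarith

/-- both arguments above `j` -/
private lemma sma_c2 (hV : 1 ≤ V) (hj : 1 ≤ j) {x y : ℝ} (hjy : j ≤ y) (hyx : y ≤ x) :
    |Sm m V j x - Sm m V j y| ≤ 2 * (om m V j * ((x - y) / j)) := by
  have hV0 : 0 < V := by linarith
  have hj0 : 0 < j := by linarith
  have hy0 : 0 < y := by linarith
  have hx0 : 0 < x := by linarith
  have o2 : 0 ≤ om m V j := Pool.Agent.H25.PT.om_nonneg hV0 hj0.le
  rw [sma_hi (hjy.trans hyx), sma_hi hjy, ← sub_mul, abs_mul, abs_of_nonneg o2]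
  have u1 : j / y ≤ 1 := (div_le_one hy0).2 hjy
  have w1 : j / x ≤ 1 := (div_le_one hx0).2 (hjy.trans hyx)
  have u0 : 0 ≤ j / y := by positivity
  have w0 : 0 ≤ j / x := by positivity
  have uw : j / x ≤ j / y := div_le_div_of_nonneg_left hj0.le hy0 hyx
  have d1 : j / y - j / x ≤ (x - y) / j := by
    have h1 : j / y - j / x = j * (x - y) / (x * y) := by
      field_simp
    rw [h1, div_le_div_iff₀ (by positivity) hj0]
    have h2 : j * j ≤ x * y := mul_le_mul (hjy.trans hyx) hjy hj0.le hx0.le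
    have h3 : 0 ≤ x - y := by linarith
    nlinarith [mul_le_mul_of_nonneg_left h2 h3]
  have d2 : |(j / x) ^ 2 - (j / y) ^ 2| ≤ 2 * ((x - y) / j) := by
    rw [abs_sub_comm, abs_of_nonneg (by nlinarith)]
    nlinarith
  calc |(j / x) ^ 2 - (j / y) ^ 2| * om m V j ≤ 2 * ((x - y) / j) * om m V j :=
        mul_le_mul_of_nonneg_right d2 o2
    _ = 2 * (om m V j * ((x - y) / j)) := by ring

private lemma sma_lip (hm : 0 ≤ m) (hm1 : m ≤ 1) (hV : 1 ≤ V) (hj : 1 ≤ j) {x y : ℝ} (hy : 1 ≤ y) (hyx : y ≤ x) :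
    |Sm m V j x - Sm m V j y| ≤ 6 * (om m V (min j x) * ((x - y) / j)) := by
  have hV0 : 0 < V := by linarith
  have hj0 : 0 < j := by linarith
  have o2 : 0 ≤ om m V j := Pool.Agent.H25.PT.om_nonneg hV0 hj0.le
  rcases le_total x j with h1 | h1
  · rw [min_eq_right h1]
    exact sma_c1 hm hm1 hV hj hy hyx h1
  · rw [min_eq_left h1]
    rcases le_total j y with h2 | h2
    · have h3 := sma_c2 (m := m) hV hj h2 hyx
      have h4 : 0 ≤ om m V j * ((x - y) / j) := mul_nonneg o2 (div_nonneg (by linarith) hj0.le)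
      linarith
    · have h3 := sma_c2 (m := m) hV hj le_rfl h1
      have h4 := sma_c1 hm hm1 hV hj hy h2 le_rfl
      have h5 : |Sm m V j x - Sm m V j y| ≤ |Sm m V j x - Sm m V j j| + |Sm m V j j - Sm m V j y| :=
        abs_sub_le _ _ _
      have h6 : 0 ≤ om m V j * ((x - j) / j) := mul_nonneg o2 (div_nonneg (by linarith) hj0.le)
      have h7 : om m V j * ((x - y) / j) = om m V j * ((x - j) / j) + om m V j * ((j - y) / j) := by ring
      rw [h7]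
      linarith

lemma Sm_comm : Sm m V j k = Sm m V k j := by
  unfold Sm
  rw [min_comm, max_comm]

lemma Sm_nonneg (hV : 1 ≤ V) (hj : 1 ≤ j) (hk : 1 ≤ k) : 0 ≤ Sm m V j k := by
  unfold Sm
  exact mul_nonneg (sq_nonneg _) (Pool.Agent.H25.PT.om_nonneg (by linarith) (le_min (by linarith) (by linarith)))

lemma Sm_le (hV : 1 ≤ V) (hj : 1 ≤ j) (hk : 1 ≤ k) : Sm m V j k ≤ om m V (min j k) := by
  unfold Sm
  have h0 : 0 ≤ om m V (min j k) :=
    Pool.Agent.H25.PT.om_nonneg (by linarith) (le_min (by linarith) (by linarith))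
  have h1 : 0 ≤ min j k := le_min (by linarith) (by linarith)
  have h2 : 0 < max j k := lt_of_lt_of_le (by linarith) (le_max_left j k)
  have h3 : min j k / max j k ≤ 1 := (div_le_one h2).2 min_le_max
  exact mul_le_of_le_one_left h0 (pow_le_one₀ (div_nonneg h1 h2.le) h3)

lemma Sm_pow (hV : 1 ≤ V) (hj : 1 ≤ j) (hk : 1 ≤ k) {p : ℝ} (hp : 0 ≤ p) (hp2 : p ≤ 2) :
    Sm m V j k * max j k ^ p ≤ om m V (min j k) * j ^ p := by
  have hj0 : 0 < j := by linarith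
  have hk0 : 0 < k := by linarith
  rcases le_total k j with h | h
  · rw [max_eq_left h]
    exact mul_le_mul_of_nonneg_right (Sm_le hV hj hk) (Real.rpow_nonneg hj0.le _)
  · rw [sma_hi h, max_eq_right h, min_eq_left h]
    have h0 : 0 ≤ om m V j := Pool.Agent.H25.PT.om_nonneg (by linarith) hj0.le
    have hr0 : 0 < j / k := div_pos hj0 hk0
    have hr1 : j / k ≤ 1 := (div_le_one hk0).2 h
    have h1 : (j / k) ^ 2 ≤ (j / k) ^ p := by
      rw [← Real.rpow_two]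
      exact Real.rpow_le_rpow_of_exponent_ge hr0 hr1 hp2
    have h2 : (j / k) ^ p * k ^ p = j ^ p := by
      rw [← Real.mul_rpow hr0.le hk0.le, div_mul_cancel₀ _ hk0.ne']
    calc (j / k) ^ 2 * om m V j * k ^ p = om m V j * ((j / k) ^ 2 * k ^ p) := by ring
      _ ≤ om m V j * ((j / k) ^ p * k ^ p) :=
          mul_le_mul_of_nonneg_left (mul_le_mul_of_nonneg_right h1 (Real.rpow_nonneg hk0.le _)) h0
      _ = om m V j * j ^ p := by rw [h2]

lemma Sm_lip (hm : 0 ≤ m) (hm1 : m ≤ 1) (hV : 1 ≤ V) (hj : 1 ≤ j) (hk : 1 ≤ k) (hk' : 1 ≤ k') :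
    |Sm m V j k - Sm m V j k'| ≤ 6 * (om m V (min j (max k k')) * (|k - k'| / j)) := by
  rcases le_total k' k with h | h
  · rw [max_eq_left h, abs_of_nonneg (show (0 : ℝ) ≤ k - k' by linarith)]
    exact sma_lip hm hm1 hV hj hk' h
  · rw [max_eq_right h, abs_sub_comm, abs_sub_comm k k', abs_of_nonneg (show (0 : ℝ) ≤ k' - k by linarith)]
    exact sma_lip hm hm1 hV hj hk h

lemma Sm_lip2 (hm : 0 ≤ m) (hm1 : m ≤ 1) (hV : 1 ≤ V) (hj : 1 ≤ j) (h1 : j ≤ k') (h2 : k' ≤ k)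
    (h3 : k ≤ 2 * k') :
    |Sm m V j k - Sm m V j k'| ≤ 8 * (j ^ 2 * om m V j * ((k - k') / k ^ 3)) := by
  have hj0 : 0 < j := by linarith
  have hy0 : 0 < k' := by linarith
  have hx0 : 0 < k := by linarith
  have o2 : 0 ≤ om m V j := Pool.Agent.H25.PT.om_nonneg (by linarith) hj0.le
  rw [sma_hi (h1.trans h2), sma_hi h1, ← sub_mul, abs_mul, abs_of_nonneg o2]
  have e1 : (j / k') ^ 2 - (j / k) ^ 2 = j ^ 2 * ((k ^ 2 - k' ^ 2) / (k ^ 2 * k' ^ 2)) := by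
    field_simp
  have e2 : (k ^ 2 - k' ^ 2) / (k ^ 2 * k' ^ 2) ≤ 8 * ((k - k') / k ^ 3) := by
    have h4 : 8 * ((k - k') / k ^ 3) = 8 * (k - k') / k ^ 3 := by ring
    rw [h4, div_le_div_iff₀ (by positivity) (by positivity)]
    have h5 : (k + k') * k ≤ 8 * k' ^ 2 := by nlinarith
    have h6 : 0 ≤ (k - k') * k ^ 2 := mul_nonneg (by linarith) (sq_nonneg k)
    calc (k ^ 2 - k' ^ 2) * k ^ 3 = (k - k') * k ^ 2 * ((k + k') * k) := by ring
      _ ≤ (k - k') * k ^ 2 * (8 * k' ^ 2) := mul_le_mul_of_nonneg_left h5 h6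
      _ = 8 * (k - k') * (k ^ 2 * k' ^ 2) := by ring
  have e3 : 0 ≤ (k ^ 2 - k' ^ 2) / (k ^ 2 * k' ^ 2) := by
    refine div_nonneg ?_ (by positivity)
    nlinarith
  rw [abs_sub_comm, e1, abs_of_nonneg (by positivity)]
  calc j ^ 2 * ((k ^ 2 - k' ^ 2) / (k ^ 2 * k' ^ 2)) * om m V j
      ≤ j ^ 2 * (8 * ((k - k') / k ^ 3)) * om m V j :=
        mul_le_mul_of_nonneg_right (mul_le_mul_of_nonneg_left e2 (sq_nonneg j)) o2
    _ = 8 * (j ^ 2 * om m V j * ((k - k') / k ^ 3)) := by ring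

lemma Sm_low (hm : 0 ≤ m) (hm1 : m ≤ 1) (hV : 1 ≤ V) {R c : ℝ} (hj : 1 ≤ j) (hk : 1 ≤ k) (hc : 0 < c)
    (hc1 : c ≤ 1) (hjR : j ≤ R) (hkR : k ≤ R) (h1 : c * R ≤ j) (h2 : c * R ≤ k) :
    c ^ 6 * om m V R ≤ Sm m V j k := by
  have hV0 : 0 < V := by linarith
  have hR : 1 ≤ R := hj.trans hjR
  have hR0 : 0 < R := by linarith
  have h3 : c * R ≤ min j k := le_min h1 h2
  have h4 : max j k ≤ R := max_le hjR hkR
  have h5 : 0 < max j k := lt_of_lt_of_le (by linarith) (le_max_left j k)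
  have h6 : c ≤ min j k / max j k := by
    rw [le_div_iff₀ h5]
    exact (mul_le_mul_of_nonneg_left h4 hc.le).trans h3
  have h7 : c ^ 2 ≤ (min j k / max j k) ^ 2 := pow_le_pow_left₀ hc.le h6 2
  have h8 : c ^ (4 : ℕ) * om m V R ≤ om m V (min j k) :=
    (Pool.Agent.H25.PT.om_scale hm hm1 hV0 hR0.le hc hc1).trans
      (Pool.Agent.H25.PT.om_mono hm1 hV0 (by positivity) h3)
  have h9 : 0 ≤ om m V R := Pool.Agent.H25.PT.om_nonneg hV0 hR0.le
  unfold Sm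
  calc c ^ 6 * om m V R = c ^ 2 * (c ^ 4 * om m V R) := by ring
    _ ≤ (min j k / max j k) ^ 2 * om m V (min j k) :=
        mul_le_mul h7 h8 (by positivity) (sq_nonneg _)

/-- continuity in both variables on `[1,∞)²` -/
lemma Sm_cont (hm1 : m ≤ 1) {d : ℕ} (V : ℝ) :
    Continuous fun p : Vec d × Vec d => Sm m V (jb p.1) (jb p.2) := by
  unfold Sm
  have h1 : Continuous fun p : Vec d × Vec d => jb p.1 := jb_cont.comp continuous_fst
  have h2 : Continuous fun p : Vec d × Vec d => jb p.2 := jb_cont.comp continuous_snd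
  have h3 : Continuous fun p : Vec d × Vec d => min (jb p.1) (jb p.2) := h1.min h2
  have h4 : Continuous fun p : Vec d × Vec d => max (jb p.1) (jb p.2) := h1.max h2
  exact ((h3.div h4 fun p => (lt_of_lt_of_le (jb_pos p.1) (le_max_left _ _)).ne').pow 2).mul
    ((Pool.Agent.H25.PT.om_cont hm1 V).comp h3)

end Pool.Agent.H71.PX
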