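import Pool.Agent.H71.PX.Defs
import Pool.Agent.H25.PT.XWC

/-!
# Module YB: elementary facts about `dn`, `YS`, `YW` and the layer cake formula (copies of PL/XB, PT/XWB)
-/

set_option autoImplicit false

open MeasureTheory Set Filter Topology Pool.Agent.H25.Kin Pool.Agent.H48.PL Pool.Agent.H48.PI
open Pool.Agent.H25.PT Pool.Agent.H48.PW

namespace Pool.Agent.H71.PX

variable {d : ℕ} {a m V q : ℝ} {g : Vec d → ℝ}

lemma jbs_cont : Continuous fun p : Vec d × Vec d => jb (p.1 - p.2) :=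
  jb_cont.comp (by fun_prop : Continuous fun p : Vec d × Vec d => p.1 - p.2)

lemma measurableSet_NtM (e : Fin d) (ε κ : ℝ) : MeasurableSet (NtM e ε κ) := by
  have h1 : Measurable fun p : Vec d × Vec d => ε * jb (p.1 - p.2) ^ (-κ) * len (p.1 - p.2) :=
    ((jbs_cont.measurable.pow_const (-κ)).const_mul ε).mul
      (continuous_len.comp (by fun_prop : Continuous fun p : Vec d × Vec d => p.1 - p.2)).measurable
  have h2 : Measurable fun p : Vec d × Vec d => |p.1 e - p.2 e| :=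
    (by fun_prop : Continuous fun p : Vec d × Vec d => |p.1 e - p.2 e|).measurable
  exact measurableSet_le h1 h2

lemma jb_sub_le (v w : Vec d) : jb (v - w) ≤ 2 * RR v w := by
  have h1 := nsq_sub_le_RR v w
  have h2 := one_le_RR v w
  have h3 := jb_sq (v - w)
  have h4 := jb_pos (v - w)
  by_contra h
  push Not at h
  nlinarith

lemma dn_nonneg (hg : ∀ v, 0 ≤ g v) (p : Vec d × Vec d) : 0 ≤ dn a m g p := by
  unfold dn
  exact mul_nonneg (mul_nonneg (hg _) (hg _))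
    (mul_nonneg (Real.rpow_nonneg (len_nonneg _) _) (Real.rpow_nonneg (jb_pos _).le _))

lemma dn_cont (ha : 0 ≤ a) (hgc : Continuous g) : Continuous (dn a m g) := by
  unfold dn
  have h1 : Continuous fun p : Vec d × Vec d => len (p.1 - p.2) ^ (1 + a) :=
    (continuous_len.comp (by fun_prop : Continuous fun p : Vec d × Vec d => p.1 - p.2)).rpow_const
      fun p => Or.inr (by linarith)
  have h2 : Continuous fun p : Vec d × Vec d => jb (p.1 - p.2) ^ m :=
    jbs_cont.rpow_const fun p => Or.inl (jb_pos _).ne'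
  exact ((hgc.comp continuous_fst).mul (hgc.comp continuous_snd)).mul (h1.mul h2)

/-- the kernel of the density -/
lemma wn_le (ha : 0 ≤ a) (ha1 : a ≤ 1) (hm : m ≤ 1) (v w : Vec d) :
    len (v - w) ^ (1 + a) * jb (v - w) ^ m ≤ 8 * RR v w ^ 3 := by
  have r1 := one_le_RR v w
  have r0 := RR_pos v w
  have q1 : len (v - w) ^ (1 + a) ≤ (2 * RR v w) ^ 2 := by
    calc len (v - w) ^ (1 + a) ≤ (2 * RR v w) ^ (1 + a) :=
          Real.rpow_le_rpow (len_nonneg _) (len_le_RR v w) (by linarith)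
      _ ≤ (2 * RR v w) ^ (2 : ℝ) :=
          Real.rpow_le_rpow_of_exponent_le (by linarith) (by linarith)
      _ = (2 * RR v w) ^ 2 := by
          rw [show (2 : ℝ) = ((2 : ℕ) : ℝ) by norm_num, Real.rpow_natCast]
  have q2 : jb (v - w) ^ m ≤ 2 * RR v w := by
    calc jb (v - w) ^ m ≤ jb (v - w) ^ (1 : ℝ) :=
          Real.rpow_le_rpow_of_exponent_le (one_le_jb _) hm
      _ = jb (v - w) := Real.rpow_one _
      _ ≤ 2 * RR v w := jb_sub_le v w
  calc len (v - w) ^ (1 + a) * jb (v - w) ^ m ≤ (2 * RR v w) ^ 2 * (2 * RR v w) :=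
        mul_le_mul q1 q2 (Real.rpow_nonneg (jb_pos _).le _) (by positivity)
    _ = 8 * RR v w ^ 3 := by ring

lemma dn_integrable (ha : 0 ≤ a) (ha1 : a ≤ 1) (hm : m ≤ 1) (hg : RD g) (hgc : Continuous g) :
    Integrable (dn a m g) := by
  have hr : RD fun v => g v * jb v ^ (3 : ℝ) := hg.mul_PG PG_jb
  have hc : Continuous fun v => g v * jb v ^ (3 : ℝ) :=
    hgc.mul (jb_cont.rpow_const fun v => Or.inr (by norm_num))
  have hi : Integrable (fun v => g v * jb v ^ (3 : ℝ)) := hr.integrable hc.aestronglyMeasurable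
  have hp : Integrable (fun p : Vec d × Vec d =>
      64 * (‖g p.1 * jb p.1 ^ (3 : ℝ)‖ * ‖g p.2 * jb p.2 ^ (3 : ℝ)‖)) :=
    (hi.norm.mul_prod hi.norm).const_mul 64
  refine hp.mono' (dn_cont ha hgc).aestronglyMeasurable (Filter.Eventually.of_forall fun p => ?_)
  obtain ⟨v, w⟩ := p
  have e3 : ∀ u : Vec d, jb u ^ (3 : ℝ) = jb u ^ 3 := fun u => by
    rw [show (3 : ℝ) = ((3 : ℕ) : ℝ) by norm_num, Real.rpow_natCast]
  simp only [dn, e3, norm_mul, Real.norm_eq_abs]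
  have r0 := RR_pos v w
  have j1 := one_le_jb v
  have j2 := one_le_jb w
  have q3 : RR v w ≤ 2 * (jb v * jb w) := by
    have := RR_le v w
    nlinarith [mul_nonneg (sub_nonneg.2 j1) (sub_nonneg.2 j2)]
  have q4 : RR v w ^ 3 ≤ (2 * (jb v * jb w)) ^ 3 := pow_le_pow_left₀ r0.le q3 3
  have q5 : |len (v - w) ^ (1 + a)| * |jb (v - w) ^ m| ≤ 64 * (jb v ^ 3 * jb w ^ 3) := by
    rw [abs_of_nonneg (Real.rpow_nonneg (len_nonneg _) _),
      abs_of_nonneg (Real.rpow_nonneg (jb_pos _).le _)]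
    calc len (v - w) ^ (1 + a) * jb (v - w) ^ m ≤ 8 * RR v w ^ 3 := wn_le ha ha1 hm v w
      _ ≤ 8 * (2 * (jb v * jb w)) ^ 3 := by linarith
      _ = 64 * (jb v ^ 3 * jb w ^ 3) := by ring
  have a1 : |jb v ^ 3| = jb v ^ 3 := abs_of_nonneg (by positivity)
  have a2 : |jb w ^ 3| = jb w ^ 3 := abs_of_nonneg (by positivity)
  rw [a1, a2]
  calc |g v| * |g w| * (|len (v - w) ^ (1 + a)| * |jb (v - w) ^ m|)
      ≤ |g v| * |g w| * (64 * (jb v ^ 3 * jb w ^ 3)) :=
        mul_le_mul_of_nonneg_left q5 (by positivity)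
    _ = 64 * (|g v| * jb v ^ 3 * (|g w| * jb w ^ 3)) := by ring

lemma YS_nonneg (hg : ∀ v, 0 ≤ g v) (A : Set (Vec d × Vec d)) : 0 ≤ YS a m g A :=
  integral_nonneg fun p => dn_nonneg hg p

private lemma wint {f : Vec d × Vec d → ℝ} (ha : 0 ≤ a) (ha1 : a ≤ 1) (hm1 : m ≤ 1) (hg : RD g) (hgc : Continuous g)
    (hf : Continuous f) (hf0 : ∀ p, 0 ≤ f p) (hf1 : ∀ p, f p ≤ 1) :
    Integrable fun p : Vec d × Vec d => dn a m g p * f p := by
  have hI := dn_integrable (a := a) (m := m) ha ha1 hm1 hg hgc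
  refine hI.norm.mono' (((dn_cont ha hgc).mul hf).aestronglyMeasurable) (Filter.Eventually.of_forall fun p => ?_)
  rw [norm_mul]
  refine mul_le_of_le_one_right (norm_nonneg _) ?_
  rw [Real.norm_eq_abs, abs_of_nonneg (hf0 p)]
  exact hf1 p

lemma YW_integrable (ha : 0 ≤ a) (ha1 : a ≤ 1) (hm1 : m ≤ 1) (hV : 1 ≤ V) (hg : RD g) (hgc : Continuous g) :
    Integrable fun p : Vec d × Vec d => dn a m g p * om m V (RR p.1 p.2) :=
  wint ha ha1 hm1 hg hgc (om_RR_cont hm1 V) (fun p => om_nonneg (by linarith) (RR_pos _ _).le)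
    fun p => om_le_one hm1 (by linarith) (RR_pos _ _).le

private lemma dom_nonneg (hV : 1 ≤ V) (hg : ∀ v, 0 ≤ g v) (p : Vec d × Vec d) :
    0 ≤ dn a m g p * om m V (RR p.1 p.2) :=
  mul_nonneg (dn_nonneg hg p) (om_nonneg (by linarith) (RR_pos _ _).le)

lemma YW_nonneg (hV : 1 ≤ V) (hg : ∀ v, 0 ≤ g v) (A : Set (Vec d × Vec d)) : 0 ≤ YW a m V g A :=
  integral_nonneg fun p => dom_nonneg hV hg p

lemma YW_le_YS (ha : 0 ≤ a) (ha1 : a ≤ 1) (hm1 : m ≤ 1) (hV : 1 ≤ V) (hg : RD g) (hgc : Continuous g)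
    (hg0 : ∀ v, 0 ≤ g v) (A : Set (Vec d × Vec d)) : YW a m V g A ≤ YS a m g A := by
  unfold YW YS
  refine integral_mono (YW_integrable ha ha1 hm1 hV hg hgc).integrableOn
    (dn_integrable ha ha1 hm1 hg hgc).integrableOn fun p => ?_
  exact mul_le_of_le_one_right (dn_nonneg hg0 p) (om_le_one hm1 (by linarith) (RR_pos _ _).le)

lemma YW_cmp_le (ha : 0 ≤ a) (ha1 : a ≤ 1) (hm1 : m ≤ 1) (hV : 1 ≤ V) (hg : RD g) (hgc : Continuous g)
    (hg0 : ∀ v, 0 ≤ g v) {δ : ℝ} (hδ : 0 ≤ δ) (e : Fin d) (ε κ : ℝ) :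
    YW a m V g (CmpS δ) ≤ YW a m V g (CmpS δ ∩ (NtM e ε κ)ᶜ) + YW a m V g (CmpS (δ / 2) ∩ NtM e ε κ) := by
  have hI := YW_integrable (V := V) ha ha1 hm1 hV hg hgc
  have h1 : YW a m V g (CmpS δ) = YW a m V g (CmpS δ ∩ NtM e ε κ) + YW a m V g (CmpS δ ∩ (NtM e ε κ)ᶜ) := by
    unfold YW
    rw [← setIntegral_union (disjoint_compl_right.mono inter_subset_right inter_subset_right)
      ((measurableSet_CmpS δ).inter (measurableSet_NtM e ε κ).compl) hI.integrableOn
      hI.integrableOn, inter_union_compl]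
  have h2 : YW a m V g (CmpS δ ∩ NtM e ε κ) ≤ YW a m V g (CmpS (δ / 2) ∩ NtM e ε κ) := by
    unfold YW
    exact setIntegral_mono_set hI.integrableOn (Filter.Eventually.of_forall fun p => dom_nonneg hV hg0 p)
      (HasSubset.Subset.eventuallyLE (inter_subset_inter_left _ (CmpS_mono (by linarith))))
  linarith

lemma YW_univ_le (ha : 0 ≤ a) (ha1 : a ≤ 1) (hm1 : m ≤ 1) (hV : 1 ≤ V) (hg : RD g) (hgc : Continuous g)
    (hg0 : ∀ v, 0 ≤ g v) {δ : ℝ} (hδ : 0 ≤ δ) (e : Fin d) (ε κ : ℝ) :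
    YW a m V g univ ≤ YW a m V g (CmpS δ)ᶜ + (YW a m V g (CmpS δ ∩ (NtM e ε κ)ᶜ) +
      YW a m V g (CmpS (δ / 2) ∩ NtM e ε κ)) := by
  have hI := YW_integrable (V := V) ha ha1 hm1 hV hg hgc
  have h1 : YW a m V g univ = YW a m V g (CmpS δ) + YW a m V g (CmpS δ)ᶜ := by
    unfold YW
    rw [setIntegral_univ, integral_add_compl (measurableSet_CmpS δ) hI]
  have h2 := YW_cmp_le ha ha1 hm1 hV hg hgc hg0 hδ e ε κ
  linarith

private lemma int_ite {x : ℝ} (h0 : 0 ≤ x) (h1 : x ≤ 1) :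
    ∫ y in Ioo (0 : ℝ) 1, (if y < x then (1 : ℝ) else 0) = x := by
  have e1 : (fun y : ℝ => if y < x then (1 : ℝ) else 0) = (Iio x).indicator fun _ => (1 : ℝ) := by
    funext y
    by_cases h : y < x
    · simp [h]
    · simp [h]
  rw [e1, setIntegral_indicator measurableSet_Iio]
  have e2 : Ioo (0 : ℝ) 1 ∩ Iio x = Ioo 0 x := by
    ext y
    simp only [mem_inter_iff, mem_Ioo, mem_Iio]
    constructor
    · rintro ⟨⟨a1, _⟩, a3⟩
      exact ⟨a1, a3⟩
    · rintro ⟨a1, a3⟩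
      exact ⟨⟨a1, a3.trans_le h1⟩, a3⟩
  rw [e2]
  simp [h0]

/-- the function of the layer cake formula is integrable -/
private lemma lc_int (ha : 0 ≤ a) (ha1 : a ≤ 1) (hm1 : m ≤ 1) (hg : RD g) (hgc : Continuous g) (A : Set (Vec d × Vec d)) :
    Integrable (fun q : (Vec d × Vec d) × ℝ => dn a m g q.1 * (if q.2 < om m V (RR q.1.1 q.1.2) then (1 : ℝ) else 0))
      ((volume.restrict A).prod (volume.restrict (Ioo (0 : ℝ) 1))) := by
  have hI := (dn_integrable (a := a) (m := m) ha ha1 hm1 hg hgc).integrableOn (s := A)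
  have h1 : Integrable (fun q : (Vec d × Vec d) × ℝ => dn a m g q.1 * (1 : ℝ))
      ((volume.restrict A).prod (volume.restrict (Ioo (0 : ℝ) 1))) :=
    Integrable.mul_prod (f := dn a m g) (g := fun _ : ℝ => (1 : ℝ)) hI (integrable_const _)
  have hm : MeasurableSet {q : (Vec d × Vec d) × ℝ | q.2 < om m V (RR q.1.1 q.1.2)} :=
    measurableSet_lt measurable_snd ((om_RR_cont hm1 V).measurable.comp measurable_fst)
  have hmeas : Measurable fun q : (Vec d × Vec d) × ℝ =>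
      dn a m g q.1 * (if q.2 < om m V (RR q.1.1 q.1.2) then (1 : ℝ) else 0) :=
    ((dn_cont ha hgc).measurable.comp measurable_fst).mul (Measurable.ite hm measurable_const measurable_const)
  refine h1.norm.mono' hmeas.aestronglyMeasurable (Filter.Eventually.of_forall fun q => ?_)
  rw [norm_mul, norm_mul]
  refine mul_le_mul_of_nonneg_left ?_ (norm_nonneg _)
  split_ifs <;> simp

private lemma lc (ha : 0 ≤ a) (ha1 : a ≤ 1) (hm1 : m ≤ 1) (hV : 1 ≤ V) (hg : RD g) (hgc : Continuous g) {A : Set (Vec d × Vec d)} :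
    YW a m V g A = ∫ y in Ioo (0 : ℝ) 1, YS a m g (A ∩ {p | y < om m V (RR p.1 p.2)}) := by
  have h1 := integral_integral_swap (μ := volume.restrict A) (ν := volume.restrict (Ioo (0 : ℝ) 1))
    (f := fun (p : Vec d × Vec d) (y : ℝ) => dn a m g p * (if y < om m V (RR p.1 p.2) then (1 : ℝ) else 0))
    (lc_int (V := V) ha ha1 hm1 hg hgc A)
  have h2 : ∀ p : Vec d × Vec d, ∫ y in Ioo (0 : ℝ) 1, dn a m g p * (if y < om m V (RR p.1 p.2) then (1 : ℝ) else 0) =
      dn a m g p * om m V (RR p.1 p.2) := by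
    intro p
    rw [integral_const_mul, int_ite (om_nonneg (by linarith) (RR_pos _ _).le)
      (om_le_one hm1 (by linarith) (RR_pos _ _).le)]
  have h3 : ∀ y : ℝ, ∫ p in A, dn a m g p * (if y < om m V (RR p.1 p.2) then (1 : ℝ) else 0) =
      YS a m g (A ∩ {p | y < om m V (RR p.1 p.2)}) := by
    intro y
    have hm : MeasurableSet {p : Vec d × Vec d | y < om m V (RR p.1 p.2)} :=
      measurableSet_lt measurable_const (om_RR_cont hm1 V).measurable
    have e1 : (fun p : Vec d × Vec d => dn a m g p * (if y < om m V (RR p.1 p.2) then (1 : ℝ) else 0)) =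
        {p : Vec d × Vec d | y < om m V (RR p.1 p.2)}.indicator (dn a m g) := by
      funext p
      by_cases h : y < om m V (RR p.1 p.2)
      · simp [h]
      · simp [h]
    rw [e1, setIntegral_indicator hm]
    rfl
  simp only [h2, h3] at h1
  exact h1

private lemma om_gt (hm1 : m ≤ 1) (hV : 1 ≤ V) {y : ℝ} (hy : y ∈ Ioo (0 : ℝ) 1) :
    {p : Vec d × Vec d | y < om m V (RR p.1 p.2)} = Gt (V * y ^ (4 - m)⁻¹) := by
  have h4 : 0 < 4 - m := by linarith
  have hV0 : 0 < V := by linarith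
  have hy1 : y ^ (4 - m)⁻¹ < 1 := Real.rpow_lt_one hy.1.le hy.2 (inv_pos.2 h4)
  ext p
  have hR := RR_pos p.1 p.2
  have hm : 0 ≤ min 1 (RR p.1 p.2 / V) := le_min zero_le_one (by positivity)
  simp only [Gt, mem_setOf_eq, om]
  rw [← Real.rpow_inv_lt_iff_of_pos hy.1.le hm h4, lt_min_iff, lt_div_iff₀ hV0, mul_comm]
  exact ⟨fun h => h.2, fun h => ⟨hy1, h⟩⟩

theorem YW_of_Gt (ha : 0 ≤ a) (ha1 : a ≤ 1) (hm1 : m ≤ 1) (hV : 1 ≤ V) (hg : RD g) (hgc : Continuous g)
    (hg0 : ∀ v, 0 ≤ g v) {A B : Set (Vec d × Vec d)} (hA : MeasurableSet A) (hB : MeasurableSet B)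
    {C₂ κ : ℝ} (h : ∀ ρ : ℝ, YS a m g (A ∩ Gt ρ) ≤ C₂ * YS a m g (B ∩ Gt ρ) + κ) :
    YW a m V g A ≤ C₂ * YW a m V g B + κ := by
  have _ := hA
  have _ := hB
  have _ := hg0
  have hi : ∀ A : Set (Vec d × Vec d), IntegrableOn (fun y => YS a m g (A ∩ {p | y < om m V (RR p.1 p.2)})) (Ioo 0 1) := by
    intro A
    have h1 := (lc_int (V := V) ha ha1 hm1 hg hgc A).integral_prod_right
    refine h1.congr (Filter.Eventually.of_forall fun y => ?_)
    have hm : MeasurableSet {p : Vec d × Vec d | y < om m V (RR p.1 p.2)} :=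
      measurableSet_lt measurable_const (om_RR_cont hm1 V).measurable
    have e1 : (fun p : Vec d × Vec d => dn a m g p * (if y < om m V (RR p.1 p.2) then (1 : ℝ) else 0)) =
        {p : Vec d × Vec d | y < om m V (RR p.1 p.2)}.indicator (dn a m g) := by
      funext p
      by_cases h : y < om m V (RR p.1 p.2)
      · simp [h]
      · simp [h]
    simp only
    rw [e1, setIntegral_indicator hm]
    rfl
  rw [lc (V := V) ha ha1 hm1 hV hg hgc (A := A), lc (V := V) ha ha1 hm1 hV hg hgc (A := B)]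
  have h2 : ∫ y in Ioo (0 : ℝ) 1, (C₂ * YS a m g (B ∩ {p | y < om m V (RR p.1 p.2)}) + κ) =
      C₂ * (∫ y in Ioo (0 : ℝ) 1, YS a m g (B ∩ {p | y < om m V (RR p.1 p.2)})) + κ := by
    rw [integral_add ((hi B).const_mul C₂) (integrable_const _), integral_const_mul]
    simp
  rw [← h2]
  refine setIntegral_mono_on (hi A) (((hi B).const_mul C₂).add (integrable_const _)) measurableSet_Ioo fun y hy => ?_
  rw [om_gt hm1 hV hy]
  exact h _


end Pool.Agent.H71.PX
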