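import Pool.Agent.H71.PX.Th0D
import Pool.Agent.H71.PX.SmA

/-!
# Module ThM2: the near part `T2(v,·)` is a cusp test function (`Cusp` of H48/PW/Defs), constant independent of `v` and `V`

`j = jb v`, `k = jb w`, `k' = jb w'`, `U = v - w`, `U' = v - w'`, `len (U - U') = len (w - w') = r`, `σ = sP s a = max a (s + a/2) ∈ [a, 1]` (`2s ≤ m < 1`, `a < 1`), `len U = len (w - v)`. `C` from `N2_all`.
`T2(w) - T2(w') = Sm(j,k') (N2 U - N2 U') + (Sm(j,k) - Sm(j,k')) N2 U`. `Sm(j,k') ≤ om(min j k') ≤ om(max k k')` (`Sm_le`, `om_mono`), so the first term is `≤ om(max k k') C r^a` and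
`≤ om(max k k') C r^σ (1 + len U^(a-σ))` for `U ≠ 0` (`w ≠ v`). Second term: if `r ≤ 1`: `≤ 6 om(min j (max k k')) (|k-k'|/j) C ≤ 6 C om(max k k') r` (`Sm_lip`, `jb_lip`, `j ≥ 1`) and `r ≤ r^a`, `r ≤ r^σ`;
if `r > 1`: `≤ (Sm(j,k) + Sm(j,k')) C ≤ 2 C om(max k k')` and `1 ≤ r^a`, `1 ≤ r^σ`. So `A = 7C` (or `8C`) works (`1 ≤ 1 + len U^(a-σ)`).
`T2_hol` (`m ≤ a`): the same, `r^a ≤ r^m` for `r ≤ 1`; for `r > 1`: `|T2(w)| + |T2(w')| ≤ 2 C om(max k k') ≤ 2 C om r^m`.
`meas`: `T2(v,·)` is continuous: `Sm_cont`, `Th0_cont`, `cu` and `len` are continuous.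
-/

set_option autoImplicit false

open MeasureTheory Set Filter Topology Pool.Agent.H25.Kin Pool.Agent.H48.PL Pool.Agent.H48.PI
open Pool.Agent.H25.PT Pool.Agent.H48.PW

namespace Pool.Agent.H71.PX

variable {d : ℕ} {a m κ ε : ℝ}

/-- Lipschitz and bounded, hence Hoelder of every order -/
private lemma thm2_S (E : EX a m κ) {V : ℝ} (hV : 1 ≤ V) (v w w' : Vec d) {p : ℝ} (hp : 0 ≤ p) (hp1 : p ≤ 1) :
    |Sm m V (jb v) (jb w) - Sm m V (jb v) (jb w')| ≤
      6 * (om m V (max (jb w) (jb w')) * len (w - w') ^ p) := by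
  obtain ⟨f1, f2, -, -, -, -, -, -, -, -⟩ := E.facts
  have hj := one_le_jb v
  have hk := one_le_jb w
  have hk' := one_le_jb w'
  have hr := len_nonneg (w - w')
  have hmx : 1 ≤ max (jb w) (jb w') := hk.trans (le_max_left _ _)
  have hO : 0 ≤ om m V (max (jb w) (jb w')) := om_nonneg (by linarith) (by linarith)
  rcases le_or_gt (len (w - w')) 1 with h1 | h1
  · have h2 := Sm_lip f1.le f2.le hV hj hk hk'
    have h3 : |jb w - jb w'| / jb v ≤ len (w - w') := by
      rw [div_le_iff₀ (by linarith)]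
      calc |jb w - jb w'| ≤ len (w - w') := jb_lip w w'
        _ = len (w - w') * 1 := (mul_one _).symm
        _ ≤ len (w - w') * jb v := mul_le_mul_of_nonneg_left hj hr
    have h4 : len (w - w') ≤ len (w - w') ^ p := by
      rcases hr.eq_or_lt with h5 | h5
      · rw [← h5]
        exact Real.rpow_nonneg le_rfl _
      · calc len (w - w') = len (w - w') ^ (1 : ℝ) := (Real.rpow_one _).symm
          _ ≤ len (w - w') ^ p := Real.rpow_le_rpow_of_exponent_ge h5 h1 hp1
    have h5 : om m V (min (jb v) (max (jb w) (jb w'))) ≤ om m V (max (jb w) (jb w')) :=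
      om_mono f2.le (by linarith) (le_min (by linarith) (by linarith)) (min_le_right _ _)
    refine h2.trans (mul_le_mul_of_nonneg_left ?_ (by norm_num))
    exact mul_le_mul h5 (h3.trans h4) (div_nonneg (abs_nonneg _) (by linarith)) hO
  · have h2 : ∀ x : ℝ, 1 ≤ x → x ≤ max (jb w) (jb w') → Sm m V (jb v) x ≤ om m V (max (jb w) (jb w')) := by
      intro x hx hxm
      exact (Sm_le hV hj hx).trans (om_mono f2.le (by linarith) (le_min (by linarith) (by linarith))
        ((min_le_right _ _).trans hxm))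
    have h3 := h2 _ hk (le_max_left _ _)
    have h4 := h2 _ hk' (le_max_right _ _)
    have h5 := Sm_nonneg (m := m) hV hj hk
    have h6 := Sm_nonneg (m := m) hV hj hk'
    have h7 : 1 ≤ len (w - w') ^ p := Real.one_le_rpow h1.le hp
    have h8 : om m V (max (jb w) (jb w')) ≤ om m V (max (jb w) (jb w')) * len (w - w') ^ p :=
      le_mul_of_one_le_right hO h7
    rw [abs_le]
    constructor <;> linarith

private lemma thm2_main (E : EX a m κ) {V : ℝ} (hV : 1 ≤ V) {C : ℝ} (e : Fin d)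
    (hC : ∀ U : Vec d, |N2 e a m κ ε U| ≤ C) (v w w' : Vec d) {p X : ℝ} (hp : 0 ≤ p) (hp1 : p ≤ 1)
    (hX : |N2 e a m κ ε (v - w) - N2 e a m κ ε (v - w')| ≤ X) :
    |T2 e a m κ ε V v w - T2 e a m κ ε V v w'| ≤ om m V (max (jb w) (jb w')) * X +
      6 * C * (om m V (max (jb w) (jb w')) * len (w - w') ^ p) := by
  obtain ⟨f1, f2, -, -, -, -, -, -, -, -⟩ := E.facts
  have hj := one_le_jb v
  have hk' := one_le_jb w'
  have hO : Sm m V (jb v) (jb w') ≤ om m V (max (jb w) (jb w')) :=
    (Sm_le hV hj hk').trans (om_mono f2.le (by linarith) (le_min (by linarith) (by linarith))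
      ((min_le_right _ _).trans (le_max_right _ _)))
  have hS0 := Sm_nonneg (m := m) hV hj hk'
  have hsplit : T2 e a m κ ε V v w - T2 e a m κ ε V v w' =
      Sm m V (jb v) (jb w') * (N2 e a m κ ε (v - w) - N2 e a m κ ε (v - w')) +
      (Sm m V (jb v) (jb w) - Sm m V (jb v) (jb w')) * N2 e a m κ ε (v - w) := by
    unfold T2
    ring
  have hS := thm2_S E hV v w w' hp hp1
  have h1 : |Sm m V (jb v) (jb w') * (N2 e a m κ ε (v - w) - N2 e a m κ ε (v - w'))| ≤
      om m V (max (jb w) (jb w')) * X := by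
    rw [abs_mul, abs_of_nonneg hS0]
    exact mul_le_mul hO hX (abs_nonneg _) (hS0.trans hO)
  have h2 : |(Sm m V (jb v) (jb w) - Sm m V (jb v) (jb w')) * N2 e a m κ ε (v - w)| ≤
      6 * C * (om m V (max (jb w) (jb w')) * len (w - w') ^ p) := by
    rw [abs_mul]
    calc |Sm m V (jb v) (jb w) - Sm m V (jb v) (jb w')| * |N2 e a m κ ε (v - w)|
        ≤ (6 * (om m V (max (jb w) (jb w')) * len (w - w') ^ p)) * C :=
          mul_le_mul hS (hC _) (abs_nonneg _) ((abs_nonneg _).trans hS)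
      _ = 6 * C * (om m V (max (jb w) (jb w')) * len (w - w') ^ p) := by ring
  rw [hsplit]
  exact (abs_add_le _ _).trans (add_le_add h1 h2)

private lemma thm2_sub (v w w' : Vec d) : len (v - w - (v - w')) = len (w - w') := by
  have : v - w - (v - w') = -(w - w') := by abel
  rw [this, len_neg]

private lemma thm2_meas (E : EX a m κ) (hε : 0 < ε) (e : Fin d) (V : ℝ) (v : Vec d) :
    Measurable fun w => T2 e a m κ ε V v w := by
  have h1 : Continuous fun w : Vec d => Sm m V (jb v) (jb w) := by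
    have h0 := Sm_cont (m := m) E.facts.2.1.le (d := d) V
    have h2 : Continuous fun w : Vec d => ((v, w) : Vec d × Vec d) :=
      continuous_const.prodMk continuous_id
    have h := h0.comp h2
    exact h
  have h2 : Continuous fun w : Vec d => v - w := continuous_const.sub continuous_id
  have h3 : Continuous fun w : Vec d => Th0 e a m κ ε (v - w) := by
    have h0 := Th0_cont (d := d) (m := m) (κ := κ) E.ha hε e
    have h := h0.comp h2
    exact h
  have h4 : Continuous cu :=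
    continuous_const.max (continuous_const.min (continuous_const.sub continuous_id))
  have h5 : Continuous fun w : Vec d => cu (len (v - w)) := h4.comp (continuous_len.comp h2)
  exact (h1.mul (h5.mul h3)).measurable

theorem T2_cusp (E : EX a m κ) (hε : 0 < ε) {s : ℝ} (hs : 0 < s) (hsm : 2 * s ≤ m) :
    ∃ A : ℝ, 0 ≤ A ∧ ∀ (e : Fin d) (V : ℝ), 1 ≤ V → ∀ v : Vec d,
      Cusp s a m v V A fun w => T2 e a m κ ε V v w := by
  obtain ⟨C, hC, c1, c2, c3⟩ := N2_all (d := d) E hε
  obtain ⟨f1, f2, f3, f4, -, -, -, -, -, -⟩ := E.facts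
  have ha := E.ha
  refine ⟨7 * C, by positivity, fun e V hV v => ⟨thm2_meas E hε e V v, fun w w' => ?_, fun w w' hw => ?_⟩⟩
  · have h1 := c2 e (v - w) (v - w')
    rw [thm2_sub] at h1
    have h2 := thm2_main E hV e (c1 e) v w w' ha.le f3.le h1
    refine h2.trans (le_of_eq ?_)
    ring
  · have hσ1 : sP s a ≤ 1 := max_le f3.le (by linarith)
    have hσa : a ≤ sP s a := le_max_left _ _
    have hU : v - w ≠ 0 := sub_ne_zero.2 (Ne.symm hw)
    have h1 := c3 (sP s a) hσa hσ1 e (v - w) (v - w') hU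
    rw [thm2_sub, len_comm v w] at h1
    have h2 := thm2_main E hV e (c1 e) v w w' (by linarith) hσ1 h1
    have hO : 0 ≤ om m V (max (jb w) (jb w')) :=
      om_nonneg (by linarith) (by linarith [one_le_jb w, le_max_left (jb w) (jb w')])
    have hr : 0 ≤ len (w - w') ^ sP s a := Real.rpow_nonneg (len_nonneg _) _
    have hl : 0 ≤ len (w - v) ^ (a - sP s a) := Real.rpow_nonneg (len_nonneg _) _
    have h3 : len (w - w') ^ sP s a ≤ len (w - w') ^ sP s a * (1 + len (w - v) ^ (a - sP s a)) :=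
      le_mul_of_one_le_right hr (by linarith)
    have h4 : 6 * C * (om m V (max (jb w) (jb w')) * len (w - w') ^ sP s a) ≤
        6 * C * (om m V (max (jb w) (jb w')) *
          (len (w - w') ^ sP s a * (1 + len (w - v) ^ (a - sP s a)))) :=
      mul_le_mul_of_nonneg_left (mul_le_mul_of_nonneg_left h3 hO) (by positivity)
    refine h2.trans ((add_le_add le_rfl h4).trans (le_of_eq ?_))
    ring

theorem T2_hol (E : EX a m κ) (hε : 0 < ε) (hma : m ≤ a) : ∃ A : ℝ, 0 ≤ A ∧ ∀ (e : Fin d) (V : ℝ), 1 ≤ V →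
    ∀ v w w' : Vec d, |T2 e a m κ ε V v w - T2 e a m κ ε V v w'| ≤
      A * (om m V (max (jb w) (jb w')) * len (w - w') ^ m) := by
  obtain ⟨C, hC, c1, c2, c3⟩ := N2_all (d := d) E hε
  obtain ⟨f1, f2, f3, f4, -, -, -, -, -, -⟩ := E.facts
  refine ⟨8 * C, by positivity, fun e V hV v w w' => ?_⟩
  have h1 : |N2 e a m κ ε (v - w) - N2 e a m κ ε (v - w')| ≤ 2 * C * len (w - w') ^ m := by
    have hr := len_nonneg (w - w')
    rcases le_or_gt (len (w - w')) 1 with h2 | h2
    · have h3 := c2 e (v - w) (v - w')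
      rw [thm2_sub] at h3
      have h4 : len (w - w') ^ a ≤ len (w - w') ^ m := by
        rcases hr.eq_or_lt with h5 | h5
        · rw [← h5, Real.zero_rpow E.ha.ne', Real.zero_rpow f1.ne']
        · exact Real.rpow_le_rpow_of_exponent_ge h5 h2 hma
      have h5 : 0 ≤ C * len (w - w') ^ m := mul_nonneg hC (Real.rpow_nonneg hr _)
      have h6 : C * len (w - w') ^ a ≤ C * len (w - w') ^ m := mul_le_mul_of_nonneg_left h4 hC
      linarith
    · have h3 := c1 e (v - w)
      have h4 := c1 e (v - w')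
      have h5 : 1 ≤ len (w - w') ^ m := Real.one_le_rpow h2.le f1.le
      have h6 : C ≤ C * len (w - w') ^ m := le_mul_of_one_le_right hC h5
      have h7 := abs_sub (N2 e a m κ ε (v - w)) (N2 e a m κ ε (v - w'))
      linarith
  have h2 := thm2_main E hV e (c1 e) v w w' f1.le f2.le h1
  refine h2.trans (le_of_eq ?_)
  ring

end Pool.Agent.H71.PX
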