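import Pool.Agent.H71.PX.ThM1
import Pool.Agent.H71.PX.ThM2
import Pool.Agent.H71.PX.TVB
import Pool.Agent.H71.PX.HwM
import Pool.Agent.H87.PF.Fin

/-!
# Module FibM: the collision term of the pair functional, on a fiber

Case `a ≤ m` (build `W : WP s a m m` from `h1`, `E.facts`). `κ = kpa s m`, `q = qx a m κ`. `TV = T1 + T2` (`TV_split`). `∫ T1(v,·) Q`: `hwM` with `A = C jb v^q` (`T1_hol`): `≤ K C jb v^q YW a m V g univ`. `∫ T2(v,·) Q`: `Pool.Agent.H87.PF.err_cusp` (the statement of H48/PW/Blk.lean) with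
`A₁ = A` of `T2_cusp`, `R₁ = 1`, `ε = 1`, `V₁ = V`, `η' = η` small: `≤ K₁ Dn + K₁ om m V 1 XT a m 1 g + K XT a m V g + η'` (`max V 1 = V`), `XT_eq`, `om m V 1 = min(1,1/V)^(4-m) ≤ V^(-1)`.
(Integrability of `T1(v,·) Q`, `T2(v,·) Q`: `boltzQ` of a `Nice` function is `RD` and continuous or use that the two bounds come with finite integrals: `Q_RD`-type lemmas of the library, see FibV/HwV and H48/PI for the same step;
`T1`, `T2` are of polynomial growth: `|T1| ≤ |TV|`, `|T2| ≤ |TV|`, `TV_PGW`.)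
Let `Z = YW a m V g univ + Dn (1+a) b δ g + V^(-1) YW a m 1 g univ + η`. By `Pool.Agent.H87.PE.Dn_ge` (with `η`), `Dn ≥ -η` for `δ ≤ δ₀`, so `Z ≥ YW + V^(-1) YW ≥ 0`. Choose `η' ≤ η min(1, ..)`: take `η' = η` and `K' = K C + K₁ + K + 1`:
`|∫ TV Q| ≤ K C jb v^q YW + K₁ (Dn + η) + K₁ V^(-1) YW₁ + K YW + η`; with `Dn + η ≥ 0`, all terms are `≤ K'' Z` where `K'' = K C + 2 K₁ + K + 1` if the `η` of `Dn_ge` is replaced by `η/2` (then `Z ≥ η/2`, `Dn + η/2 ≥ 0`); `jb v^q ≥ 1`.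
Case `m < a`: the same without `err_cusp`: `hwM` with `A` of `T2_hol` for `T2(v,·)`.
-/

set_option autoImplicit false

open MeasureTheory Set Filter Topology Pool.Agent.H25.Kin Pool.Agent.H82.BK Pool.Agent.H82.CM
open Pool.Agent.H48.PL Pool.Agent.H48.PI Pool.Agent.H25.PT Pool.Agent.H48.PW
open Pool.Agent.H15.AV (UNice gau)

namespace Pool.Agent.H71.PX

variable {d : ℕ} {s a m C Ca cb : ℝ} {b : ℝ → ℝ}

private lemma fm_cu (x : ℝ) : 0 ≤ cu x ∧ cu x ≤ 1 :=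
  ⟨le_max_left _ _, max_le zero_le_one (min_le_left _ _)⟩

private lemma fm_cu_cont : Continuous cu := by
  unfold cu
  fun_prop

private lemma fm_T2 (e : Fin d) (κ ε V : ℝ) (v w : Vec d) :
    T2 e a m κ ε V v w = cu (len (v - w)) * TV e a m κ ε V v w := by
  unfold T2 TV N2
  ring

private lemma fm_T1 (e : Fin d) (κ ε V : ℝ) (v w : Vec d) :
    T1 e a m κ ε V v w = (1 - cu (len (v - w))) * TV e a m κ ε V v w := by
  unfold T1 TV N1
  ring

/-- the collision term times a continuous function of polynomial growth is integrable -/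
private lemma fm_int {γ : ℝ} (H : Hyp d γ s b C Ca) {g : Vec d → ℝ} (hg : Nice g) {ψ : Vec d → ℝ}
    (hψm : Measurable ψ) {N : ℕ} {B : ℝ} (_ : 0 ≤ B) (hψ : ∀ w, |ψ w| ≤ B * (1 + ‖w‖) ^ N) :
    Integrable fun w => boltzQ γ b g w * ψ w := by
  obtain ⟨A, hA, hAd⟩ := boltzQ_decay H hg (N + (d + 1))
  have hQm : Measurable fun v => boltzQ γ b g v := by
    refine measurable_of_tendsto_metrizable' (𝓝[>] (0 : ℝ)) (f := fun ε v => boltzCut γ b ε g v)
      (fun ε => (boltzCut_meas H.bm hg.cont ε).measurable) ?_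
    rw [tendsto_pi_nhds]
    exact fun v => boltz_tendsto H hg v
  refine (integrable_wt.const_mul (A * B)).mono' (hQm.mul hψm).aestronglyMeasurable
    (Eventually.of_forall fun w => ?_)
  rw [norm_mul, Real.norm_eq_abs, Real.norm_eq_abs]
  have hw := w_pos w
  calc |boltzQ γ b g w| * |ψ w| ≤ (A * ((1 + ‖w‖) ^ (N + (d + 1)))⁻¹) * (B * (1 + ‖w‖) ^ N) :=
        mul_le_mul (hAd w) (hψ w) (abs_nonneg _) (by positivity)
    _ = A * B * wt d w := by
        unfold wt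
        rw [pow_add]
        field_simp

private lemma fm_int2 {γ : ℝ} (H : Hyp d γ s b C Ca) {g : Vec d → ℝ} (hg : Nice g)
    {Φ : Vec d → Vec d → ℝ} (hΦ : PGW Φ) {c : ℝ → ℝ} (hc : Continuous c) (hc1 : ∀ x, |c x| ≤ 1)
    (v : Vec d) : Integrable fun w => boltzQ γ b g w * (c (len (v - w)) * Φ v w) := by
  obtain ⟨N, B, hB, hle⟩ := hΦ.le
  have h5 : Continuous fun w : Vec d => ((v, w) : Vec d × Vec d) := by fun_prop
  have hTc : Continuous fun w : Vec d => Φ v w := hΦ.cont.comp h5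
  have hcc : Continuous fun w : Vec d => c (len (v - w)) :=
    hc.comp (continuous_len.comp (continuous_const.sub continuous_id))
  have hB' : 0 ≤ B * (1 + ‖v‖) ^ N := by
    have := w_pos v
    positivity
  refine fm_int H hg (hcc.mul hTc).measurable hB' (N := N) fun w => ?_
  rw [abs_mul]
  calc |c (len (v - w))| * |Φ v w| ≤ 1 * |Φ v w| :=
        mul_le_mul_of_nonneg_right (hc1 _) (abs_nonneg _)
    _ ≤ B * (1 + ‖v‖) ^ N * (1 + ‖w‖) ^ N := by
        rw [one_mul, mul_assoc]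
        exact hle v w

private lemma fm_om (hm1 : m ≤ 1) {V : ℝ} (hV : 1 ≤ V) : om m V 1 ≤ V ^ (-1 : ℝ) := by
  have hV0 : 0 < V := by linarith
  unfold om
  have h1 : 1 / V ≤ 1 := by rw [div_le_one hV0]; exact hV
  rw [min_eq_right h1, Real.rpow_neg hV0.le, Real.rpow_one]
  calc (1 / V) ^ (4 - m) ≤ (1 / V) ^ (1 : ℝ) :=
        Real.rpow_le_rpow_of_exponent_ge (by positivity) h1 (by linarith)
    _ = V⁻¹ := by rw [Real.rpow_one, one_div]

private lemma fm_fin {Kh C₁ K₁ K j YV Y1 D η W I1 I2 I : ℝ} (hKh : 0 ≤ Kh) (hC₁ : 0 ≤ C₁) (hK₁ : 0 ≤ K₁)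
    (hK : 0 ≤ K) (hj : 1 ≤ j) (hYV : 0 ≤ YV) (hY1 : 0 ≤ Y1) (hD : -(η / 2) ≤ D) (hη : 0 < η)
    (hW : 0 ≤ W) (hI : |I| ≤ I1 + I2) (h1 : I1 ≤ Kh * (C₁ * j * YV))
    (h2 : I2 ≤ K₁ * D + K₁ * (W * Y1) + K * YV + η / 2) :
    |I| ≤ (Kh * C₁ + K₁ + K + 1) * (j * (YV + D + W * Y1 + η)) := by
  have hWY : 0 ≤ W * Y1 := mul_nonneg hW hY1
  have hj0 : 0 ≤ j - 1 := by linarith
  have hZ : 0 ≤ YV + D + W * Y1 + η := by linarith
  have hKC : 0 ≤ Kh * C₁ := mul_nonneg hKh hC₁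
  have e1 : Kh * C₁ * j * YV ≤ Kh * C₁ * j * (YV + D + W * Y1 + η) :=
    mul_le_mul_of_nonneg_left (by linarith) (by positivity)
  have e2 : K₁ * D + K₁ * (W * Y1) ≤ K₁ * (YV + D + W * Y1 + η) := by
    have : K₁ * (D + W * Y1) ≤ K₁ * (YV + D + W * Y1 + η) :=
      mul_le_mul_of_nonneg_left (by linarith) hK₁
    linarith
  have e3 : K * YV ≤ K * (YV + D + W * Y1 + η) := mul_le_mul_of_nonneg_left (by linarith) hK
  have e4 : η / 2 ≤ 1 * (YV + D + W * Y1 + η) := by linarith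
  have e5 : (K₁ + K + 1) * (YV + D + W * Y1 + η) ≤ (K₁ + K + 1) * j * (YV + D + W * Y1 + η) := by
    have : 0 ≤ (K₁ + K + 1) * (YV + D + W * Y1 + η) * (j - 1) :=
      mul_nonneg (mul_nonneg (by positivity) hZ) hj0
    nlinarith
  have e6 : Kh * (C₁ * j * YV) = Kh * C₁ * j * YV := by ring
  calc |I| ≤ Kh * C₁ * j * (YV + D + W * Y1 + η) +
        (K₁ + K + 1) * j * (YV + D + W * Y1 + η) := by linarith
    _ = _ := by ring

theorem fibM (HL : HypL d (1 + a) s b C Ca cb) (h1 : 2 * s < m) (E : EX a m (kpa s m)) (e : Fin d)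
    {ε : ℝ} (hε : 0 < ε) :
    ∃ K : ℝ, 0 ≤ K ∧ ∀ Cl : ℕ → ℝ, ∀ η > 0, ∃ δ₀ > 0, ∀ δ ∈ Ioc (0 : ℝ) δ₀, ∀ g : Vec d → ℝ,
      UNice Cl g → ∀ V : ℝ, 1 ≤ V →
      0 ≤ YW a m V g univ + Dn (1 + a) b δ g + V ^ (-1 : ℝ) * YW a m 1 g univ + η ∧
      ∀ v : Vec d, |∫ w, TV e a m (kpa s m) ε V v w * boltzQ (1 + a) b g w| ≤
        K * (jb v ^ qx a m (kpa s m) *
          (YW a m V g univ + Dn (1 + a) b δ g + V ^ (-1 : ℝ) * YW a m 1 g univ + η)) := by
  obtain ⟨hm0, hm1, ha1, ham, -, -, -, hq0, -, -⟩ := E.facts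
  have ha0 := E.ha
  have hs := HL.H.hs
  obtain ⟨Kh, hKh, hk⟩ := hwM HL ha0.le ha1.le h1 hm1.le
  obtain ⟨C₁, hC₁, hT1⟩ := T1_hol (d := d) E hε
  have hjq : ∀ v : Vec d, 1 ≤ jb v ^ qx a m (kpa s m) := fun v => Real.one_le_rpow (one_le_jb v) hq0
  -- the split
  have hsplit : ∀ {g : Vec d → ℝ}, Nice g → ∀ V : ℝ, 1 ≤ V → ∀ v : Vec d,
      |∫ w, TV e a m (kpa s m) ε V v w * boltzQ (1 + a) b g w| ≤
        |∫ w, boltzQ (1 + a) b g w * T1 e a m (kpa s m) ε V v w| +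
          |∫ w, boltzQ (1 + a) b g w * T2 e a m (kpa s m) ε V v w| := by
    intro g hg V hV v
    have hP := TV_PGW (d := d) E hε e hV
    have i1 : Integrable fun w => boltzQ (1 + a) b g w * T1 e a m (kpa s m) ε V v w := by
      have h5 := fm_int2 HL.H hg hP (c := fun x => 1 - cu x) (continuous_const.sub fm_cu_cont)
        (fun x => by
          obtain ⟨c0, c1⟩ := fm_cu x
          rw [abs_le]
          constructor <;> linarith) v
      refine h5.congr (Eventually.of_forall fun w => ?_)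
      simp only [fm_T1]
    have i2 : Integrable fun w => boltzQ (1 + a) b g w * T2 e a m (kpa s m) ε V v w := by
      have h5 := fm_int2 HL.H hg hP (c := cu) fm_cu_cont
        (fun x => by
          obtain ⟨c0, c1⟩ := fm_cu x
          rw [abs_le]
          constructor <;> linarith) v
      refine h5.congr (Eventually.of_forall fun w => ?_)
      simp only [fm_T2]
    have h4 : ∫ w, TV e a m (kpa s m) ε V v w * boltzQ (1 + a) b g w =
        (∫ w, boltzQ (1 + a) b g w * T1 e a m (kpa s m) ε V v w) +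
          ∫ w, boltzQ (1 + a) b g w * T2 e a m (kpa s m) ε V v w := by
      rw [← integral_add i1 i2]
      refine integral_congr_ae (Eventually.of_forall fun w => ?_)
      simp only [TV_split]
      ring
    rw [h4]
    exact abs_add_le _ _
  rcases le_or_gt a m with ham' | ham'
  · have W : WP s a m m := ⟨hs, ha0, h1, ham, le_rfl, ham', hm1⟩
    obtain ⟨A, hA, hcusp⟩ := T2_cusp (d := d) E hε hs h1.le
    obtain ⟨K, hK, hE⟩ := Pool.Agent.H87.PF.err_cusp HL W A hA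
    obtain ⟨K₁, hK₁, hE1⟩ := hE 1 le_rfl
    refine ⟨Kh * C₁ + K₁ + K + 1, by positivity, fun Cl η hη => ?_⟩
    obtain ⟨δa, hδa, hDa⟩ := Pool.Agent.H87.PE.Dn_ge HL.H Cl (half_pos hη)
    obtain ⟨δb, hδb, hDb⟩ := hE1 1 one_pos le_rfl Cl (η / 2) (half_pos hη)
    refine ⟨min δa δb, lt_min hδa hδb, fun δ hδ g hg V hV => ?_⟩
    have hD := hDa δ ⟨hδ.1, hδ.2.trans (min_le_left _ _)⟩ g hg
    have hV0 : 0 < V := by linarith
    have hYV := YW_nonneg (a := a) (m := m) hV hg.nonneg univ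
    have hY1 := YW_nonneg (a := a) (m := m) le_rfl hg.nonneg univ
    have hVm : 0 ≤ V ^ (-1 : ℝ) := Real.rpow_nonneg hV0.le _
    have hWY : 0 ≤ V ^ (-1 : ℝ) * YW a m 1 g univ := mul_nonneg hVm hY1
    refine ⟨by linarith, fun v => ?_⟩
    have hj0 : 0 ≤ jb v ^ qx a m (kpa s m) := zero_le_one.trans (hjq v)
    have b1 := hk V hV (fun w => T1 e a m (kpa s m) ε V v w) (C₁ * jb v ^ qx a m (kpa s m))
      (mul_nonneg hC₁ hj0) (fun w w' => hT1 e V hV v w w') g hg.nice hg.nonneg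
    have b2 := hDb δ ⟨hδ.1, hδ.2.trans (min_le_right _ _)⟩ g hg v V hV
      (fun w => T2 e a m (kpa s m) ε V v w) (hcusp e V hV v)
    rw [max_eq_left hV, XT_eq, XT_eq, div_one, one_mul] at b2
    have b3 : K₁ * om m V 1 * YW a m 1 g univ ≤ K₁ * (V ^ (-1 : ℝ) * YW a m 1 g univ) := by
      rw [mul_assoc]
      exact mul_le_mul_of_nonneg_left (mul_le_mul_of_nonneg_right (fm_om hm1.le hV) hY1) hK₁
    exact fm_fin hKh hC₁ hK₁ hK (hjq v) hYV hY1 hD hη hVm (hsplit hg.nice V hV v) b1 (by linarith)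
  · obtain ⟨A, hA, hT2⟩ := T2_hol (d := d) E hε ham'.le
    refine ⟨Kh * C₁ + 0 + Kh * A + 1, by positivity, fun Cl η hη => ?_⟩
    obtain ⟨δa, hδa, hDa⟩ := Pool.Agent.H87.PE.Dn_ge HL.H Cl (half_pos hη)
    refine ⟨δa, hδa, fun δ hδ g hg V hV => ?_⟩
    have hD := hDa δ hδ g hg
    have hV0 : 0 < V := by linarith
    have hYV := YW_nonneg (a := a) (m := m) hV hg.nonneg univ
    have hY1 := YW_nonneg (a := a) (m := m) le_rfl hg.nonneg univ
    have hVm : 0 ≤ V ^ (-1 : ℝ) := Real.rpow_nonneg hV0.le _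
    have hWY : 0 ≤ V ^ (-1 : ℝ) * YW a m 1 g univ := mul_nonneg hVm hY1
    refine ⟨by linarith, fun v => ?_⟩
    have hj0 : 0 ≤ jb v ^ qx a m (kpa s m) := zero_le_one.trans (hjq v)
    have b1 := hk V hV (fun w => T1 e a m (kpa s m) ε V v w) (C₁ * jb v ^ qx a m (kpa s m))
      (mul_nonneg hC₁ hj0) (fun w w' => hT1 e V hV v w w') g hg.nice hg.nonneg
    have b2 := hk V hV (fun w => T2 e a m (kpa s m) ε V v w) A hA
      (fun w w' => hT2 e V hV v w w') g hg.nice hg.nonneg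
    refine fm_fin hKh hC₁ le_rfl (by positivity) (hjq v) hYV hY1 hD hη hVm
      (hsplit hg.nice V hV v) b1 ?_
    have e1 : Kh * (A * YW a m V g univ) = Kh * A * YW a m V g univ := by ring
    have e2 : 0 * Dn (1 + a) b δ g + 0 * (V ^ (-1 : ℝ) * YW a m 1 g univ) = 0 := by ring
    linarith

end Pool.Agent.H71.PX
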