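import Pool.Agent.H71.PX.PovM1
import Pool.Agent.H71.PX.YB
import Pool.Agent.H48.PL.WkI

/-!
# Module PovM: the Povzner inequality on a fiber (copy of PT/PovV)
-/

set_option autoImplicit false

open MeasureTheory Set Filter Topology Pool.Agent.H25.Kin Pool.Agent.H82.BK Pool.Agent.H82.CM
open Pool.Agent.H48.PL Pool.Agent.H48.PI Pool.Agent.H25.PT Pool.Agent.H48.PW

namespace Pool.Agent.H71.PX


variable {d : ℕ} {s a m C Ca cb : ℝ} {b : ℝ → ℝ}

theorem povznerM (HL : HypL d (1 + a) s b C Ca cb) (ha : 0 ≤ a) (ha1 : a ≤ 1) (h1 : 2 * s < m) (hm1 : m ≤ 1) :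
    ∃ δ c₁ C₁ : ℝ, 0 < δ ∧ δ < 1 ∧ 0 < c₁ ∧ 0 ≤ C₁ ∧ ∀ V : ℝ, 1 ≤ V → ∀ g : Vec d → ℝ, Nice g →
      (∀ v, 0 ≤ g v) →
      c₁ * YW a m V g (CmpS δ)ᶜ ≤ (∫ v, boltzQ (1 + a) b g v * phV m V v) + C₁ * YW a m V g (CmpS δ) := by
  classical
  have hs := HL.H.hs
  have hm0 : 0 < m := by linarith
  obtain ⟨δ, c, ε₀, hδ, hδ1, hc, hε₀, hhc⟩ := aincM_hc HL h1 hm1
  obtain ⟨K, hK, habs⟩ := aincM_abs HL h1 hm1
  refine ⟨δ, c / 2, K / 2, hδ, hδ1, by linarith, by linarith, fun V hV g hg hg0 => ?_⟩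
  have hgc : Continuous g := hg.cont
  have hgr : RD g := hg.rd
  have hd := YW_integrable (V := V) ha ha1 hm1 hV hgr hgc
  set D : Vec d × Vec d → ℝ := fun p => dn a m g p * om m V (RR p.1 p.2) with hD
  have hm : MeasurableSet (CmpS δ : Set (Vec d × Vec d)) := measurableSet_CmpS δ
  have i1 : Integrable fun p : Vec d × Vec d => c * (CmpS δ)ᶜ.indicator D p :=
    (hd.indicator hm.compl).const_mul c
  have i2 : Integrable fun p : Vec d × Vec d => K * (CmpS δ).indicator D p :=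
    (hd.indicator hm).const_mul K
  set L : Vec d × Vec d → ℝ := fun p =>
    if p ∈ CmpS δ then -(K * (len (p.1 - p.2) ^ (1 + a) * jb (p.1 - p.2) ^ m * om m V (RR p.1 p.2)))
    else c * (len (p.1 - p.2) ^ (1 + a) * jb (p.1 - p.2) ^ m * om m V (RR p.1 p.2)) with hL
  have hfun : (fun p : Vec d × Vec d => g p.1 * g p.2 * L p) =
      fun p => c * (CmpS δ)ᶜ.indicator D p - K * (CmpS δ).indicator D p := by
    funext p
    by_cases hp : p ∈ CmpS δ
    · have hp' : p ∉ (CmpS δ : Set (Vec d × Vec d))ᶜ := fun h => h hp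
      rw [indicator_of_mem hp, indicator_of_notMem hp']
      simp only [hL, if_pos hp, hD, dn]
      ring
    · have hp' : p ∈ (CmpS δ : Set (Vec d × Vec d))ᶜ := hp
      rw [indicator_of_notMem hp, indicator_of_mem hp']
      simp only [hL, if_neg hp, hD, dn]
      ring
  have hφ : PG (phV m V : Vec d → ℝ) := phV_PG hm0 hm1 hV
  have hφm : Measurable (phV m V : Vec d → ℝ) := (phV_cont hm0 V).measurable
  have key := weak_ge_of HL.H hg hg0 hφ hφm (L := L) (by rw [hfun]; exact i1.sub i2) hε₀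
    (fun ε hε hε1 v w hvw => by
      by_cases hp : (v, w) ∈ (CmpS δ : Set (Vec d × Vec d))
      · simp only [hL, if_pos hp]
        exact (abs_le.1 (habs ε hε V hV v w hvw)).1
      · simp only [hL, if_neg hp]
        exact hhc ε hε hε1 V hV v w hvw hp)
  rw [hfun, integral_sub i1 i2, integral_const_mul, integral_const_mul, integral_indicator hm,
    integral_indicator hm.compl] at key
  change (1 / 2) * (c * YW a m V g (CmpS δ)ᶜ - K * YW a m V g (CmpS δ)) ≤ _ at key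
  linarith



end Pool.Agent.H71.PX
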