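import Pool.Agent.H71.PX.Th0B

/-!
# Module Th0C: the far part `N1` (Hölder of order `m`)

`N1 V = (1 - cu(len V)) Th0 V`, `0 ≤ cu ≤ 1`, `|cu x - cu y| ≤ |x - y|`, `cu x = 1` for `x ≤ 1`. `L = len V`, `J = jb V`; `C₀` from `Th0_abs`, `C₁` from `Th0_diff`. (`E.facts` for the exponents.)
* `N1_abs`: `L ≤ J`, `|N1| ≤ |Th0| ≤ C₀ J^(a+m+κ)`.
* `N1_hol`: the claim is symmetric in `V, V'` (`len (V-V') = len (V'-V)`), so let `len V' ≤ len V`, `h = V' - V`, `r = len h`.
  `L ≤ 1`: both `N1` vanish. Let `L > 1`; then `J ≤ 2L` (`J² = 1 + L² ≤ 2L²`).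
  (i) `2r > L`: `J ≤ 4r`, so `J^m ≤ 4 r^m` (`m ≤ 1`), and `|N1 V|, |N1 V'| ≤ C₀ J^(a+m+κ)` (`jb V' ≤ jb V`, exponent `≥ 0`); `J^(a+κ) ≤ J^q` (`a + κ ≤ q`).
  (ii) `2r ≤ L`: `|N1 V' - N1 V| ≤ |Th0 V' - Th0 V| + r |Th0 V| ≤ C₁ r L^(a-1) J^(m+2κ) + r C₀ L^a J^(m+κ) ≤ C r J^(a-1+m+2κ)` (`J/2 ≤ L ≤ J`, `a - 1 < 0`; `L^a J^(m+κ) ≤ J^(a+m+κ) ≤ J^(a-1+m+2κ)` since `κ ≥ 1`), and also
  `≤ 2 C₀ J^(a+m+κ)`. If `r ≤ J^(1-κ)`: `r = r^m r^(1-m) ≤ r^m J^((1-κ)(1-m))` and `a - 1 + m + 2κ + (1-κ)(1-m) = a + κ + κm = q`.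
  If `r > J^(1-κ)`: `1 ≤ r^m J^((κ-1)m)`, so `J^(a+m+κ) ≤ r^m J^(a+κ+κm) = r^m J^q`.
-/

set_option autoImplicit false

open MeasureTheory Set Filter Topology Pool.Agent.H25.Kin Pool.Agent.H48.PL Pool.Agent.H48.PI

namespace Pool.Agent.H71.PX

variable {d : ℕ} {a m κ ε : ℝ}

private lemma th0c_cu0 (x : ℝ) : 0 ≤ cu x := le_max_left _ _

private lemma th0c_cu1 (x : ℝ) : cu x ≤ 1 := max_le zero_le_one (min_le_left _ _)

private lemma th0c_one {x : ℝ} (h : x ≤ 1) : cu x = 1 := by
  unfold cu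
  rw [min_eq_left (by linarith), max_eq_right zero_le_one]

private lemma th0c_lip (x y : ℝ) : |cu x - cu y| ≤ |x - y| := by
  unfold cu
  refine (abs_max_sub_max_le_max _ _ _ _).trans ?_
  rw [sub_self, abs_zero]
  refine max_le (abs_nonneg _) ?_
  refine (abs_min_sub_min_le_max _ _ _ _).trans ?_
  rw [sub_self, abs_zero]
  refine max_le (abs_nonneg _) ?_
  rw [show (2 - x) - (2 - y) = -(x - y) by ring, abs_neg]

lemma N1_abs (E : EX a m κ) (hε : 0 < ε) : ∃ C : ℝ, 0 ≤ C ∧ ∀ (e : Fin d) (V : Vec d),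
    |N1 e a m κ ε V| ≤ C * jb V ^ (a + m + κ) := by
  refine ⟨1 / (2 * ε), by positivity, fun e V => ?_⟩
  have h1 := Th0_abs (m := m) (κ := κ) E.ha hε e V
  have h2 : |N1 e a m κ ε V| ≤ |Th0 e a m κ ε V| := by
    unfold N1
    rw [abs_mul, abs_of_nonneg (by linarith [th0c_cu1 (len V)])]
    have := th0c_cu0 (len V)
    exact mul_le_of_le_one_left (abs_nonneg _) (by linarith)
  refine h2.trans (h1.trans ?_)
  have h3 : len V ^ a ≤ jb V ^ a := Real.rpow_le_rpow (len_nonneg V) (len_le_jb V) E.ha.le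
  have h4 : 0 ≤ jb V ^ (m + κ) := Real.rpow_nonneg (jb_pos V).le _
  calc 1 / (2 * ε) * (len V ^ a * jb V ^ (m + κ))
      ≤ 1 / (2 * ε) * (jb V ^ a * jb V ^ (m + κ)) :=
        mul_le_mul_of_nonneg_left (mul_le_mul_of_nonneg_right h3 h4) (by positivity)
    _ = 1 / (2 * ε) * jb V ^ (a + m + κ) := by
        rw [← Real.rpow_add (jb_pos V), add_assoc]

private lemma th0c_main (E : EX a m κ) (hε : 0 < ε) : ∃ C : ℝ, 0 ≤ C ∧ ∀ (e : Fin d) (V V' : Vec d),
    len V' ≤ len V → |N1 e a m κ ε V - N1 e a m κ ε V'| ≤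
      C * (jb V ^ qx a m κ * len (V - V') ^ m) := by
  obtain ⟨C₀, hC₀, h0⟩ := N1_abs (d := d) E hε
  obtain ⟨C₁, hC₁, h1⟩ := Th0_diff (d := d) E hε
  obtain ⟨hm0, hm1, ha1, -, -, hqa, hqb, hq0, -, -⟩ := E.facts
  have ha := E.ha
  have hκ := E.hκ
  set D : ℝ := 1 / (2 * ε) with hD
  have hD0 : 0 < D := by positivity
  refine ⟨8 * C₀ + 2 * C₁ + D, by positivity, fun e V V' hle => ?_⟩
  have hJ1 := one_le_jb V
  have hJ0 := jb_pos V
  have hL0 := len_nonneg V
  have hr0 := len_nonneg (V - V')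
  have hJJ : jb V' ≤ jb V := by
    refine le_of_sq_le_sq ?_ hJ0.le
    rw [jb_sq, jb_sq, ← len_sq, ← len_sq]
    have := pow_le_pow_left₀ (len_nonneg V') hle 2
    linarith
  have hJq : 0 < jb V ^ qx a m κ := Real.rpow_pos_of_pos hJ0 _
  have hrm : 0 ≤ len (V - V') ^ m := Real.rpow_nonneg hr0 _
  have hR : 0 ≤ jb V ^ qx a m κ * len (V - V') ^ m := mul_nonneg hJq.le hrm
  rcases le_or_gt (len V) 1 with hL | hL
  · have e1 : N1 e a m κ ε V = 0 := by
      unfold N1
      rw [th0c_one hL, sub_self, zero_mul]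
    have e2 : N1 e a m κ ε V' = 0 := by
      unfold N1
      rw [th0c_one (hle.trans hL), sub_self, zero_mul]
    rw [e1, e2, sub_self, abs_zero]
    positivity
  · have hJL : jb V ≤ 2 * len V := by
      refine le_of_sq_le_sq ?_ (by positivity)
      rw [jb_sq, ← len_sq]
      nlinarith
    -- the trivial bound
    have htriv : |N1 e a m κ ε V - N1 e a m κ ε V'| ≤ 2 * C₀ * jb V ^ (a + m + κ) := by
      refine (abs_sub _ _).trans ?_
      have i1 := h0 e V
      have i2 := h0 e V'
      have i3 : jb V' ^ (a + m + κ) ≤ jb V ^ (a + m + κ) :=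
        Real.rpow_le_rpow (jb_pos V').le hJJ (by linarith)
      have i4 := mul_le_mul_of_nonneg_left i3 hC₀
      linarith
    rcases lt_or_ge (len V) (2 * len (V - V')) with hr | hr
    · -- large distance
      have j1 : jb V ^ m ≤ 4 * len (V - V') ^ m := by
        have k1 : jb V ^ m ≤ (4 * len (V - V')) ^ m :=
          Real.rpow_le_rpow hJ0.le (by linarith) hm0.le
        rw [Real.mul_rpow (by norm_num) hr0] at k1
        have k2 : (4 : ℝ) ^ m ≤ 4 := by
          have := Real.rpow_le_rpow_of_exponent_le (show (1 : ℝ) ≤ 4 by norm_num) hm1.le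
          rwa [Real.rpow_one] at this
        exact k1.trans (mul_le_mul_of_nonneg_right k2 hrm)
      have j2 : jb V ^ (a + κ) ≤ jb V ^ qx a m κ := Real.rpow_le_rpow_of_exponent_le hJ1 hqb
      have j3 : jb V ^ (a + m + κ) = jb V ^ (a + κ) * jb V ^ m := by
        rw [← Real.rpow_add hJ0]
        congr 1
        ring
      refine htriv.trans ?_
      rw [j3]
      have j4 : jb V ^ (a + κ) * jb V ^ m ≤ jb V ^ qx a m κ * (4 * len (V - V') ^ m) :=
        mul_le_mul j2 j1 (Real.rpow_nonneg hJ0.le _) hJq.le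
      have j5 := mul_le_mul_of_nonneg_left j4 (show 0 ≤ 2 * C₀ by positivity)
      have j6 : 0 ≤ (2 * C₁ + D) * (jb V ^ qx a m κ * len (V - V') ^ m) := by positivity
      nlinarith
    · -- small distance
      have hlh : len (V' - V) = len (V - V') := by rw [← len_neg, neg_sub]
      have k0 := h1 e V (V' - V) (by rw [hlh]; exact hr)
      rw [add_sub_cancel, hlh] at k0
      have k1 : |N1 e a m κ ε V - N1 e a m κ ε V'| ≤
          |Th0 e a m κ ε V' - Th0 e a m κ ε V| + len (V - V') * |Th0 e a m κ ε V| := by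
        have e1 : N1 e a m κ ε V - N1 e a m κ ε V' =
            -((1 - cu (len V')) * (Th0 e a m κ ε V' - Th0 e a m κ ε V)) +
              (cu (len V') - cu (len V)) * Th0 e a m κ ε V := by
          unfold N1
          ring
        rw [e1]
        refine (abs_add_le _ _).trans ?_
        rw [abs_neg, abs_mul, abs_mul]
        refine add_le_add ?_ ?_
        · rw [abs_of_nonneg (by linarith [th0c_cu1 (len V')])]
          exact mul_le_of_le_one_left (abs_nonneg _) (by linarith [th0c_cu0 (len V')])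
        · refine mul_le_mul_of_nonneg_right ((th0c_lip _ _).trans ?_) (abs_nonneg _)
          rw [abs_le]
          have i1 := len_le_add_sub V V'
          constructor <;> linarith
      have k2 := Th0_abs (m := m) (κ := κ) ha hε e V
      rw [← hD] at k2
      have hp : 0 ≤ jb V ^ (a - 1 + m + 2 * κ) := Real.rpow_nonneg hJ0.le _
      have k3 : len V ^ (a - 1) * jb V ^ (m + 2 * κ) ≤ 2 * jb V ^ (a - 1 + m + 2 * κ) := by
        have i1 : len V ^ (a - 1) ≤ (jb V / 2) ^ (a - 1) :=
          Real.rpow_le_rpow_of_nonpos (by positivity) (by linarith) (by linarith)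
        have i2 : (jb V / 2) ^ (a - 1) ≤ 2 * jb V ^ (a - 1) := by
          rw [Real.div_rpow hJ0.le (by norm_num), div_eq_mul_inv, ← Real.rpow_neg (by norm_num),
            mul_comm]
          refine mul_le_mul_of_nonneg_right ?_ (Real.rpow_nonneg hJ0.le _)
          have := Real.rpow_le_rpow_of_exponent_le (show (1 : ℝ) ≤ 2 by norm_num)
            (show -(a - 1) ≤ 1 by linarith)
          rwa [Real.rpow_one] at this
        have i3 : jb V ^ (a - 1 + m + 2 * κ) = jb V ^ (a - 1) * jb V ^ (m + 2 * κ) := by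
          rw [← Real.rpow_add hJ0]
          congr 1
          ring
        rw [i3, ← mul_assoc]
        exact mul_le_mul_of_nonneg_right (i1.trans i2) (Real.rpow_nonneg hJ0.le _)
      have k4 : len V ^ a * jb V ^ (m + κ) ≤ jb V ^ (a - 1 + m + 2 * κ) := by
        have i1 : len V ^ a ≤ jb V ^ a := Real.rpow_le_rpow hL0 (len_le_jb V) ha.le
        have i2 : jb V ^ a * jb V ^ (m + κ) = jb V ^ (a + m + κ) := by
          rw [← Real.rpow_add hJ0, add_assoc]
        refine (mul_le_mul_of_nonneg_right i1 (Real.rpow_nonneg hJ0.le _)).trans ?_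
        rw [i2]
        exact Real.rpow_le_rpow_of_exponent_le hJ1 (by linarith)
      have k5 : |N1 e a m κ ε V - N1 e a m κ ε V'| ≤
          (2 * C₁ + D) * (len (V - V') * jb V ^ (a - 1 + m + 2 * κ)) := by
        have i1 := mul_le_mul_of_nonneg_left (mul_le_mul_of_nonneg_left k3 hr0) hC₁
        have i2 := mul_le_mul_of_nonneg_left k2 hr0
        have i3 := mul_le_mul_of_nonneg_left (mul_le_mul_of_nonneg_left k4 hD0.le) hr0
        linarith
      rcases le_or_gt (len (V - V')) (jb V ^ (1 - κ)) with hs | hs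
      · have i1 : len (V - V') * jb V ^ (a - 1 + m + 2 * κ) ≤
            jb V ^ qx a m κ * len (V - V') ^ m := by
          rcases hr0.eq_or_lt with h | h
          · rw [← h, zero_mul]
            rw [← h] at hR
            exact hR
          · have j1 : len (V - V') = len (V - V') ^ m * len (V - V') ^ (1 - m) := by
              rw [← Real.rpow_add h, add_sub_cancel, Real.rpow_one]
            have j2 : len (V - V') ^ (1 - m) ≤ jb V ^ ((1 - κ) * (1 - m)) := by
              rw [Real.rpow_mul hJ0.le]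
              exact Real.rpow_le_rpow hr0 hs (by linarith)
            have j3 : jb V ^ qx a m κ =
                jb V ^ ((1 - κ) * (1 - m)) * jb V ^ (a - 1 + m + 2 * κ) := by
              rw [← Real.rpow_add hJ0]
              congr 1
              unfold qx
              ring
            calc len (V - V') * jb V ^ (a - 1 + m + 2 * κ)
                = len (V - V') ^ m * len (V - V') ^ (1 - m) * jb V ^ (a - 1 + m + 2 * κ) := by
                  rw [← j1]
              _ ≤ len (V - V') ^ m * jb V ^ ((1 - κ) * (1 - m)) *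
                    jb V ^ (a - 1 + m + 2 * κ) :=
                  mul_le_mul_of_nonneg_right (mul_le_mul_of_nonneg_left j2 hrm) hp
              _ = jb V ^ qx a m κ * len (V - V') ^ m := by
                  rw [j3]
                  ring
        refine k5.trans ((mul_le_mul_of_nonneg_left i1 (by positivity)).trans ?_)
        have i2 : 0 ≤ (8 * C₀) * (jb V ^ qx a m κ * len (V - V') ^ m) := by positivity
        nlinarith
      · have i1 : jb V ^ (a + m + κ) ≤ jb V ^ qx a m κ * len (V - V') ^ m := by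
          have j1 : jb V ^ ((1 - κ) * m) ≤ len (V - V') ^ m := by
            rw [Real.rpow_mul hJ0.le]
            exact Real.rpow_le_rpow (Real.rpow_nonneg hJ0.le _) hs.le hm0.le
          have j2 : jb V ^ (a + m + κ) = jb V ^ qx a m κ * jb V ^ ((1 - κ) * m) := by
            rw [← Real.rpow_add hJ0]
            congr 1
            unfold qx
            ring
          rw [j2]
          exact mul_le_mul_of_nonneg_left j1 hJq.le
        refine htriv.trans ((mul_le_mul_of_nonneg_left i1 (by positivity)).trans ?_)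
        have i2 : 0 ≤ (6 * C₀ + 2 * C₁ + D) * (jb V ^ qx a m κ * len (V - V') ^ m) := by
          positivity
        nlinarith

theorem N1_hol (E : EX a m κ) (hε : 0 < ε) : ∃ C : ℝ, 0 ≤ C ∧ ∀ (e : Fin d) (V V' : Vec d),
    |N1 e a m κ ε V - N1 e a m κ ε V'| ≤
      C * (max (jb V) (jb V') ^ qx a m κ * len (V - V') ^ m) := by
  obtain ⟨C, hC, h⟩ := th0c_main (d := d) E hε
  have hq0 : 0 ≤ qx a m κ := E.facts.2.2.2.2.2.2.2.1
  refine ⟨C, hC, fun e V V' => ?_⟩
  have hmono : ∀ W : Vec d, jb W ≤ max (jb V) (jb V') →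
      C * (jb W ^ qx a m κ * len (V - V') ^ m) ≤
        C * (max (jb V) (jb V') ^ qx a m κ * len (V - V') ^ m) := by
    intro W hW
    refine mul_le_mul_of_nonneg_left (mul_le_mul_of_nonneg_right ?_
      (Real.rpow_nonneg (len_nonneg _) _)) hC
    exact Real.rpow_le_rpow (jb_pos W).le hW hq0
  rcases le_total (len V') (len V) with hle | hle
  · exact (h e V V' hle).trans (hmono V (le_max_left _ _))
  · have h1 := h e V' V hle
    rw [abs_sub_comm, ← len_neg, neg_sub] at h1
    exact h1.trans (hmono V' (le_max_right _ _))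

end Pool.Agent.H71.PX
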