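import Pool.Agent.H71.PX.Th0B

/-!
# Module Th0D: the near part `N2` (a cusp of order `a` at `0`)

`N2 V = cu(len V) Th0 V`, `0 ≤ cu ≤ 1`, `|cu x - cu y| ≤ |x - y|`, `cu x = 0` for `x ≥ 2`. `L = len V`; `C₀` from `Th0_abs`, `C₁` from `Th0_diff`.
* `N2_abs`: `N2 V = 0` for `L ≥ 2`; for `L ≤ 2`: `jb V ≤ 1 + L ≤ 3`, `|N2 V| ≤ C L^a ≤ 2C`.
* (D) if `2 r ≤ L`, `r = len h`, `V' = V + h`: `|N2 V' - N2 V| ≤ C r L^(a-1)`: if `L ≥ 4` both vanish (`len V' ≥ L/2`); if `L < 4`: `jb V ≤ 5`,
  `|N2 V' - N2 V| ≤ |Th0 V' - Th0 V| + r |Th0 V| ≤ C r L^(a-1) + C r L^a`, `L^a ≤ 4 L^(a-1)`.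
* `N2_hol`: symmetric in `V, V'`; let `len V' ≤ len V`, `r = len (V - V')`. `2r > L`: `|N2 V| + |N2 V'| ≤ C L^a ≤ 2 C r^a` (`N2 V = 0` for `L ≥ 2`, `|N2 V| ≤ C L^a` else). `2r ≤ L`: (D) and
  `r L^(a-1) = r^a (r/L)^(1-a) ≤ r^a` (`V ≠ 0`; if `V = 0` then `r = 0`, `V' = V`).
* `N2_cusp`: `L > 0`, `h = V' - V`, `r = len h`, `a ≤ σ ≤ 1`. `2r > L`: `N2_hol` and `r^a = r^σ r^(a-σ) ≤ r^σ (L/2)^(a-σ) ≤ 2 r^σ L^(a-σ)` (`a - σ ∈ [-1,0]`).
  `2r ≤ L`: (D) and `r L^(a-1) = r^σ r^(1-σ) L^(a-1) ≤ r^σ L^(a-σ)`.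
-/

set_option autoImplicit false

open MeasureTheory Set Filter Topology Pool.Agent.H25.Kin Pool.Agent.H48.PL Pool.Agent.H48.PI

namespace Pool.Agent.H71.PX

variable {d : ℕ} {a m κ ε : ℝ}

lemma n2d_cu_nonneg (x : ℝ) : 0 ≤ cu x := le_max_left _ _

lemma n2d_cu_le (x : ℝ) : cu x ≤ 1 := max_le zero_le_one (min_le_left _ _)

lemma n2d_cu_zero {x : ℝ} (h : 2 ≤ x) : cu x = 0 := by
  unfold cu
  exact max_eq_left ((min_le_right _ _).trans (by linarith))

lemma n2d_cu_lip (x y : ℝ) : |cu x - cu y| ≤ |x - y| := by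
  have key : ∀ x y : ℝ, cu x - cu y ≤ |x - y| := by
    intro x y
    have h1 := neg_abs_le (x - y)
    have h0 := abs_nonneg (x - y)
    have h3 : (0 : ℝ) ≤ max 0 (min 1 (2 - y)) := le_max_left _ _
    have h4 : min 1 (2 - y) ≤ max 0 (min 1 (2 - y)) := le_max_right _ _
    unfold cu
    rw [sub_le_iff_le_add]
    refine max_le (by linarith) ?_
    rcases le_total 1 (2 - y) with h | h
    · rw [min_eq_left h] at h4
      have h5 : min 1 (2 - x) ≤ 1 := min_le_left _ _
      linarith [min_eq_left h, h4, (min_eq_left h).symm ▸ h4]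
    · rw [min_eq_right h] at h4
      have h5 : min 1 (2 - x) ≤ 2 - x := min_le_right _ _
      rw [min_eq_right h]
      linarith
  rw [abs_le]
  constructor
  · have := key y x
    rw [abs_sub_comm] at this
    linarith
  · exact key x y

lemma n2d_jb_le (V : Vec d) : jb V ≤ 1 + len V := by
  have h1 := jb_sq V
  have h2 := len_sq V
  have h3 := len_nonneg V
  have h4 := jb_pos V
  by_contra h
  push Not at h
  nlinarith

lemma n2d_abs (ha : 0 < a) (hmκ : 0 ≤ m + κ) (hε : 0 < ε) (e : Fin d) (V : Vec d) :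
    |N2 e a m κ ε V| ≤ 1 / (2 * ε) * 5 ^ (m + κ) * len V ^ a := by
  have hL := len_nonneg V
  have hLa : 0 ≤ len V ^ a := Real.rpow_nonneg hL _
  have hB : 0 ≤ 1 / (2 * ε) * (5 : ℝ) ^ (m + κ) := by positivity
  unfold N2
  rcases le_total 2 (len V) with h | h
  · rw [n2d_cu_zero h, zero_mul, abs_zero]
    positivity
  · rw [abs_mul, abs_of_nonneg (n2d_cu_nonneg _)]
    have h1 := Th0_abs (m := m) (κ := κ) ha hε e V
    have h2 : jb V ^ (m + κ) ≤ 5 ^ (m + κ) :=
      Real.rpow_le_rpow (jb_pos V).le (by linarith [n2d_jb_le V]) hmκ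
    calc cu (len V) * |Th0 e a m κ ε V| ≤ 1 * |Th0 e a m κ ε V| :=
          mul_le_mul_of_nonneg_right (n2d_cu_le _) (abs_nonneg _)
      _ = |Th0 e a m κ ε V| := one_mul _
      _ ≤ 1 / (2 * ε) * (len V ^ a * jb V ^ (m + κ)) := h1
      _ ≤ 1 / (2 * ε) * (len V ^ a * 5 ^ (m + κ)) := by
          refine mul_le_mul_of_nonneg_left (mul_le_mul_of_nonneg_left h2 hLa) (by positivity)
      _ = _ := by ring

lemma n2d_diff (ha : 0 < a) (hmκ : 0 ≤ m + κ) (hκ : 0 ≤ κ) (hε : 0 < ε) {C₁ : ℝ} (hC₁ : 0 ≤ C₁)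
    (e : Fin d) {V V' : Vec d} (hV : V ≠ 0) (hr : 2 * len (V - V') ≤ len V)
    (H : ∀ h : Vec d, 2 * len h ≤ len V → |Th0 e a m κ ε (V + h) - Th0 e a m κ ε V| ≤
      C₁ * (len h * (len V ^ (a - 1) * jb V ^ (m + 2 * κ)))) :
    |N2 e a m κ ε V - N2 e a m κ ε V'| ≤
      (C₁ * 5 ^ (m + 2 * κ) + 4 * (1 / (2 * ε) * 5 ^ (m + κ))) * (len (V - V') * len V ^ (a - 1)) := by
  have hL : 0 < len V := len_pos hV
  have hr0 : 0 ≤ len (V - V') := len_nonneg _
  have hLa : 0 < len V ^ (a - 1) := Real.rpow_pos_of_pos hL _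
  have hK1 : (0 : ℝ) < 5 ^ (m + κ) := by positivity
  have hK2 : (0 : ℝ) < 5 ^ (m + 2 * κ) := by positivity
  have hrr : len (V' - V) = len (V - V') := len_comm _ _
  have hd1 := len_le_add_sub V V'
  have hd2 := len_le_add_sub V' V
  rw [hrr] at hd2
  have hdl : |len V' - len V| ≤ len (V - V') := by
    rw [abs_le]; constructor <;> linarith
  rcases le_total 4 (len V) with h4 | h4
  · have e1 : N2 e a m κ ε V = 0 := by
      unfold N2
      rw [n2d_cu_zero (by linarith), zero_mul]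
    have e2 : N2 e a m κ ε V' = 0 := by
      unfold N2
      rw [n2d_cu_zero (by linarith), zero_mul]
    rw [e1, e2, sub_zero, abs_zero]
    positivity
  · have hJ := n2d_jb_le V
    have hJ0 := jb_pos V
    have hj1 : jb V ^ (m + κ) ≤ 5 ^ (m + κ) :=
      Real.rpow_le_rpow hJ0.le (by linarith) hmκ
    have hj2 : jb V ^ (m + 2 * κ) ≤ 5 ^ (m + 2 * κ) :=
      Real.rpow_le_rpow hJ0.le (by linarith) (by linarith)
    have h1 := H (V' - V) (by rw [hrr]; exact hr)
    rw [add_sub_cancel, hrr] at h1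
    have h2 := Th0_abs (m := m) (κ := κ) ha hε e V
    have hsplit : N2 e a m κ ε V - N2 e a m κ ε V' =
        -(cu (len V') * (Th0 e a m κ ε V' - Th0 e a m κ ε V)) -
          (cu (len V') - cu (len V)) * Th0 e a m κ ε V := by
      unfold N2
      ring
    have hA : |cu (len V') * (Th0 e a m κ ε V' - Th0 e a m κ ε V)| ≤
        C₁ * 5 ^ (m + 2 * κ) * (len (V - V') * len V ^ (a - 1)) := by
      rw [abs_mul, abs_of_nonneg (n2d_cu_nonneg _)]
      calc cu (len V') * |Th0 e a m κ ε V' - Th0 e a m κ ε V|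
          ≤ 1 * |Th0 e a m κ ε V' - Th0 e a m κ ε V| :=
            mul_le_mul_of_nonneg_right (n2d_cu_le _) (abs_nonneg _)
        _ = |Th0 e a m κ ε V' - Th0 e a m κ ε V| := one_mul _
        _ ≤ C₁ * (len (V - V') * (len V ^ (a - 1) * jb V ^ (m + 2 * κ))) := h1
        _ ≤ C₁ * (len (V - V') * (len V ^ (a - 1) * 5 ^ (m + 2 * κ))) := by
            refine mul_le_mul_of_nonneg_left (mul_le_mul_of_nonneg_left
              (mul_le_mul_of_nonneg_left hj2 hLa.le) hr0) hC₁
        _ = _ := by ring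
    have hB : |(cu (len V') - cu (len V)) * Th0 e a m κ ε V| ≤
        4 * (1 / (2 * ε) * 5 ^ (m + κ)) * (len (V - V') * len V ^ (a - 1)) := by
      have hLL : len V ^ a = len V * len V ^ (a - 1) := by
        rw [← Real.rpow_one_add' hL.le (by linarith)]
        ring_nf
      rw [abs_mul]
      calc |cu (len V') - cu (len V)| * |Th0 e a m κ ε V|
          ≤ len (V - V') * (1 / (2 * ε) * (len V ^ a * jb V ^ (m + κ))) :=
            mul_le_mul ((n2d_cu_lip _ _).trans hdl) h2 (abs_nonneg _) hr0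
        _ ≤ len (V - V') * (1 / (2 * ε) * ((4 * len V ^ (a - 1)) * 5 ^ (m + κ))) := by
            refine mul_le_mul_of_nonneg_left (mul_le_mul_of_nonneg_left
              (mul_le_mul ?_ hj1 (Real.rpow_nonneg hJ0.le _) (by positivity)) (by positivity)) hr0
            rw [hLL]
            exact mul_le_mul_of_nonneg_right h4 hLa.le
        _ = _ := by ring
    rw [hsplit]
    calc |-(cu (len V') * (Th0 e a m κ ε V' - Th0 e a m κ ε V)) -
          (cu (len V') - cu (len V)) * Th0 e a m κ ε V|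
        ≤ |-(cu (len V') * (Th0 e a m κ ε V' - Th0 e a m κ ε V))| +
          |(cu (len V') - cu (len V)) * Th0 e a m κ ε V| := abs_sub _ _
      _ ≤ _ := by
          rw [abs_neg, add_mul]
          exact add_le_add hA hB

theorem N2_all (E : EX a m κ) (hε : 0 < ε) : ∃ C : ℝ, 0 ≤ C ∧
    (∀ (e : Fin d) (V : Vec d), |N2 e a m κ ε V| ≤ C) ∧
    (∀ (e : Fin d) (V V' : Vec d), |N2 e a m κ ε V - N2 e a m κ ε V'| ≤ C * len (V - V') ^ a) ∧
    (∀ σ : ℝ, a ≤ σ → σ ≤ 1 → ∀ (e : Fin d) (V V' : Vec d), V ≠ 0 →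
      |N2 e a m κ ε V - N2 e a m κ ε V'| ≤ C * (len (V - V') ^ σ * (1 + len V ^ (a - σ)))) := by
  obtain ⟨C₁, hC₁, H1⟩ := Th0_diff (d := d) E hε
  obtain ⟨hm, hm1, ha1, ham, hamk, -, -, -, -, hk2⟩ := E.facts
  have ha := E.ha
  have hκ := E.hκ
  have hmκ : 0 ≤ m + κ := by linarith
  set B : ℝ := 1 / (2 * ε) * 5 ^ (m + κ) with hBdef
  set D : ℝ := C₁ * 5 ^ (m + 2 * κ) + 4 * B with hDdef
  have hB : 0 ≤ B := by positivity
  have hD : 0 ≤ D := by positivity
  have hA : ∀ (e : Fin d) (V : Vec d), |N2 e a m κ ε V| ≤ B * len V ^ a :=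
    fun e V => n2d_abs ha hmκ hε e V
  have hDf : ∀ (e : Fin d) (V V' : Vec d), V ≠ 0 → 2 * len (V - V') ≤ len V →
      |N2 e a m κ ε V - N2 e a m κ ε V'| ≤ D * (len (V - V') * len V ^ (a - 1)) :=
    fun e V V' hV hr => n2d_diff ha hmκ (by linarith) hε hC₁ e hV hr fun h hh => H1 e V h hh
  have h2a : (2 : ℝ) ^ a ≤ 2 := by
    calc (2 : ℝ) ^ a ≤ 2 ^ (1 : ℝ) := Real.rpow_le_rpow_of_exponent_le (by norm_num) ha1.le
      _ = 2 := Real.rpow_one 2
  -- Hoelder
  have hHo : ∀ (e : Fin d) (V V' : Vec d), len V' ≤ len V →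
      |N2 e a m κ ε V - N2 e a m κ ε V'| ≤ (4 * B + D) * len (V - V') ^ a := by
    intro e V V' hle
    have hL := len_nonneg V
    have hL' := len_nonneg V'
    have hr0 := len_nonneg (V - V')
    have hra : 0 ≤ len (V - V') ^ a := Real.rpow_nonneg hr0 _
    rcases lt_or_ge (len V) (2 * len (V - V')) with h | h
    · have h1 : len V ^ a ≤ 2 * len (V - V') ^ a := by
        calc len V ^ a ≤ (2 * len (V - V')) ^ a := Real.rpow_le_rpow hL h.le ha.le
          _ = 2 ^ a * len (V - V') ^ a := Real.mul_rpow (by norm_num) hr0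
          _ ≤ 2 * len (V - V') ^ a := mul_le_mul_of_nonneg_right h2a hra
      have h2 : len V' ^ a ≤ len V ^ a := Real.rpow_le_rpow hL' hle ha.le
      have h3 : B * len V ^ a ≤ B * (2 * len (V - V') ^ a) := mul_le_mul_of_nonneg_left h1 hB
      have h4 : B * len V' ^ a ≤ B * len V ^ a := mul_le_mul_of_nonneg_left h2 hB
      calc |N2 e a m κ ε V - N2 e a m κ ε V'| ≤ |N2 e a m κ ε V| + |N2 e a m κ ε V'| := abs_sub _ _
        _ ≤ B * len V ^ a + B * len V' ^ a := add_le_add (hA e V) (hA e V')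
        _ ≤ 4 * B * len (V - V') ^ a := by linarith
        _ ≤ (4 * B + D) * len (V - V') ^ a :=
            mul_le_mul_of_nonneg_right (by linarith) hra
    · by_cases hV : V = 0
      · have hV0 : len V = 0 := by rw [hV]; exact len_zero
        have hV' : V' = 0 := by
          by_contra h'
          have := len_pos h'
          linarith
        rw [hV, hV', sub_self, abs_zero]
        exact mul_nonneg (by positivity) (Real.rpow_nonneg (len_nonneg _) _)
      · have hLp := len_pos hV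
        have h1 := hDf e V V' hV h
        have h2 : len (V - V') * len V ^ (a - 1) ≤ len (V - V') ^ a := by
          rcases hr0.eq_or_lt with h0 | h0
          · rw [← h0, zero_mul]
            exact Real.rpow_nonneg le_rfl _
          · calc len (V - V') * len V ^ (a - 1) ≤ len (V - V') * len (V - V') ^ (a - 1) := by
                  refine mul_le_mul_of_nonneg_left ?_ hr0
                  exact Real.rpow_le_rpow_of_nonpos h0 (by linarith) (by linarith)
              _ = len (V - V') ^ a := by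
                  rw [← Real.rpow_one_add' hr0 (by linarith)]
                  ring_nf
        calc |N2 e a m κ ε V - N2 e a m κ ε V'| ≤ D * (len (V - V') * len V ^ (a - 1)) := h1
          _ ≤ D * len (V - V') ^ a := mul_le_mul_of_nonneg_left h2 hD
          _ ≤ (4 * B + D) * len (V - V') ^ a := mul_le_mul_of_nonneg_right (by linarith) hra
  have hHo' : ∀ (e : Fin d) (V V' : Vec d),
      |N2 e a m κ ε V - N2 e a m κ ε V'| ≤ (4 * B + D) * len (V - V') ^ a := by
    intro e V V'
    rcases le_total (len V') (len V) with h | h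
    · exact hHo e V V' h
    · rw [abs_sub_comm, len_comm]
      exact hHo e V' V h
  refine ⟨2 * (4 * B + D), by positivity, ?_, ?_, ?_⟩
  · intro e V
    rcases le_total 2 (len V) with h | h
    · have e1 : N2 e a m κ ε V = 0 := by
        unfold N2
        rw [n2d_cu_zero h, zero_mul]
      rw [e1, abs_zero]
      positivity
    · have h1 : len V ^ a ≤ 2 :=
        (Real.rpow_le_rpow (len_nonneg V) h ha.le).trans h2a
      have h2 := hA e V
      have h3 : B * len V ^ a ≤ B * 2 := mul_le_mul_of_nonneg_left h1 hB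
      linarith
  · intro e V V'
    have hra : 0 ≤ len (V - V') ^ a := Real.rpow_nonneg (len_nonneg _) _
    refine (hHo' e V V').trans (mul_le_mul_of_nonneg_right (by linarith) hra)
  · intro σ hσ hσ1 e V V' hV
    have hL := len_pos hV
    have hr0 := len_nonneg (V - V')
    have hLs : 0 < len V ^ (a - σ) := Real.rpow_pos_of_pos hL _
    have hrs : 0 ≤ len (V - V') ^ σ := Real.rpow_nonneg hr0 _
    have hprod : 0 ≤ len (V - V') ^ σ * len V ^ (a - σ) := mul_nonneg hrs hLs.le
    have hfin : len (V - V') ^ σ * len V ^ (a - σ) ≤ len (V - V') ^ σ * (1 + len V ^ (a - σ)) :=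
      mul_le_mul_of_nonneg_left (by linarith) hrs
    rcases lt_or_ge (len V) (2 * len (V - V')) with h | h
    · have hrp : 0 < len (V - V') := by linarith
      have h1 : len (V - V') ^ a ≤ 2 * (len (V - V') ^ σ * len V ^ (a - σ)) := by
        have e1 : len (V - V') ^ a = len (V - V') ^ σ * len (V - V') ^ (a - σ) := by
          rw [← Real.rpow_add hrp]
          ring_nf
        have e2 : len (V - V') ^ (a - σ) ≤ (len V / 2) ^ (a - σ) :=
          Real.rpow_le_rpow_of_nonpos (by linarith) (by linarith) (by linarith)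
        have e3 : (len V / 2) ^ (a - σ) = len V ^ (a - σ) * 2 ^ (σ - a) := by
          rw [Real.div_rpow hL.le (by norm_num), div_eq_mul_inv, ← Real.rpow_neg (by norm_num)]
          ring_nf
        have e4 : (2 : ℝ) ^ (σ - a) ≤ 2 := by
          calc (2 : ℝ) ^ (σ - a) ≤ 2 ^ (1 : ℝ) :=
                Real.rpow_le_rpow_of_exponent_le (by norm_num) (by linarith)
            _ = 2 := Real.rpow_one 2
        have e5 : len (V - V') ^ (a - σ) ≤ len V ^ (a - σ) * 2 := by
          rw [e3] at e2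
          exact e2.trans (mul_le_mul_of_nonneg_left e4 hLs.le)
        calc len (V - V') ^ a = len (V - V') ^ σ * len (V - V') ^ (a - σ) := e1
          _ ≤ len (V - V') ^ σ * (len V ^ (a - σ) * 2) := mul_le_mul_of_nonneg_left e5 hrs
          _ = _ := by ring
      calc |N2 e a m κ ε V - N2 e a m κ ε V'| ≤ (4 * B + D) * len (V - V') ^ a := hHo' e V V'
        _ ≤ (4 * B + D) * (2 * (len (V - V') ^ σ * len V ^ (a - σ))) :=
            mul_le_mul_of_nonneg_left h1 (by positivity)
        _ = 2 * (4 * B + D) * (len (V - V') ^ σ * len V ^ (a - σ)) := by ring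
        _ ≤ _ := mul_le_mul_of_nonneg_left hfin (by positivity)
    · have h1 : len (V - V') * len V ^ (a - 1) ≤ len (V - V') ^ σ * len V ^ (a - σ) := by
        rcases hr0.eq_or_lt with h0 | h0
        · rw [← h0, zero_mul]
          exact mul_nonneg (Real.rpow_nonneg le_rfl _) hLs.le
        · have e1 : len (V - V') = len (V - V') ^ σ * len (V - V') ^ (1 - σ) := by
            rw [← Real.rpow_add h0]
            norm_num
          have e2 : len (V - V') ^ (1 - σ) ≤ len V ^ (1 - σ) :=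
            Real.rpow_le_rpow hr0 (by linarith) (by linarith)
          have e3 : len V ^ (1 - σ) * len V ^ (a - 1) = len V ^ (a - σ) := by
            rw [← Real.rpow_add hL]
            ring_nf
          calc len (V - V') * len V ^ (a - 1)
              = len (V - V') ^ σ * len (V - V') ^ (1 - σ) * len V ^ (a - 1) := by rw [← e1]
            _ ≤ len (V - V') ^ σ * len V ^ (1 - σ) * len V ^ (a - 1) :=
                mul_le_mul_of_nonneg_right (mul_le_mul_of_nonneg_left e2 hrs)
                  (Real.rpow_nonneg hL.le _)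
            _ = len (V - V') ^ σ * len V ^ (a - σ) := by rw [mul_assoc, e3]
      calc |N2 e a m κ ε V - N2 e a m κ ε V'| ≤ D * (len (V - V') * len V ^ (a - 1)) :=
            hDf e V V' hV h
        _ ≤ D * (len (V - V') ^ σ * len V ^ (a - σ)) := mul_le_mul_of_nonneg_left h1 hD
        _ ≤ 2 * (4 * B + D) * (len (V - V') ^ σ * len V ^ (a - σ)) :=
            mul_le_mul_of_nonneg_right (by linarith) hprod
        _ ≤ _ := mul_le_mul_of_nonneg_left hfin (by positivity)

end Pool.Agent.H71.PX
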