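import Pool.Agent.H71.PX.Th0C
import Pool.Agent.H71.PX.SmA

/-!
# Module ThM1: the far part `T1(v,·)` is Hölder of order `m` with constant `C ⟨v⟩^q`

`j = jb v`, `k = jb w`, `k' = jb w'`, `U = v - w`, `U' = v - w'`, `h = U - U' = w' - w`, `r = len (w-w')`, `|k - k'| ≤ r` (`jb_lip`), `jb U ≤ j + k` (`jb U² = 1+|U|² ≤ (j+k)²`).
`p = a + m + κ ∈ [0,2]`, `q = qx a m κ ∈ [0,2)`, `p ≤ q`, `a + κ ≤ q` (`E.facts`). `C₀` from `N1_abs`, `C₁` from `N1_hol`. The claim is symmetric in `w, w'`: let `k' ≤ k`.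
`T1(w) - T1(w') = Sm(j,k') (N1 U - N1 U') + (Sm(j,k) - Sm(j,k')) N1 U`.
(i) `k ≤ 2j`: `jb U, jb U' ≤ 3j`; first term `≤ om(min j k') C₁ (3j)^q r^m`; second `≤ 6 om(min j k) (|k-k'|/j) C₀ (3j)^p` (`Sm_lip`), and
  `|k-k'| = |k-k'|^m |k-k'|^(1-m) ≤ r^m (2j)^(1-m)` (`|k-k'| ≤ k ≤ 2j`), so it is `≤ C om(min j k) r^m j^(p-m)`, `p - m = a + κ ≤ q`.
(ii) `2j < k ≤ 8r`: `|T1(w)| ≤ Sm(j,k) C₀ (2 max j k)^p ≤ C om(min j k) j^p` (`Sm_pow`, `jb U ≤ j+k ≤ 2 max j k`), the same for `w'`; `j^p = j^(a+κ) j^m ≤ j^q (8r)^m`.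
(iii) `2j < k`, `8r < k`: `k' ≥ k - r ≥ 7k/8 ≥ j`, `k ≤ 2k'`, `jb U, jb U' ≤ 2k`. `Sm(j,k') = (j/k')² om(j) ≤ 2 (j/k)² om(j)`, first term `≤ 2 om(j) j² k^(-2) C₁ (2k)^q r^m ≤ C om(j) j^q r^m` (`k^(q-2) ≤ j^(q-2)`);
  second `≤ 8 j² om(j) (|k-k'|/k³) C₀ (2k)^p` (`Sm_lip2`), `|k-k'| ≤ r^m k^(1-m)`, so `≤ C om(j) j² k^(p-m-2) r^m ≤ C om(j) j^(a+κ) r^m` (`p - m - 2 = a + κ - 2 < 0`, `k ≥ j`).
Finally `om(min j k'), om(min j k), om(j) ≤ om(k) = om(max k k')` (`om_mono`; in (iii) `j ≤ k`), and `j^(a+κ) ≤ j^q` (`j ≥ 1`).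
-/

set_option autoImplicit false

open MeasureTheory Set Filter Topology Pool.Agent.H25.Kin Pool.Agent.H48.PL Pool.Agent.H48.PI
open Pool.Agent.H25.PT

namespace Pool.Agent.H71.PX

variable {d : ℕ} {a m κ ε : ℝ}

private lemma thm1_jb (v w : Vec d) : jb (v - w) ≤ jb v + jb w := by
  have h1 := one_le_jb v
  have h2 := one_le_jb w
  refine le_of_sq_le_sq ?_ (by linarith)
  have h3 := len_sub_le v w
  have h4 : len (v - w) ^ 2 ≤ (len v + len w) ^ 2 := pow_le_pow_left₀ (len_nonneg _) h3 2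
  have h5 := len_le_jb v
  have h6 := len_le_jb w
  have h7 : len v * len w ≤ jb v * jb w := mul_le_mul h5 h6 (len_nonneg _) (jb_pos v).le
  have h8 : (jb v + jb w) ^ 2 = jb v ^ 2 + jb w ^ 2 + 2 * (jb v * jb w) := by ring
  rw [h8, jb_sq, jb_sq, jb_sq, ← len_sq, ← len_sq, ← len_sq]
  nlinarith

private lemma thm1_interp {x r y m : ℝ} (hm : 0 < m) (hm1 : m < 1) (hx : 0 ≤ x) (hxr : x ≤ r) (hxy : x ≤ y) :
    x ≤ r ^ m * y ^ (1 - m) := by
  rcases hx.eq_or_lt with h | h
  · rw [← h]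
    exact mul_nonneg (Real.rpow_nonneg (hx.trans hxr) _) (Real.rpow_nonneg (hx.trans hxy) _)
  · have h1 : x = x ^ m * x ^ (1 - m) := by
      rw [← Real.rpow_add h, add_sub_cancel, Real.rpow_one]
    calc x = x ^ m * x ^ (1 - m) := h1
      _ ≤ r ^ m * y ^ (1 - m) :=
        mul_le_mul (Real.rpow_le_rpow hx hxr hm.le) (Real.rpow_le_rpow hx hxy (by linarith))
          (Real.rpow_nonneg hx _) (Real.rpow_nonneg (hx.trans hxr) _)

private lemma thm1_cpow {c x p K : ℝ} (hc : 1 ≤ c) (hx : 0 ≤ x) (hp : p ≤ 2) (hK : c ^ 2 = K) :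
    (c * x) ^ p ≤ K * x ^ p := by
  rw [Real.mul_rpow (by linarith) hx, ← hK, ← Real.rpow_two]
  exact mul_le_mul_of_nonneg_right (Real.rpow_le_rpow_of_exponent_le hc hp) (Real.rpow_nonneg hx _)

private lemma thm1_jk {j k p : ℝ} (hj : 1 ≤ j) (hjk : j ≤ k) (hp : p ≤ 2) :
    (j / k) ^ 2 * k ^ p ≤ j ^ p := by
  have hj0 : 0 < j := by linarith
  have hk0 : 0 < k := by linarith
  have hr0 : 0 < j / k := div_pos hj0 hk0
  have hr1 : j / k ≤ 1 := (div_le_one hk0).2 hjk
  have h1 : (j / k) ^ 2 ≤ (j / k) ^ p := by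
    rw [← Real.rpow_two]
    exact Real.rpow_le_rpow_of_exponent_ge hr0 hr1 hp
  have h2 : (j / k) ^ p * k ^ p = j ^ p := by
    rw [← Real.mul_rpow hr0.le hk0.le, div_mul_cancel₀ _ hk0.ne']
  rw [← h2]
  exact mul_le_mul_of_nonneg_right h1 (Real.rpow_nonneg hk0.le _)

private lemma thm1_main (E : EX a m κ) (hε : 0 < ε) : ∃ C : ℝ, 0 ≤ C ∧ ∀ (e : Fin d) (V : ℝ), 1 ≤ V →
    ∀ v w w' : Vec d, jb w' ≤ jb w → |T1 e a m κ ε V v w - T1 e a m κ ε V v w'| ≤
      C * jb v ^ qx a m κ * (om m V (jb w) * len (w - w') ^ m) := by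
  obtain ⟨C₀, hC₀, h0⟩ := N1_abs (d := d) E hε
  obtain ⟨C₁, hC₁, h1⟩ := N1_hol (d := d) E hε
  obtain ⟨hm0, hm1, ha1, -, hp2, hpq, hqb, hq0, hq2, -⟩ := E.facts
  have ha := E.ha
  have hκ := E.hκ
  refine ⟨25 * C₁ + 204 * C₀, by positivity, fun e V hV v w w' hle => ?_⟩
  have hV0 : 0 < V := by linarith
  set j := jb v with hj
  set k := jb w with hk
  set k' := jb w' with hk'
  set q := qx a m κ with hq
  set r := len (w - w') with hr
  set p := a + m + κ with hp
  have hj1 : 1 ≤ j := one_le_jb v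
  have hk1 : 1 ≤ k := one_le_jb w
  have hk'1 : 1 ≤ k' := one_le_jb w'
  have hj0 : 0 < j := by linarith
  have hk0 : 0 < k := by linarith
  have hr0 : 0 ≤ r := len_nonneg _
  have hp0 : 0 ≤ p := by rw [hp]; linarith
  have hpm : p - m = a + κ := by rw [hp]; ring
  have hkk : |k - k'| ≤ r := jb_lip w w'
  have hkk0 : 0 ≤ k - k' := by linarith
  have hkr : k - k' ≤ r := (le_abs_self _).trans hkk
  have hU : jb (v - w) ≤ j + k := thm1_jb v w
  have hU' : jb (v - w') ≤ j + k' := thm1_jb v w'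
  have hO : 0 ≤ om m V k := Pool.Agent.H25.PT.om_nonneg hV0 hk0.le
  have hrm : 0 ≤ r ^ m := Real.rpow_nonneg hr0 _
  have hjq : 0 ≤ j ^ q := Real.rpow_nonneg hj0.le _
  have hR : 0 ≤ j ^ q * (om m V k * r ^ m) := mul_nonneg hjq (mul_nonneg hO hrm)
  have hjab : j ^ (a + κ) ≤ j ^ q := Real.rpow_le_rpow_of_exponent_le hj1 hqb
  have hOm : ∀ x : ℝ, 0 ≤ x → x ≤ k → om m V x ≤ om m V k := fun x hx hxk =>
    Pool.Agent.H25.PT.om_mono hm1.le hV0 hx hxk
  have hmin0 : ∀ x : ℝ, 1 ≤ x → 0 ≤ min j x := fun x hx => le_min hj0.le (by linarith)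
  have hSk' : Sm m V j k' ≤ om m V k :=
    (Sm_le hV hj1 hk'1).trans (hOm _ (hmin0 _ hk'1) ((min_le_right _ _).trans hle))
  have hSk'0 : 0 ≤ Sm m V j k' := Sm_nonneg hV hj1 hk'1
  have hNN : |N1 e a m κ ε (v - w) - N1 e a m κ ε (v - w')| ≤
      C₁ * (max (jb (v - w)) (jb (v - w')) ^ q * r ^ m) := by
    have h2 := h1 e (v - w) (v - w')
    have h3 : len (v - w - (v - w')) = r := by
      rw [show v - w - (v - w') = -(w - w') by abel, len_neg]
    rw [h3] at h2
    exact h2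
  have hN0 : |N1 e a m κ ε (v - w)| ≤ C₀ * jb (v - w) ^ p := h0 e (v - w)
  have hsplit : |T1 e a m κ ε V v w - T1 e a m κ ε V v w'| ≤
      Sm m V j k' * |N1 e a m κ ε (v - w) - N1 e a m κ ε (v - w')| +
        |Sm m V j k - Sm m V j k'| * |N1 e a m κ ε (v - w)| := by
    have e1 : T1 e a m κ ε V v w - T1 e a m κ ε V v w' =
        Sm m V j k' * (N1 e a m κ ε (v - w) - N1 e a m κ ε (v - w')) +
          (Sm m V j k - Sm m V j k') * N1 e a m κ ε (v - w) := by
      unfold T1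
      ring
    rw [e1]
    refine (abs_add_le _ _).trans ?_
    rw [abs_mul, abs_mul, abs_of_nonneg hSk'0]
  rcases le_or_gt k (2 * j) with hc | hc
  · -- (i)
    have hmax : max (jb (v - w)) (jb (v - w')) ≤ 3 * j := max_le (by linarith) (by linarith)
    have hmax0 : 0 ≤ max (jb (v - w)) (jb (v - w')) := (jb_pos _).le.trans (le_max_left _ _)
    have i1 : max (jb (v - w)) (jb (v - w')) ^ q ≤ 9 * j ^ q :=
      (Real.rpow_le_rpow hmax0 hmax hq0).trans
        (thm1_cpow (by norm_num) hj0.le hq2.le (by norm_num))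
    have hU3 : jb (v - w) ≤ 3 * j := by linarith
    have i2 : jb (v - w) ^ p ≤ 9 * j ^ p :=
      (Real.rpow_le_rpow (jb_pos _).le hU3 hp0).trans
        (thm1_cpow (by norm_num) hj0.le hp2.le (by norm_num))
    have t1 : Sm m V j k' * |N1 e a m κ ε (v - w) - N1 e a m κ ε (v - w')| ≤
        9 * C₁ * (j ^ q * (om m V k * r ^ m)) := by
      have j1 : |N1 e a m κ ε (v - w) - N1 e a m κ ε (v - w')| ≤ C₁ * (9 * j ^ q * r ^ m) :=
        hNN.trans (mul_le_mul_of_nonneg_left (mul_le_mul_of_nonneg_right i1 hrm) hC₁)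
      calc Sm m V j k' * |N1 e a m κ ε (v - w) - N1 e a m κ ε (v - w')|
          ≤ om m V k * (C₁ * (9 * j ^ q * r ^ m)) := mul_le_mul hSk' j1 (abs_nonneg _) hO
        _ = 9 * C₁ * (j ^ q * (om m V k * r ^ m)) := by ring
    have t2 : |Sm m V j k - Sm m V j k'| * |N1 e a m κ ε (v - w)| ≤
        108 * C₀ * (j ^ q * (om m V k * r ^ m)) := by
      have j1 := Sm_lip (m := m) hm0.le hm1.le hV hj1 hk1 hk'1
      rw [max_eq_left hle, abs_of_nonneg hkk0] at j1
      have j2 : k - k' ≤ r ^ m * (2 * j ^ (1 - m)) := by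
        have l1 := thm1_interp hm0 hm1 hkk0 hkr (show k - k' ≤ 2 * j by linarith)
        have l2 : (2 * j) ^ (1 - m) ≤ 2 * j ^ (1 - m) := by
          rw [Real.mul_rpow (by norm_num) hj0.le]
          refine mul_le_mul_of_nonneg_right ?_ (Real.rpow_nonneg hj0.le _)
          have := Real.rpow_le_rpow_of_exponent_le (show (1 : ℝ) ≤ 2 by norm_num)
            (show 1 - m ≤ 1 by linarith)
          rwa [Real.rpow_one] at this
        exact l1.trans (mul_le_mul_of_nonneg_left l2 hrm)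
      have j3 : om m V (min j k) ≤ om m V k := hOm _ (hmin0 _ hk1) (min_le_right _ _)
      have j4 : |Sm m V j k - Sm m V j k'| ≤ 6 * (om m V k * (r ^ m * (2 * j ^ (1 - m)) / j)) := by
        refine j1.trans (mul_le_mul_of_nonneg_left ?_ (by norm_num))
        exact mul_le_mul j3 (div_le_div_of_nonneg_right j2 hj0.le) (div_nonneg hkk0 hj0.le) hO
      have j5 : |N1 e a m κ ε (v - w)| ≤ C₀ * (9 * j ^ p) :=
        hN0.trans (mul_le_mul_of_nonneg_left i2 hC₀)
      have j6 : j ^ (1 - m) / j * j ^ p = j ^ (a + κ) := by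
        have : j ^ (1 - m) / j = j ^ (-m) := by
          rw [div_eq_iff hj0.ne', ← Real.rpow_add_one hj0.ne']
          congr 1; ring
        rw [this, ← Real.rpow_add hj0]
        congr 1
        rw [hp]; ring
      have hB : 0 ≤ 6 * (om m V k * (r ^ m * (2 * j ^ (1 - m)) / j)) := (abs_nonneg _).trans j4
      calc |Sm m V j k - Sm m V j k'| * |N1 e a m κ ε (v - w)|
          ≤ 6 * (om m V k * (r ^ m * (2 * j ^ (1 - m)) / j)) * (C₀ * (9 * j ^ p)) :=
            mul_le_mul j4 j5 (abs_nonneg _) hB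
        _ = 108 * C₀ * ((j ^ (1 - m) / j * j ^ p) * (om m V k * r ^ m)) := by ring
        _ = 108 * C₀ * (j ^ (a + κ) * (om m V k * r ^ m)) := by rw [j6]
        _ ≤ 108 * C₀ * (j ^ q * (om m V k * r ^ m)) := by
            refine mul_le_mul_of_nonneg_left ?_ (by positivity)
            exact mul_le_mul_of_nonneg_right hjab (mul_nonneg hO hrm)
    have t3 : 0 ≤ (16 * C₁ + 96 * C₀) * (j ^ q * (om m V k * r ^ m)) := by positivity
    have t4 : (25 * C₁ + 204 * C₀) * j ^ q * (om m V k * r ^ m) =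
        9 * C₁ * (j ^ q * (om m V k * r ^ m)) + 108 * C₀ * (j ^ q * (om m V k * r ^ m)) +
          (16 * C₁ + 96 * C₀) * (j ^ q * (om m V k * r ^ m)) := by ring
    rw [t4]
    linarith
  · rcases le_or_gt k (8 * r) with hc2 | hc2
    · -- (ii)
      have key : ∀ u : Vec d, jb u ≤ k → |T1 e a m κ ε V v u| ≤ 4 * C₀ * (om m V k * j ^ p) := by
        intro u hu
        have hu1 : 1 ≤ jb u := one_le_jb u
        have l1 : jb (v - u) ≤ 2 * max j (jb u) := by
          have := thm1_jb v u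
          have h3 := le_max_left j (jb u)
          have h4 := le_max_right j (jb u)
          linarith
        have hM0 : 0 ≤ max j (jb u) := hj0.le.trans (le_max_left _ _)
        have l2 : jb (v - u) ^ p ≤ 4 * max j (jb u) ^ p :=
          (Real.rpow_le_rpow (jb_pos _).le l1 hp0).trans
            (thm1_cpow (by norm_num) hM0 hp2.le (by norm_num))
        have l3 : |N1 e a m κ ε (v - u)| ≤ C₀ * (4 * max j (jb u) ^ p) :=
          (h0 e (v - u)).trans (mul_le_mul_of_nonneg_left l2 hC₀)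
        have l4 := Sm_pow (m := m) hV hj1 hu1 hp0 hp2.le
        have l5 : om m V (min j (jb u)) ≤ om m V k := hOm _ (hmin0 _ hu1) ((min_le_right _ _).trans hu)
        have l6 : 0 ≤ Sm m V j (jb u) := Sm_nonneg hV hj1 hu1
        unfold T1
        rw [abs_mul, abs_of_nonneg l6]
        calc Sm m V j (jb u) * |N1 e a m κ ε (v - u)|
            ≤ Sm m V j (jb u) * (C₀ * (4 * max j (jb u) ^ p)) := mul_le_mul_of_nonneg_left l3 l6
          _ = 4 * C₀ * (Sm m V j (jb u) * max j (jb u) ^ p) := by ring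
          _ ≤ 4 * C₀ * (om m V k * j ^ p) := by
              refine mul_le_mul_of_nonneg_left (l4.trans ?_) (by positivity)
              exact mul_le_mul_of_nonneg_right l5 (Real.rpow_nonneg hj0.le _)
      have l1 := key w le_rfl
      have l2 := key w' hle
      have l3 : j ^ p ≤ 8 * (j ^ q * r ^ m) := by
        have i1 : j ^ p = j ^ (a + κ) * j ^ m := by
          rw [← Real.rpow_add hj0]; congr 1; rw [hp]; ring
        have i2 : j ^ m ≤ 8 * r ^ m := by
          have i3 : j ^ m ≤ (8 * r) ^ m := Real.rpow_le_rpow hj0.le (by linarith) hm0.le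
          rw [Real.mul_rpow (by norm_num) hr0] at i3
          have i4 : (8 : ℝ) ^ m ≤ 8 := by
            have := Real.rpow_le_rpow_of_exponent_le (show (1 : ℝ) ≤ 8 by norm_num) hm1.le
            rwa [Real.rpow_one] at this
          exact i3.trans (mul_le_mul_of_nonneg_right i4 hrm)
        rw [i1]
        calc j ^ (a + κ) * j ^ m ≤ j ^ q * (8 * r ^ m) :=
              mul_le_mul hjab i2 (Real.rpow_nonneg hj0.le _) hjq
          _ = 8 * (j ^ q * r ^ m) := by ring
      have l4 : om m V k * j ^ p ≤ 8 * (j ^ q * (om m V k * r ^ m)) := by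
        have := mul_le_mul_of_nonneg_left l3 hO
        calc om m V k * j ^ p ≤ om m V k * (8 * (j ^ q * r ^ m)) := this
          _ = 8 * (j ^ q * (om m V k * r ^ m)) := by ring
      have l5 : |T1 e a m κ ε V v w - T1 e a m κ ε V v w'| ≤
          |T1 e a m κ ε V v w| + |T1 e a m κ ε V v w'| := abs_sub _ _
      have l6 : 4 * C₀ * (om m V k * j ^ p) ≤ 4 * C₀ * (8 * (j ^ q * (om m V k * r ^ m))) :=
        mul_le_mul_of_nonneg_left l4 (by positivity)
      have t3 : 0 ≤ (25 * C₁ + 140 * C₀) * (j ^ q * (om m V k * r ^ m)) := by positivity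
      have t4 : (25 * C₁ + 204 * C₀) * j ^ q * (om m V k * r ^ m) =
          2 * (4 * C₀ * (8 * (j ^ q * (om m V k * r ^ m)))) +
            (25 * C₁ + 140 * C₀) * (j ^ q * (om m V k * r ^ m)) := by ring
      rw [t4]
      linarith
    · -- (iii)
      have hk'2 : 7 / 8 * k ≤ k' := by linarith
      have hjk' : j ≤ k' := by linarith
      have hjk : j ≤ k := by linarith
      have hk2 : k ≤ 2 * k' := by linarith
      have hk'0 : 0 < k' := by linarith
      have hmax : max (jb (v - w)) (jb (v - w')) ≤ 2 * k := max_le (by linarith) (by linarith)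
      have hmax0 : 0 ≤ max (jb (v - w)) (jb (v - w')) := (jb_pos _).le.trans (le_max_left _ _)
      have i1 : max (jb (v - w)) (jb (v - w')) ^ q ≤ 4 * k ^ q :=
        (Real.rpow_le_rpow hmax0 hmax hq0).trans
          (thm1_cpow (by norm_num) hk0.le hq2.le (by norm_num))
      have hU3 : jb (v - w) ≤ 2 * k := by linarith
      have i2 : jb (v - w) ^ p ≤ 4 * k ^ p :=
        (Real.rpow_le_rpow (jb_pos _).le hU3 hp0).trans
          (thm1_cpow (by norm_num) hk0.le hp2.le (by norm_num))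
      have hOj : om m V j ≤ om m V k := hOm _ hj0.le hjk
      have hOj0 : 0 ≤ om m V j := Pool.Agent.H25.PT.om_nonneg hV0 hj0.le
      have t1 : Sm m V j k' * |N1 e a m κ ε (v - w) - N1 e a m κ ε (v - w')| ≤
          16 * C₁ * (j ^ q * (om m V k * r ^ m)) := by
        have j0 : Sm m V j k' ≤ 4 * (j / k) ^ 2 * om m V k := by
          unfold Sm
          rw [min_eq_left hjk', max_eq_right hjk']
          have l1 : j / k' ≤ 2 * (j / k) := by
            rw [div_le_iff₀ hk'0]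
            have : 2 * (j / k) * k' = j * (2 * k' / k) := by field_simp
            rw [this]
            have h5 : 1 ≤ 2 * k' / k := by rw [le_div_iff₀ hk0]; linarith
            nlinarith
          have l2 : (j / k') ^ 2 ≤ 4 * (j / k) ^ 2 := by
            have l3 := pow_le_pow_left₀ (div_nonneg hj0.le hk'0.le) l1 2
            have l4 : (2 * (j / k)) ^ 2 = 4 * (j / k) ^ 2 := by ring
            rwa [l4] at l3
          exact mul_le_mul l2 hOj hOj0 (by positivity)
        have j1 : |N1 e a m κ ε (v - w) - N1 e a m κ ε (v - w')| ≤ C₁ * (4 * k ^ q * r ^ m) :=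
          hNN.trans (mul_le_mul_of_nonneg_left (mul_le_mul_of_nonneg_right i1 hrm) hC₁)
        have j2 := thm1_jk (p := q) hj1 hjk hq2.le
        calc Sm m V j k' * |N1 e a m κ ε (v - w) - N1 e a m κ ε (v - w')|
            ≤ (4 * (j / k) ^ 2 * om m V k) * (C₁ * (4 * k ^ q * r ^ m)) :=
              mul_le_mul j0 j1 (abs_nonneg _) (by positivity)
          _ = 16 * C₁ * (((j / k) ^ 2 * k ^ q) * (om m V k * r ^ m)) := by ring
          _ ≤ 16 * C₁ * (j ^ q * (om m V k * r ^ m)) := by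
              refine mul_le_mul_of_nonneg_left ?_ (by positivity)
              exact mul_le_mul_of_nonneg_right j2 (mul_nonneg hO hrm)
      have t2 : |Sm m V j k - Sm m V j k'| * |N1 e a m κ ε (v - w)| ≤
          32 * C₀ * (j ^ q * (om m V k * r ^ m)) := by
        have j1 := Sm_lip2 (m := m) hm0.le hm1.le hV hj1 hjk' hle hk2
        have j2 : k - k' ≤ r ^ m * k ^ (1 - m) := thm1_interp hm0 hm1 hkk0 hkr (by linarith)
        have j4 : |Sm m V j k - Sm m V j k'| ≤
            8 * (j ^ 2 * om m V k * (r ^ m * k ^ (1 - m) / k ^ 3)) := by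
          refine j1.trans (mul_le_mul_of_nonneg_left ?_ (by norm_num))
          refine mul_le_mul (mul_le_mul_of_nonneg_left hOj (sq_nonneg j))
            (div_le_div_of_nonneg_right j2 (by positivity)) (div_nonneg hkk0 (by positivity)) ?_
          positivity
        have j5 : |N1 e a m κ ε (v - w)| ≤ C₀ * (4 * k ^ p) :=
          hN0.trans (mul_le_mul_of_nonneg_left i2 hC₀)
        have j6 : j ^ 2 * (k ^ (1 - m) / k ^ 3 * k ^ p) = (j / k) ^ 2 * k ^ (a + κ) := by
          have l1 : k ^ (1 - m) = k * k ^ (-m) := by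
            rw [mul_comm, ← Real.rpow_add_one hk0.ne']
            congr 1; ring
          have l2 : k ^ (a + κ) = k ^ (-m) * k ^ p := by
            rw [← Real.rpow_add hk0]; congr 1; rw [hp]; ring
          rw [l1, l2, div_pow]
          field_simp
        have j7 := thm1_jk (p := a + κ) hj1 hjk (by linarith)
        have hB : 0 ≤ 8 * (j ^ 2 * om m V k * (r ^ m * k ^ (1 - m) / k ^ 3)) := (abs_nonneg _).trans j4
        calc |Sm m V j k - Sm m V j k'| * |N1 e a m κ ε (v - w)|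
            ≤ 8 * (j ^ 2 * om m V k * (r ^ m * k ^ (1 - m) / k ^ 3)) * (C₀ * (4 * k ^ p)) :=
              mul_le_mul j4 j5 (abs_nonneg _) hB
          _ = 32 * C₀ * ((j ^ 2 * (k ^ (1 - m) / k ^ 3 * k ^ p)) * (om m V k * r ^ m)) := by ring
          _ = 32 * C₀ * (((j / k) ^ 2 * k ^ (a + κ)) * (om m V k * r ^ m)) := by rw [j6]
          _ ≤ 32 * C₀ * (j ^ q * (om m V k * r ^ m)) := by
              refine mul_le_mul_of_nonneg_left ?_ (by positivity)
              exact mul_le_mul_of_nonneg_right (j7.trans hjab) (mul_nonneg hO hrm)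
      have t3 : 0 ≤ (9 * C₁ + 172 * C₀) * (j ^ q * (om m V k * r ^ m)) := by positivity
      have t4 : (25 * C₁ + 204 * C₀) * j ^ q * (om m V k * r ^ m) =
          16 * C₁ * (j ^ q * (om m V k * r ^ m)) + 32 * C₀ * (j ^ q * (om m V k * r ^ m)) +
            (9 * C₁ + 172 * C₀) * (j ^ q * (om m V k * r ^ m)) := by ring
      rw [t4]
      linarith

theorem T1_hol (E : EX a m κ) (hε : 0 < ε) : ∃ C : ℝ, 0 ≤ C ∧ ∀ (e : Fin d) (V : ℝ), 1 ≤ V →
    ∀ v w w' : Vec d, |T1 e a m κ ε V v w - T1 e a m κ ε V v w'| ≤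
      C * jb v ^ qx a m κ * (om m V (max (jb w) (jb w')) * len (w - w') ^ m) := by
  obtain ⟨C, hC, h⟩ := thm1_main (d := d) E hε
  refine ⟨C, hC, fun e V hV v w w' => ?_⟩
  rcases le_total (jb w') (jb w) with hle | hle
  · rw [max_eq_left hle]
    exact h e V hV v w w' hle
  · rw [max_eq_right hle]
    have h1 := h e V hV v w' w hle
    rw [abs_sub_comm, ← len_neg, neg_sub] at h1
    exact h1

end Pool.Agent.H71.PX
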